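import Pool.Agent.Helper94.Liou.Stab

/-!
# Amenability
-/

set_option autoImplicit false

namespace Pool.Agent.Helper94.Liou

open Filter Topology Finset Equiv

section LF

variable {Γ : Type*} [Group Γ]

/-- locally finite subgroup -/
def LFin (H : Subgroup Γ) : Prop :=
  ∀ S : Finset Γ, (∀ s ∈ S, s ∈ H) → Finite (Subgroup.closure (S : Set Γ))

open Classical in
/-- the underlying finset -/
noncomputable def im (H : Subgroup Γ) (S : Finset H) : Finset Γ := S.image (fun h : H => h.1)

lemma mem_im {H : Subgroup Γ} {S : Finset H} {x : Γ} : x ∈ im H S ↔ ∃ a ∈ S, a.1 = x := by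
  classical
  unfold im
  rw [Finset.mem_image]

lemma im_fin {H : Subgroup Γ} (hH : LFin H) (S : Finset H) :
    ((Subgroup.closure ((im H S : Finset Γ) : Set Γ) : Subgroup Γ) : Set Γ).Finite := by
  have : Finite (Subgroup.closure ((im H S : Finset Γ) : Set Γ)) := by
    apply hH
    intro s hs
    obtain ⟨a, _, rfl⟩ := mem_im.mp hs
    exact a.2
  exact Set.toFinite _

/-- finite sets for averaging -/
noncomputable def FS {H : Subgroup Γ} (hH : LFin H) (S : Finset H) : Finset Γ :=
  (im_fin hH S).toFinset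

lemma mem_FS {H : Subgroup Γ} {hH : LFin H} {S : Finset H} {x : Γ} :
    x ∈ FS hH S ↔ x ∈ Subgroup.closure ((im H S : Finset Γ) : Set Γ) := by
  rw [FS, Set.Finite.mem_toFinset]; rfl

lemma FS_nonempty {H : Subgroup Γ} (hH : LFin H) (S : Finset H) : (FS hH S).Nonempty :=
  ⟨1, mem_FS.mpr (Subgroup.one_mem _)⟩

/-- mean on a locally finite subgroup -/
noncomputable def MH {H : Subgroup Γ} (hH : LFin H) : bd Γ →ₗ[ℝ] ℝ :=
  ulimL (Ultrafilter.of (atTop : Filter (Finset H))) (fun S => avgL (FS hH S))
    (fun S F _ h => avgL_abs_le (FS_nonempty hH S) F h)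

lemma MH_inv {H : Subgroup Γ} (hH : LFin H) {h : Γ} (hh : h ∈ H) (F : bd Γ) :
    MH hH (cmp (fun x => h * x) F) = MH hH F := by
  classical
  apply ulimL_eq_of_sub
  apply Tendsto.mono_left _ (Ultrafilter.of_le (atTop : Filter (Finset H)))
  apply tendsto_const_nhds.congr'
  filter_upwards [eventually_ge_atTop ({⟨h, hh⟩} : Finset H)] with S hS
  symm
  rw [sub_eq_zero, avgL_apply, avgL_apply]
  congr 1
  have hmem : h ∈ Subgroup.closure ((im H S : Finset Γ) : Set Γ) := by
    apply Subgroup.subset_closure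
    rw [Finset.mem_coe, mem_im]
    exact ⟨⟨h, hh⟩, Finset.singleton_subset_iff.mp hS, rfl⟩
  apply Finset.sum_equiv (Equiv.mulLeft h)
  · intro x
    rw [mem_FS, mem_FS, Equiv.coe_mulLeft]
    exact (Subgroup.mul_mem_cancel_left _ hmem).symm
  · intro x _
    rfl

end LF

lemma act_one (T : Set ℤ) : act 1 T = T := by
  ext p; rw [mem_act]; simp

lemma act_mul (g h : Perm ℤ) (T : Set ℤ) : act (g * h) T = act g (act h T) := by
  ext p; rw [mem_act, mem_act, mem_act, mul_inv_rev]; rfl

/-- configurations -/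
def Cfg : Type := Set ℤ

instance : MulAction G Cfg where
  smul g T := act g.1 T
  one_smul T := act_one T
  mul_smul g h T := act_mul g.1 h.1 T

lemma smul_def (g : G) (T : Cfg) : g • T = act g.1 T := rfl

lemma Std_act {T : Set ℤ} (hT : Std T) (g : G) : Std (act g.1 T) := by
  obtain ⟨m, hm⟩ := hT
  obtain ⟨R, hR⟩ := G_loc (G.inv_mem g.2)
  refine ⟨m + R, fun p hp => ?_⟩
  have h := hR.1 p
  rw [mem_act]
  push_cast at hp
  rw [abs_le] at h
  rcases le_total 0 p with h1 | h1
  · rw [abs_of_nonneg h1] at hp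
    rw [hm _ (by rw [abs_of_nonneg (by omega)]; omega)]
    constructor <;> intro <;> omega
  · rw [abs_of_nonpos h1] at hp
    rw [hm _ (by rw [abs_of_nonpos (by omega)]; omega)]
    constructor <;> intro <;> omega

/-- orbit representative -/
noncomputable def rep (T : Cfg) : Cfg := (Quotient.mk (MulAction.orbitRel G Cfg) T).out

lemma exists_tr (T : Cfg) : ∃ t : G, t • rep T = T := by
  let _ := MulAction.orbitRel G Cfg
  have h : T ≈ rep T := Setoid.symm (Quotient.mk_out T)
  exact h

/-- transporter -/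
noncomputable def tr (T : Cfg) : G := (exists_tr T).choose

lemma tr_spec (T : Cfg) : tr T • rep T = T := (exists_tr T).choose_spec

lemma rep_smul (g : G) (T : Cfg) : rep (g • T) = rep T := by
  unfold rep
  congr 1
  apply Quotient.sound (s := MulAction.orbitRel G Cfg)
  exact ⟨g, rfl⟩

lemma Std_rep {T : Cfg} (hT : Std T) : Std (rep T) := by
  have h : (tr T)⁻¹ • T = rep T := inv_smul_eq_iff.mpr (tr_spec T).symm
  rw [← h]
  exact Std_act hT _

lemma LFin_stab {T : Cfg} (hT : Std T) : LFin (MulAction.stabilizer G T) :=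
  fun S hS => stab_lf hT S (fun s hs => hS s hs)

open Classical in
/-- the mean attached to a configuration -/
noncomputable def MT (T : Cfg) : bd G →ₗ[ℝ] ℝ :=
  if h : LFin (MulAction.stabilizer G T) then MH h else avgL {1}

lemma MT_abs_le (T : Cfg) (F : bd G) {C : ℝ} (h : ∀ x, |F.1 x| ≤ C) : |MT T F| ≤ C := by
  unfold MT
  split_ifs with hL
  · exact ulimL_abs_le _ _ _ F h
  · exact avgL_abs_le (Finset.singleton_nonempty _) F h

lemma MT_nonneg (T : Cfg) (F : bd G) (h : ∀ x, 0 ≤ F.1 x) : 0 ≤ MT T F := by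
  unfold MT
  split_ifs with hL
  · exact ulimL_nonneg _ _ _ _ fun _ => avgL_nonneg _ F h
  · exact avgL_nonneg _ F h

lemma MT_one (T : Cfg) : MT T 1 = 1 := by
  unfold MT
  split_ifs with hL
  · exact ulimL_eq_const _ _ _ _ fun S => avgL_one (FS_nonempty hL S)
  · exact avgL_one (Finset.singleton_nonempty _)

lemma MT_inv {T : Cfg} (hT : Std T) {h : G} (hh : h • T = T) (F : bd G) :
    MT T (cmp (fun x => h * x) F) = MT T F := by
  unfold MT
  rw [dif_pos (LFin_stab hT)]
  exact MH_inv _ hh F

/-- averaging over the fibres -/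
noncomputable def til : bd G →ₗ[ℝ] bd (Set ℤ) where
  toFun F := ⟨fun T => MT (rep T) (cmp (fun x => tr T * x) F), by
    obtain ⟨C, hC⟩ := F.2
    exact ⟨C, fun T => MT_abs_le _ _ fun x => hC _⟩⟩
  map_add' F H := by
    apply Subtype.ext
    funext T
    change MT (rep T) (cmp (fun x => tr T * x) (F + H)) = MT (rep T) (cmp (fun x => tr T * x) F) +
      MT (rep T) (cmp (fun x => tr T * x) H)
    rw [map_add, map_add]
  map_smul' r F := by
    apply Subtype.ext
    funext T
    change MT (rep T) (cmp (fun x => tr T * x) (r • F)) = r * MT (rep T) (cmp (fun x => tr T * x) F)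
    rw [map_smul, map_smul, smul_eq_mul]

lemma til_apply (F : bd G) (T : Cfg) :
    (til F).1 T = MT (rep T) (cmp (fun x => tr T * x) F) := rfl

/-- the invariant mean on the group -/
noncomputable def mG : bd G →ₗ[ℝ] ℝ := EX.comp til

lemma mG_nonneg {F : bd G} (h : ∀ x, 0 ≤ F.1 x) : 0 ≤ mG F :=
  EX_nonneg fun T => by
    have := MT_nonneg (rep T) (cmp (fun x => tr T * x) F) (fun x => h _)
    exact this

lemma mG_one : mG 1 = 1 := by
  have : til 1 = 1 := by
    apply Subtype.ext
    funext T
    rw [til_apply, map_one, MT_one]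
    rfl
  change EX (til 1) = 1
  rw [this, EX_one]

lemma mG_inv (g : G) (F : bd G) : mG (cmp (fun x => g * x) F) = mG F := by
  obtain ⟨R, hR⟩ := G_loc g.2
  change EX (til (cmp (fun x => g * x) F)) = EX (til F)
  rw [← EX_inv hR.1 (til F)]
  apply EX_congr
  intro T' hT
  let T : Cfg := T'
  change (til (cmp (fun x => g * x) F)).1 T = (til F).1 (g • T)
  change Std T at hT
  rw [til_apply, til_apply, rep_smul]
  set h0 : G := (tr (g • T))⁻¹ * g * tr T with hh0
  have h2 : cmp (fun x => tr T * x) (cmp (fun x => g * x) F) =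
      cmp (fun x => h0 * x) (cmp (fun x => tr (g • T) * x) F) := by
    apply Subtype.ext
    funext x
    rw [cmp_apply, cmp_apply, cmp_apply, cmp_apply]
    rw [hh0]
    group
  rw [h2]
  apply MT_inv (Std_rep hT)
  rw [hh0, mul_smul, mul_smul, tr_spec]
  have h3 := tr_spec (g • T)
  rw [rep_smul] at h3
  rw [inv_smul_eq_iff, h3]

/-- amenability -/
theorem G_amenable : ∃ m : Set G → ℝ, m Set.univ = 1 ∧ (∀ A : Set G, 0 ≤ m A) ∧
    (∀ A B : Set G, Disjoint A B → m (A ∪ B) = m A + m B) ∧
    (∀ (g : G) (A : Set G), m ((fun x => g * x) '' A) = m A) := by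
  classical
  refine ⟨fun A => mG (ind (fun x => x ∈ A)), ?_, ?_, ?_, ?_⟩
  · have : ind (fun x : G => x ∈ (Set.univ : Set G)) = 1 := by
      apply Subtype.ext
      funext x
      rw [ind_true (Set.mem_univ x)]
      rfl
    simp only [this]
    exact mG_one
  · intro A
    exact mG_nonneg fun x => ind_nonneg _ _
  · intro A B hAB
    have : ind (fun x : G => x ∈ A ∪ B) = ind (fun x => x ∈ A) + ind (fun x => x ∈ B) := by
      apply Subtype.ext
      funext x
      change (ind (fun x : G => x ∈ A ∪ B)).1 x = (ind (fun x => x ∈ A)).1 x +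
        (ind (fun x => x ∈ B)).1 x
      by_cases h1 : x ∈ A
      · have h2 : x ∉ B := Set.disjoint_left.mp hAB h1
        rw [ind_true (P := fun x : G => x ∈ A ∪ B) (Or.inl h1),
          ind_true (P := fun x : G => x ∈ A) h1, ind_false (P := fun x : G => x ∈ B) h2, add_zero]
      · by_cases h2 : x ∈ B
        · rw [ind_true (P := fun x : G => x ∈ A ∪ B) (Or.inr h2),
            ind_false (P := fun x : G => x ∈ A) h1, ind_true (P := fun x : G => x ∈ B) h2,
            zero_add]
        · rw [ind_false (P := fun x : G => x ∈ A ∪ B) (by rintro (h | h) <;> contradiction),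
            ind_false (P := fun x : G => x ∈ A) h1, ind_false (P := fun x : G => x ∈ B) h2,
            add_zero]
    simp only [this, map_add]
  · intro g A
    have : ind (fun x : G => x ∈ (fun x => g * x) '' A) =
        cmp (fun x => g⁻¹ * x) (ind (fun x => x ∈ A)) := by
      apply Subtype.ext
      funext x
      rw [cmp_apply, ind_apply, ind_apply]
      apply if_congr _ rfl rfl
      constructor
      · rintro ⟨y, hy, rfl⟩
        simpa using hy
      · intro h
        exact ⟨g⁻¹ * x, h, by simp⟩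
    simp only [this]
    exact mG_inv g⁻¹ _

end Pool.Agent.Helper94.Liou
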