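import Pool.Agent.Helper94.Liou.Grp

/-!
# Block permutations and alternating groups
-/

set_option autoImplicit false

namespace Pool.Agent.Helper94.Liou

open Equiv
open scoped commutatorElement

/-! ### generation of the alternating group by adjacent 3-cycles -/

/-- adjacent transposition -/
def tt (L j : ℕ) : Perm (Fin L) :=
  if h : j + 1 < L then swap ⟨j, by omega⟩ ⟨j + 1, h⟩ else 1

/-- adjacent 3-cycle -/
def s3 (L j : ℕ) : Perm (Fin L) := tt L j * tt L (j + 1)

lemma tt_mul_self (L j : ℕ) : tt L j * tt L j = 1 := by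
  unfold tt; split_ifs <;> simp

lemma tt_inv (L j : ℕ) : (tt L j)⁻¹ = tt L j := by
  rw [inv_eq_iff_mul_eq_one, tt_mul_self]

lemma s3_apply0 {L j : ℕ} (h : j + 2 < L) (i : Fin L) (hi : (i : ℕ) = j) :
    ((s3 L j i : Fin L) : ℕ) = j + 1 := by
  obtain ⟨i, hi'⟩ := i
  simp only at hi
  subst hi
  unfold s3 tt
  rw [dif_pos (by omega), dif_pos (by omega), Perm.mul_apply]
  have e : swap (⟨i + 1, by omega⟩ : Fin L) ⟨i + 1 + 1, by omega⟩ ⟨i, hi'⟩ = ⟨i, hi'⟩ := by
    apply swap_apply_of_ne_of_ne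
    · intro h'; have := congrArg Fin.val h'; simp at this
    · intro h'; have := congrArg Fin.val h'; simp only at this; omega
  rw [e, swap_apply_left]

lemma s3_apply1 {L j : ℕ} (h : j + 2 < L) (i : Fin L) (hi : (i : ℕ) = j + 1) :
    ((s3 L j i : Fin L) : ℕ) = j + 2 := by
  obtain ⟨i, hi'⟩ := i
  simp only at hi
  subst hi
  unfold s3 tt
  rw [dif_pos (by omega), dif_pos (by omega), Perm.mul_apply, swap_apply_left]
  have e : swap (⟨j, by omega⟩ : Fin L) ⟨j + 1, by omega⟩ ⟨j + 1 + 1, by omega⟩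
      = ⟨j + 1 + 1, by omega⟩ := by
    apply swap_apply_of_ne_of_ne
    · intro h'; have := congrArg Fin.val h'; simp only at this; omega
    · intro h'; have := congrArg Fin.val h'; simp at this
  rw [e]

lemma s3_apply2 {L j : ℕ} (h : j + 2 < L) (i : Fin L) (hi : (i : ℕ) = j + 2) :
    ((s3 L j i : Fin L) : ℕ) = j := by
  obtain ⟨i, hi'⟩ := i
  simp only at hi
  subst hi
  unfold s3 tt
  rw [dif_pos (by omega), dif_pos (by omega), Perm.mul_apply]
  have : (⟨j + 2, by omega⟩ : Fin L) = ⟨j + 1 + 1, by omega⟩ := rfl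
  rw [this, swap_apply_right, swap_apply_right]

lemma s3_apply_not {L j : ℕ} (h : j + 2 < L) (i : Fin L) (h0 : (i : ℕ) ≠ j)
    (h1 : (i : ℕ) ≠ j + 1) (h2 : (i : ℕ) ≠ j + 2) : s3 L j i = i := by
  unfold s3 tt
  rw [dif_pos (by omega), dif_pos (by omega), Perm.mul_apply]
  have e : swap (⟨j + 1, by omega⟩ : Fin L) ⟨j + 1 + 1, by omega⟩ i = i := by
    apply swap_apply_of_ne_of_ne
    · intro h'; apply h1; rw [h']
    · intro h'; apply h2; rw [h']
  rw [e]
  apply swap_apply_of_ne_of_ne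
  · intro h'; apply h0; rw [h']
  · intro h'; apply h1; rw [h']

lemma s3_ne_one {L j : ℕ} (h : j + 2 < L) : s3 L j ≠ 1 := by
  intro h1
  have := s3_apply0 h ⟨j, by omega⟩ rfl
  rw [h1] at this
  simp at this

lemma s3_sign {L j : ℕ} (h : j + 2 < L) : Perm.sign (s3 L j) = 1 := by
  unfold s3 tt
  rw [dif_pos (by omega), dif_pos (by omega), map_mul, Perm.sign_swap (by simp),
    Perm.sign_swap (by simp)]
  simp

lemma s3_mem {L j : ℕ} (h : j + 2 < L) : s3 L j ∈ alternatingGroup (Fin L) :=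
  Perm.mem_alternatingGroup.mpr (s3_sign h)

lemma tt_pair {L : ℕ} {H : Subgroup (Perm (Fin L))} (hH : ∀ j, j + 2 < L → s3 L j ∈ H)
    {j k : ℕ} (hjk : j ≤ k) (hk : k + 1 < L) : tt L j * tt L k ∈ H := by
  induction k, hjk using Nat.le_induction with
  | base => rw [tt_mul_self]; exact H.one_mem
  | succ k hjk ih =>
    have h1 := ih (by omega)
    have h2 := hH k (by omega)
    have : tt L j * tt L (k + 1) = (tt L j * tt L k) * s3 L k := by
      unfold s3
      rw [mul_assoc, ← mul_assoc (tt L k), tt_mul_self, one_mul]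
    rw [this]
    exact H.mul_mem h1 h2

lemma tt_pair' {L : ℕ} {H : Subgroup (Perm (Fin L))} (hH : ∀ j, j + 2 < L → s3 L j ∈ H)
    {j k : ℕ} (hj : j + 1 < L) (hk : k + 1 < L) : tt L j * tt L k ∈ H := by
  rcases le_total j k with h | h
  · exact tt_pair hH h hk
  · have := H.inv_mem (tt_pair hH h hj)
    rwa [mul_inv_rev, tt_inv, tt_inv] at this

lemma gen_alt {n : ℕ} {H : Subgroup (Perm (Fin (n + 2)))}
    (hH : ∀ j, j + 2 < n + 2 → s3 (n + 2) j ∈ H) : alternatingGroup (Fin (n + 2)) ≤ H := by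
  have key : ∀ σ : Perm (Fin (n + 2)), (Perm.sign σ = 1 ∧ σ ∈ H) ∨
      (Perm.sign σ = -1 ∧ tt (n + 2) 0 * σ ∈ H) := by
    intro σ
    have hσ : σ ∈ Submonoid.closure (Set.range fun i : Fin (n + 1) ↦ swap i.castSucc i.succ) := by
      rw [Perm.mclosure_swap_castSucc_succ]; trivial
    induction hσ using Submonoid.closure_induction_left with
    | one => left; exact ⟨by simp, H.one_mem⟩
    | mul_left x hx y _ ih =>
      obtain ⟨i, rfl⟩ := hx
      have hi : (i : ℕ) + 1 < n + 2 := by omega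
      have ht : swap i.castSucc i.succ = tt (n + 2) i := by
        unfold tt
        rw [dif_pos hi]
        rfl
      have hs : Perm.sign (swap i.castSucc i.succ) = -1 := Perm.sign_swap (by
        intro h
        have := congrArg Fin.val h
        simp at this)
      simp only [Perm.sign_mul, hs]
      rw [ht]
      rcases ih with ⟨h1, h2⟩ | ⟨h1, h2⟩
      · right
        refine ⟨by rw [h1]; simp, ?_⟩
        rw [← mul_assoc]
        exact H.mul_mem (tt_pair' hH (by omega) hi) h2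
      · left
        refine ⟨by rw [h1]; simp, ?_⟩
        have : tt (n + 2) i * y = (tt (n + 2) i * tt (n + 2) 0) * (tt (n + 2) 0 * y) := by
          rw [mul_assoc, ← mul_assoc (tt (n + 2) 0), tt_mul_self, one_mul]
        rw [this]
        exact H.mul_mem (tt_pair' hH hi (by omega)) h2
  intro σ hσ
  rcases key σ with ⟨_, h⟩ | ⟨h, _⟩
  · exact h
  · rw [Perm.mem_alternatingGroup] at hσ
    rw [hσ] at h
    exact absurd h (by decide)

lemma gen_alt' {L : ℕ} (hL : 2 ≤ L) {H : Subgroup (Perm (Fin L))}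
    (hH : ∀ j, j + 2 < L → s3 L j ∈ H) : alternatingGroup (Fin L) ≤ H := by
  obtain ⟨n, rfl⟩ : ∃ n, L = n + 2 := ⟨L - 2, by omega⟩
  exact gen_alt hH

/-! ### block permutations -/

/-- `L`-separated -/
def Sep (L : ℕ) (R : Set ℤ) : Prop := ∀ x ∈ R, ∀ y ∈ R, x ≠ y → (L : ℤ) ≤ |x - y|

lemma Sep.eq_of_add {L : ℕ} {R : Set ℤ} (h : Sep L R) {x y : ℤ} (hx : x ∈ R) (hy : y ∈ R)
    {i j : ℤ} (hi : 0 ≤ i) (hi' : i < L) (hj : 0 ≤ j) (hj' : j < L) (e : x + i = y + j) :
    x = y ∧ i = j := by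
  have : x = y := by
    by_contra hne
    have h1 := h x hx y hy hne
    have h2 : |x - y| < L := by rw [abs_lt]; constructor <;> omega
    omega
  exact ⟨this, by omega⟩

/-- embedding of the blocks -/
def em (L : ℕ) (R : Set ℤ) : (Σ _ : R, Fin L) → ℤ := fun x => x.1.1 + ((x.2 : ℕ) : ℤ)

lemma em_inj {L : ℕ} {R : Set ℤ} (h : Sep L R) : Function.Injective (em L R) := by
  rintro ⟨⟨x, hx⟩, i⟩ ⟨⟨y, hy⟩, j⟩ hxy
  have hxy' : x + ((i : ℕ) : ℤ) = y + ((j : ℕ) : ℤ) := hxy
  obtain ⟨h1, h2⟩ := h.eq_of_add hx hy (by omega) (by omega) (by omega) (by omega) hxy'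
  subst h1
  have : i = j := Fin.ext (by omega)
  subst this
  rfl

open Classical in
/-- block permutations -/
noncomputable def Lam (L : ℕ) (R : Set ℤ) (h : Sep L R) : (R → Perm (Fin L)) →* Perm ℤ :=
  (Perm.extendDomainHom (Equiv.ofInjective (em L R) (em_inj h))).comp
    (Perm.sigmaCongrRightHom (fun _ : R => Fin L))

lemma Lam_apply {L : ℕ} {R : Set ℤ} (h : Sep L R) (σ : R → Perm (Fin L)) (p : R) (i : Fin L) :
    Lam L R h σ (p.1 + ((i : ℕ) : ℤ)) = p.1 + ((σ p i : ℕ) : ℤ) := by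
  classical
  have := Perm.extendDomain_apply_image
    (Perm.sigmaCongrRightHom (fun _ : R => Fin L) σ) (Equiv.ofInjective (em L R) (em_inj h))
    (⟨p, i⟩ : Σ _ : R, Fin L)
  exact this

lemma Lam_apply_not {L : ℕ} {R : Set ℤ} (h : Sep L R) (σ : R → Perm (Fin L)) (x : ℤ)
    (hx : ∀ p : R, ∀ i : Fin L, p.1 + ((i : ℕ) : ℤ) ≠ x) : Lam L R h σ x = x := by
  classical
  apply Perm.extendDomain_apply_not_subtype
  rintro ⟨⟨p, i⟩, hpi⟩
  exact hx p i hpi

open Classical in
/-- constant functions supported on `P` -/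
noncomputable def cst (L : ℕ) (R P : Set ℤ) : Perm (Fin L) →* (R → Perm (Fin L)) where
  toFun π p := if p.1 ∈ P then π else 1
  map_one' := by funext p; simp
  map_mul' π π' := by
    funext p
    simp only [Pi.mul_apply]
    split_ifs <;> simp

open Classical in
lemma cst_apply {L : ℕ} {R P : Set ℤ} (π : Perm (Fin L)) (p : R) :
    cst L R P π p = if p.1 ∈ P then π else 1 := rfl

/-- block permutation which is constant -/
noncomputable def LC (L : ℕ) (R : Set ℤ) (h : Sep L R) (P : Set ℤ) : Perm (Fin L) →* Perm ℤ :=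
  (Lam L R h).comp (cst L R P)

lemma LC_def {L : ℕ} {R : Set ℤ} (h : Sep L R) (P : Set ℤ) (π : Perm (Fin L)) :
    LC L R h P π = Lam L R h (cst L R P π) := rfl

lemma LC_apply {L : ℕ} {R P : Set ℤ} (h : Sep L R) (π : Perm (Fin L)) {p : ℤ} (hp : p ∈ R)
    (hp' : p ∈ P) (i : Fin L) :
    LC L R h P π (p + ((i : ℕ) : ℤ)) = p + ((π i : ℕ) : ℤ) := by
  have := Lam_apply h (cst L R P π) ⟨p, hp⟩ i
  rw [cst_apply, if_pos hp'] at this
  exact this

lemma LC_apply_not {L : ℕ} {R P : Set ℤ} (h : Sep L R) (π : Perm (Fin L)) {x : ℤ}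
    (hx : ∀ p ∈ R, p ∈ P → ∀ i : Fin L, p + ((i : ℕ) : ℤ) = x → π i = i) :
    LC L R h P π x = x := by
  by_cases hx' : ∀ p : R, ∀ i : Fin L, p.1 + ((i : ℕ) : ℤ) ≠ x
  · exact Lam_apply_not h _ x hx'
  · push Not at hx'
    obtain ⟨p, i, hpi⟩ := hx'
    have h1 := Lam_apply h (cst L R P π) p i
    rw [LC_def, ← hpi, h1, cst_apply]
    split_ifs with hP
    · rw [hx p.1 p.2 hP i hpi]
    · rfl

lemma LC_congr {L : ℕ} {R P P' : Set ℤ} (h : Sep L R) (π : Perm (Fin L))
    (hP : ∀ x ∈ R, x ∈ P ↔ x ∈ P') : LC L R h P π = LC L R h P' π := by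
  rw [LC_def, LC_def]
  congr 1
  funext p
  classical
  rw [cst_apply, cst_apply]
  exact if_congr (hP p.1 p.2) rfl rfl

lemma LC_empty {L : ℕ} {R P : Set ℤ} (h : Sep L R) (π : Perm (Fin L))
    (hP : ∀ x ∈ R, x ∉ P) : LC L R h P π = 1 := by
  rw [LC_def]
  have : cst L R P π = 1 := by
    funext p
    rw [cst_apply, if_neg (hP p.1 p.2)]
    rfl
  rw [this, map_one]

lemma LC_union {L : ℕ} {R P P' : Set ℤ} (h : Sep L R) (π : Perm (Fin L))
    (hP : ∀ x ∈ R, x ∈ P → x ∉ P') : LC L R h (P ∪ P') π = LC L R h P π * LC L R h P' π := by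
  rw [LC_def, LC_def, LC_def, ← map_mul]
  congr 1
  funext p
  rw [Pi.mul_apply, cst_apply, cst_apply, cst_apply]
  by_cases h1 : p.1 ∈ P
  · have h2 := hP p.1 p.2 h1
    have h3 : p.1 ∈ P ∪ P' := Or.inl h1
    rw [if_pos h3, if_pos h1, if_neg h2, mul_one]
  · by_cases h2 : p.1 ∈ P'
    · have h3 : p.1 ∈ P ∪ P' := Or.inr h2
      rw [if_pos h3, if_neg h1, if_pos h2, one_mul]
    · have h3 : p.1 ∉ P ∪ P' := by rintro (h | h) <;> contradiction
      rw [if_neg h3, if_neg h1, if_neg h2, one_mul]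

lemma LC_inter {L : ℕ} {R P P' : Set ℤ} (h : Sep L R) (π π' : Perm (Fin L)) :
    LC L R h (P ∩ P') ⁅π, π'⁆ = ⁅LC L R h P π, LC L R h P' π'⁆ := by
  rw [LC_def, LC_def, LC_def, ← map_commutatorElement]
  congr 1
  funext p
  have : ⁅cst L R P π, cst L R P' π'⁆ p = ⁅cst L R P π p, cst L R P' π' p⁆ := rfl
  rw [this, cst_apply, cst_apply, cst_apply]
  by_cases h1 : p.1 ∈ P
  · by_cases h2 : p.1 ∈ P'
    · have h3 : p.1 ∈ P ∩ P' := ⟨h1, h2⟩
      rw [if_pos h3, if_pos h1, if_pos h2]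
    · have h3 : p.1 ∉ P ∩ P' := fun h => h2 h.2
      rw [if_neg h3, if_pos h1, if_neg h2, commutatorElement_one_right]
  · have h3 : p.1 ∉ P ∩ P' := fun h => h1 h.1
    rw [if_neg h3, if_neg h1, commutatorElement_one_left]

lemma LC_conj {L : ℕ} {R P : Set ℤ} (h : Sep L R) (π π' : Perm (Fin L)) :
    LC L R h P (π * π' * π⁻¹) =
      LC L R h Set.univ π * LC L R h P π' * (LC L R h Set.univ π)⁻¹ := by
  rw [LC_def, LC_def, LC_def, ← map_inv, ← map_mul, ← map_mul]
  congr 1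
  funext p
  have : (cst L R Set.univ π * cst L R P π' * (cst L R Set.univ π)⁻¹) p
    = cst L R Set.univ π p * cst L R P π' p * (cst L R Set.univ π p)⁻¹ := rfl
  rw [this, cst_apply, cst_apply, cst_apply, if_pos (Set.mem_univ _)]
  split_ifs <;> simp

/-- the fundamental dichotomy -/
lemma LC_all {L : ℕ} {R P : Set ℤ} (h : Sep L R) (hL : 5 ≤ L) {H N : Subgroup (Perm ℤ)}
    (hN : ∀ n ∈ N, ∀ g ∈ H, g * n * g⁻¹ ∈ N)
    (hH : ∀ π ∈ alternatingGroup (Fin L), LC L R h Set.univ π ∈ H)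
    {π0 : Perm (Fin L)} (h0 : π0 ∈ alternatingGroup (Fin L)) (h1 : π0 ≠ 1)
    (h2 : LC L R h P π0 ∈ N) : ∀ π ∈ alternatingGroup (Fin L), LC L R h P π ∈ N := by
  have : IsSimpleGroup (alternatingGroup (Fin L)) := alternatingGroup.isSimpleGroup (by simpa using hL)
  set M : Subgroup (alternatingGroup (Fin L)) :=
    N.comap ((LC L R h P).comp (alternatingGroup (Fin L)).subtype) with hM
  have hMem : ∀ x : alternatingGroup (Fin L), x ∈ M ↔ LC L R h P x.1 ∈ N := fun x => Iff.rfl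
  have hnorm : M.Normal := by
    constructor
    intro n hn g
    rw [hMem] at hn ⊢
    change LC L R h P (g.1 * n.1 * g.1⁻¹) ∈ N
    rw [LC_conj]
    exact hN _ hn _ (hH g.1 g.2)
  rcases hnorm.eq_bot_or_eq_top with hb | ht
  · exfalso
    have : (⟨π0, h0⟩ : alternatingGroup (Fin L)) ∈ M := h2
    rw [hb, Subgroup.mem_bot] at this
    exact h1 (congrArg Subtype.val this)
  · intro π hπ
    have : (⟨π, hπ⟩ : alternatingGroup (Fin L)) ∈ M := by rw [ht]; trivial
    exact this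

/-- connection with 3-cycles -/
lemma LC_s3 {L : ℕ} {R P : Set ℤ} (h : Sep L R) {j : ℕ} (hj : j + 2 < L) {S : Set ℤ} (hS : S3 S)
    (hSP : ∀ x, x ∈ S ↔ x - j ∈ R ∧ x - j ∈ P) : LC L R h P (s3 L j) = tc S hS := by
  ext x
  by_cases h0 : x ∈ S
  · have h0' := (hSP x).mp h0
    have e : x = (x - j) + (((⟨j, by omega⟩ : Fin L) : ℕ) : ℤ) := by simp
    rw [tc_apply0 hS h0]
    rw [e, LC_apply h _ h0'.1 h0'.2, s3_apply0 hj _ rfl]
    push_cast
    ring
  · by_cases h1 : x - 1 ∈ S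
    · have h1' := (hSP (x - 1)).mp h1
      have e : x = (x - 1 - j) + (((⟨j + 1, by omega⟩ : Fin L) : ℕ) : ℤ) := by simp; ring
      rw [tc_apply1 hS h1]
      rw [e, LC_apply h _ h1'.1 h1'.2, s3_apply1 hj _ rfl]
      push_cast
      ring
    · by_cases h2 : x - 2 ∈ S
      · have h2' := (hSP (x - 2)).mp h2
        have e : x = (x - 2 - j) + (((⟨j + 2, by omega⟩ : Fin L) : ℕ) : ℤ) := by simp; ring
        rw [tc_apply2 hS h2]
        rw [e, LC_apply h _ h2'.1 h2'.2, s3_apply2 hj _ rfl]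
        push_cast
        ring
      · rw [tc_apply_not hS h0 h1 h2]
        apply LC_apply_not
        intro p hp hp' i hi
        apply s3_apply_not hj
        · intro hij
          apply h0
          rw [hSP]
          have : x - j = p := by omega
          rw [this]; exact ⟨hp, hp'⟩
        · intro hij
          apply h1
          rw [hSP]
          have : x - 1 - j = p := by omega
          rw [this]; exact ⟨hp, hp'⟩
        · intro hij
          apply h2
          rw [hSP]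
          have : x - 2 - j = p := by omega
          rw [this]; exact ⟨hp, hp'⟩

end Pool.Agent.Helper94.Liou
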