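import Pool.Agent.Helper94.Liou.Path

/-!
# The energy bound
-/

set_option autoImplicit false

namespace Pool.Agent.Helper94.Liou

open Filter Topology Finset Equiv

lemma E2_sh (d e : ℤ) (F : bd (ℤ × ℤ)) :
    E2 (cmp (fun x : ℤ × ℤ => (x.1 + d, x.2 + e)) F) = E2 F := by
  have := E2_shift d e F
  rw [← this]
  rfl

lemma E2_sh' (e : ℤ) (F : bd (ℤ × ℤ)) :
    E2 (cmp (fun x : ℤ × ℤ => (x.1, x.2 + e)) F) = E2 F := by
  have := E2_sh 0 e F
  rw [← this]
  congr 1
  apply Subtype.ext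
  funext x
  simp

lemma Dir_nonneg (F : bd (ℤ × ℤ)) : 0 ≤ Dir F := by
  rw [Dir_eq]
  have := cK_pos
  exact mul_nonneg (by positivity) (Finset.sum_nonneg fun k _ => B_self_nonneg _)

lemma E2_eb_sq (F : bd (ℤ × ℤ)) : E2 (eb F * eb F) ≤ 4 * cK ^ 2 * Dir F := by
  have h1 : E2 (eb F * eb F) ≤ E2 (cK • ∑ k : K, (T k F - F) * (T k F - F)) := by
    apply E2_mono
    intro x
    have e1 : (eb F * eb F).1 x = (∑ k : K, |F.1 (sg k x.1, sg k x.2) - F.1 x|) ^ 2 := by
      rw [sq, ← eb_apply]; rfl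
    have e2 : (cK • ∑ k : K, (T k F - F) * (T k F - F)).1 x
        = cK * ∑ k : K, (|F.1 (sg k x.1, sg k x.2) - F.1 x|) ^ 2 := by
      change cK * (∑ k : K, (T k F - F) * (T k F - F)).1 x = _
      rw [sum_bd_apply]
      congr 1
      apply Finset.sum_congr rfl
      intro k _
      rw [sq_abs, sq]
      rfl
    rw [e1, e2]
    exact sq_sum_le_card_mul_sum_sq
  refine h1.trans (le_of_eq ?_)
  rw [map_smul, map_sum, smul_eq_mul, Dir_eq]
  have := cK_pos
  change cK * ∑ k : K, B (T k F - F) (T k F - F) = _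
  field_simp

lemma E2_Eh_sq (F : bd (ℤ × ℤ)) : E2 (Eh F * Eh F) ≤ 9 * E2 (eb F * eb F) := by
  have h1 : E2 (Eh F * Eh F) ≤ E2 ((3 : ℝ) • (eb F * eb F
      + cmp (fun x : ℤ × ℤ => (x.1, x.2 + 1)) (eb F * eb F)
      + cmp (fun x : ℤ × ℤ => (x.1, x.2 + 2)) (eb F * eb F))) := by
    apply E2_mono
    rintro ⟨p, q⟩
    change ((eb F).1 (p, q) + (eb F).1 (p, q + 1) + (eb F).1 (p, q + 2)) *
      ((eb F).1 (p, q) + (eb F).1 (p, q + 1) + (eb F).1 (p, q + 2)) ≤
      3 * ((eb F).1 (p, q) * (eb F).1 (p, q) + (eb F).1 (p, q + 1) * (eb F).1 (p, q + 1) +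
        (eb F).1 (p, q + 2) * (eb F).1 (p, q + 2))
    nlinarith [sq_nonneg ((eb F).1 (p, q) - (eb F).1 (p, q + 1)),
      sq_nonneg ((eb F).1 (p, q) - (eb F).1 (p, q + 2)),
      sq_nonneg ((eb F).1 (p, q + 1) - (eb F).1 (p, q + 2))]
  rw [map_smul, map_add, map_add, E2_sh', E2_sh', smul_eq_mul] at h1
  linarith

lemma ag_true {n : ℕ} {p q : ℤ} (h : AgrR n p q) : (ag n).1 (p, q) = 1 :=
  ind_true (P := fun x : ℤ × ℤ => AgrR n x.1 x.2) (x := (p, q)) h

lemma ag_false {n : ℕ} {p q : ℤ} (h : ¬ AgrR n p q) : (ag n).1 (p, q) = 0 :=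
  ind_false (P := fun x : ℤ × ℤ => AgrR n x.1 x.2) (x := (p, q)) h

lemma E2_ag {n : ℕ} (hn : 1 ≤ n) : E2 (ag n) ≤ 420 / (n : ℝ) ^ 4 := by
  obtain ⟨M, hM, hnM, hc⟩ := w_coll n hn
  have h1 : E2 (ag n) ≤ E2 (ind (fun x : ℤ × ℤ => (M : ℤ) ∣ x.1 - x.2)) := by
    apply E2_mono
    rintro ⟨p, q⟩
    by_cases h : AgrR n p q
    · rw [ind_true (P := fun x : ℤ × ℤ => (M : ℤ) ∣ x.1 - x.2) (x := (p, q)) (hc _ _ h)]
      exact ind_le_one _ _
    · rw [ag_false h]
      exact ind_nonneg _ _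
  rw [E2_dvd hM] at h1
  refine h1.trans ?_
  have hM' : (0 : ℝ) < M := by exact_mod_cast hM
  have hn' : (0 : ℝ) < n := by exact_mod_cast hn
  rw [div_le_div_iff₀ hM' (by positivity), one_mul]
  exact_mod_cast hnM

lemma ag_mul_self (n : ℕ) : ag n * ag n = ag n := by
  apply Subtype.ext
  funext x
  obtain ⟨p, q⟩ := x
  change (ag n).1 (p, q) * (ag n).1 (p, q) = (ag n).1 (p, q)
  by_cases h : AgrR n p q
  · rw [ag_true h]; norm_num
  · rw [ag_false h]; norm_num

/-- numerical bounds -/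
noncomputable def cn (n : ℕ) : ℝ := if n = 0 then 1 else 21 / (n : ℝ) ^ 2

lemma E2_ag_sqrt (n : ℕ) : Real.sqrt (E2 (ag n)) ≤ cn n := by
  unfold cn
  split_ifs with h
  · have : E2 (ag n) ≤ 1 := by
      rw [← E2_one]
      exact E2_mono fun x => ind_le_one _ _
    exact Real.sqrt_le_one.mpr this
  · have hn : 1 ≤ n := Nat.one_le_iff_ne_zero.mpr h
    have hn' : (0 : ℝ) < n := by exact_mod_cast hn
    rw [Real.sqrt_le_left (by positivity)]
    refine (E2_ag hn).trans ?_
    rw [div_pow, ← pow_mul]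
    norm_num
    gcongr
    norm_num

lemma sum_cn (L : ℕ) : ∑ n ∈ Finset.range L, cn n ≤ 43 := by
  have key : ∀ L : ℕ, 1 ≤ L → ∑ n ∈ Finset.range (L + 1), cn n ≤ 43 - 21 / (L : ℝ) := by
    intro L hL
    induction L, hL using Nat.le_induction with
    | base => norm_num [Finset.sum_range_succ, cn]
    | succ m hm ih =>
      rw [Finset.sum_range_succ]
      have hm' : (0 : ℝ) < m := by exact_mod_cast hm
      have : cn (m + 1) ≤ 21 / (m : ℝ) - 21 / ((m + 1 : ℕ) : ℝ) := by
        unfold cn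
        rw [if_neg (by omega)]
        push_cast
        rw [div_sub_div _ _ hm'.ne' (by positivity), div_le_div_iff₀ (by positivity) (by positivity)]
        nlinarith
      linarith
  rcases Nat.lt_or_ge L 2 with h | h
  · interval_cases L <;> norm_num [Finset.sum_range_succ, cn]
  · obtain ⟨m, rfl⟩ : ∃ m, L = m + 1 := ⟨L - 1, by omega⟩
    refine (key m (by omega)).trans ?_
    have : (0 : ℝ) ≤ 21 / m := by positivity
    linarith

/-- letter indicator -/
noncomputable def la (a : Alph) : bd ℤ := ind (fun x => w x = a)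

lemma la_true {a : Alph} {x : ℤ} (h : w x = a) : (la a).1 x = 1 :=
  ind_true (P := fun x : ℤ => w x = a) (x := x) h

lemma la_false {a : Alph} {x : ℤ} (h : w x ≠ a) : (la a).1 x = 0 :=
  ind_false (P := fun x : ℤ => w x = a) (x := x) h

lemma la_nonneg (a : Alph) (x : ℤ) : 0 ≤ (la a).1 x := ind_nonneg _ _

lemma E2_D (a : Alph) (F : bd (ℤ × ℤ)) :
    E2 (tens (la a) (la a) * Db F) ≤ 43 * Real.sqrt (E2 (Eh F * Eh F)) := by
  obtain ⟨C, hC⟩ := F.2
  set A := Real.sqrt (E2 (Eh F * Eh F)) with hA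
  have hA0 : 0 ≤ A := Real.sqrt_nonneg _
  have hEE : 0 ≤ E2 (Eh F * Eh F) := E2_nonneg fun x => mul_self_nonneg _
  have hDC : ∀ x, (Db F).1 x ≤ 2 * C := by
    rintro ⟨p, q⟩
    rw [Db_apply]
    have h1 := hC (p, q)
    have h2 := hC (p, q + 1)
    have h3 := abs_sub (F.1 (p, q)) (F.1 (p, q + 1))
    linarith
  have key : ∀ L : ℕ, 1 ≤ L → E2 (tens (la a) (la a) * Db F) ≤ 43 * A + (420 / (L : ℝ) ^ 4) * (2 * C) := by
    intro L hL
    have h1 : E2 (tens (la a) (la a) * Db F) ≤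
        E2 (∑ n ∈ Finset.range L, ag n * cmp (fun x : ℤ × ℤ => (x.1 + (n : ℤ), x.2 + (n : ℤ))) (Eh F)
          + (2 * C) • ag L) := by
      apply E2_mono
      rintro ⟨p, q⟩
      have e1 : (tens (la a) (la a) * Db F).1 (p, q) = (la a).1 p * (la a).1 q * (Db F).1 (p, q) := rfl
      have e2 : (∑ n ∈ Finset.range L, ag n * cmp (fun x : ℤ × ℤ => (x.1 + (n : ℤ), x.2 + (n : ℤ))) (Eh F)
          + (2 * C) • ag L).1 (p, q) = ∑ n ∈ Finset.range L, (ag n).1 (p, q) * (Eh F).1 (p + n, q + n)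
            + (2 * C) * (ag L).1 (p, q) := by
        change (∑ n ∈ Finset.range L, ag n * cmp (fun x : ℤ × ℤ => (x.1 + (n : ℤ), x.2 + (n : ℤ)))
          (Eh F)).1 (p, q) + (2 * C) * (ag L).1 (p, q) = _
        rw [sum_bd_apply]
        rfl
      rw [e1, e2]
      have hC0 : 0 ≤ C := (abs_nonneg _).trans (hC (p, q))
      have hag := ag_nonneg L (p, q)
      have hrhs : 0 ≤ ∑ n ∈ Finset.range L, (ag n).1 (p, q) * (Eh F).1 (p + n, q + n) :=
        Finset.sum_nonneg fun n _ => mul_nonneg (ag_nonneg _ _) (Eh_nonneg _ _)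
      by_cases hp : w p = a
      · by_cases hq : w q = a
        · rw [la_true hp, la_true hq, one_mul, one_mul]
          have hd := w_cls' (hp.trans hq.symm)
          refine (D_iter F hd L).trans ?_
          have := hDC (p + L, q + L)
          nlinarith [mul_le_mul_of_nonneg_left this hag]
        · rw [la_false hq, mul_zero, zero_mul]
          have : 0 ≤ 2 * C * (ag L).1 (p, q) := by positivity
          linarith
      · rw [la_false hp, zero_mul, zero_mul]
        have : 0 ≤ 2 * C * (ag L).1 (p, q) := by positivity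
        linarith
    refine h1.trans ?_
    rw [map_add, map_sum, map_smul, smul_eq_mul]
    apply add_le_add
    · calc ∑ n ∈ Finset.range L, E2 (ag n * cmp (fun x : ℤ × ℤ => (x.1 + (n : ℤ), x.2 + (n : ℤ))) (Eh F))
          ≤ ∑ n ∈ Finset.range L, cn n * A := by
            apply Finset.sum_le_sum
            intro n _
            have hcs := E2_cs (ag n) (cmp (fun x : ℤ × ℤ => (x.1 + (n : ℤ), x.2 + (n : ℤ))) (Eh F))
            have hE : cmp (fun x : ℤ × ℤ => (x.1 + (n : ℤ), x.2 + (n : ℤ))) (Eh F) *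
                cmp (fun x : ℤ × ℤ => (x.1 + (n : ℤ), x.2 + (n : ℤ))) (Eh F)
                = cmp (fun x : ℤ × ℤ => (x.1 + (n : ℤ), x.2 + (n : ℤ))) (Eh F * Eh F) := rfl
            rw [ag_mul_self, hE, E2_sh] at hcs
            have h2 := Real.abs_le_sqrt hcs
            have hag0 : 0 ≤ E2 (ag n) := E2_nonneg fun x => ag_nonneg _ _
            rw [Real.sqrt_mul hag0] at h2
            exact (le_abs_self _).trans (h2.trans (mul_le_mul_of_nonneg_right (E2_ag_sqrt n) hA0))
        _ = (∑ n ∈ Finset.range L, cn n) * A := by rw [Finset.sum_mul]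
        _ ≤ 43 * A := mul_le_mul_of_nonneg_right (sum_cn L) hA0
    · rw [mul_comm]
      have hC0 : 0 ≤ C := (abs_nonneg _).trans (hC (0, 0))
      exact mul_le_mul_of_nonneg_right (E2_ag hL) (by positivity)
  have hlim : Tendsto (fun L : ℕ => 43 * A + (420 / (L : ℝ) ^ 4) * (2 * C)) atTop
      (𝓝 (43 * A + 0 * (2 * C))) := by
    apply Tendsto.add tendsto_const_nhds
    apply Tendsto.mul_const
    apply Tendsto.div_atTop tendsto_const_nhds
    exact (tendsto_pow_atTop (by norm_num)).comp tendsto_natCast_atTop_atTop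
  rw [zero_mul, add_zero] at hlim
  exact ge_of_tendsto hlim (by filter_upwards [eventually_ge_atTop 1] with L hL using key L hL)

/-- the cocycle of a generator -/
noncomputable def dl (k : K) : bd ℤ :=
  ⟨fun x => ((sg k x - x : ℤ) : ℝ), 4, fun x => by
    have := sg_disp k x
    rw [← Int.cast_abs]
    exact_mod_cast this⟩

/-- coefficients -/
noncomputable def ec (b : Bool) : Fin 3 → ℝ := if b then ![1, 1, -2] else ![2, -1, -1]

lemma dl_eq (a : Alph) (b : Bool) : dl ((a, b) : Alph × Bool) =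
    ∑ i : Fin 3, ec b i • cmp (fun x : ℤ => x - (i : ℤ)) (la a) := by
  apply Subtype.ext
  funext x
  rw [sum_bd_apply, Fin.sum_univ_three]
  change ((sg ((a, b) : Alph × Bool) x - x : ℤ) : ℝ) = ec b 0 * (la a).1 (x - ((0 : Fin 3) : ℤ))
    + ec b 1 * (la a).1 (x - ((1 : Fin 3) : ℤ)) + ec b 2 * (la a).1 (x - ((2 : Fin 3) : ℤ))
  have f0 : ((0 : Fin 3) : ℤ) = 0 := rfl
  have f1 : ((1 : Fin 3) : ℤ) = 1 := rfl
  have f2 : ((2 : Fin 3) : ℤ) = 2 := rfl
  rw [f0, f1, f2, sub_zero]
  by_cases h0 : w x = a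
  · have h1 : w (x - 1) ≠ a := by
      intro h; have := w_cls' (h.trans h0.symm); omega
    have h2 : w (x - 2) ≠ a := by
      intro h; have := w_cls' (h.trans h0.symm); omega
    have z0 : (la a).1 x = 1 := la_true h0
    have z1 : (la a).1 (x - 1) = 0 := la_false h1
    have z2 : (la a).1 (x - 2) = 0 := la_false h2
    rw [z0, z1, z2]
    cases b
    · have : sg ((a, false) : Alph × Bool) x = x + 2 := γ_inv_apply0 h0
      rw [this]; simp [ec]
    · have : sg ((a, true) : Alph × Bool) x = x + 1 := γ_apply0 h0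
      rw [this]; simp [ec]
  · by_cases h1 : w (x - 1) = a
    · have h2 : w (x - 2) ≠ a := by
        intro h; have := w_cls' (h.trans h1.symm); omega
      have z0 : (la a).1 x = 0 := la_false h0
      have z1 : (la a).1 (x - 1) = 1 := la_true h1
      have z2 : (la a).1 (x - 2) = 0 := la_false h2
      rw [z0, z1, z2]
      cases b
      · have : sg ((a, false) : Alph × Bool) x = x - 1 := γ_inv_apply1 h1
        rw [this]; simp [ec]
      · have : sg ((a, true) : Alph × Bool) x = x + 1 := γ_apply1 h1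
        rw [this]; simp [ec]
    · by_cases h2 : w (x - 2) = a
      · have z0 : (la a).1 x = 0 := la_false h0
        have z1 : (la a).1 (x - 1) = 0 := la_false h1
        have z2 : (la a).1 (x - 2) = 1 := la_true h2
        rw [z0, z1, z2]
        cases b
        · have : sg ((a, false) : Alph × Bool) x = x - 1 := γ_inv_apply2 h2
          rw [this]; simp [ec]
        · have : sg ((a, true) : Alph × Bool) x = x - 2 := γ_apply2 h2
          rw [this]; simp [ec]
      · have z0 : (la a).1 x = 0 := la_false h0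
        have z1 : (la a).1 (x - 1) = 0 := la_false h1
        have z2 : (la a).1 (x - 2) = 0 := la_false h2
        rw [z0, z1, z2]
        cases b
        · have : sg ((a, false) : Alph × Bool) x = x := γ_inv_apply_not h0 h1 h2
          rw [this]; simp
        · have : sg ((a, true) : Alph × Bool) x = x := γ_apply_not h0 h1 h2
          rw [this]; simp

/-- the observable -/
noncomputable def V (k : K) : bd (ℤ × ℤ) := tens (dl k) (dl k)

lemma V_expand (a : Alph) (b : Bool) (F : bd (ℤ × ℤ)) :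
    B (V ((a, b) : Alph × Bool)) F = E2 (tens (la a) (la a) *
      ∑ i : Fin 3, ∑ j : Fin 3, (ec b i * ec b j) •
        cmp (fun x : ℤ × ℤ => (x.1 + (i : ℤ), x.2 + (j : ℤ))) F) := by
  have h1 : V ((a, b) : Alph × Bool) * F = ∑ i : Fin 3, ∑ j : Fin 3, (ec b i * ec b j) •
      (tens (cmp (fun x : ℤ => x - (i : ℤ)) (la a)) (cmp (fun x : ℤ => x - (j : ℤ)) (la a)) * F) := by
    rw [V, dl_eq, tens, map_sum, map_sum, Finset.sum_mul_sum, Finset.sum_mul]
    apply Finset.sum_congr rfl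
    intro i _
    rw [Finset.sum_mul]
    apply Finset.sum_congr rfl
    intro j _
    rw [map_smul, map_smul, smul_mul_smul_comm, Algebra.smul_mul_assoc]
    rfl
  rw [B, h1, Finset.mul_sum, map_sum, map_sum]
  apply Finset.sum_congr rfl
  intro i _
  rw [Finset.mul_sum, map_sum, map_sum]
  apply Finset.sum_congr rfl
  intro j _
  rw [Algebra.mul_smul_comm, map_smul, map_smul]
  congr 1
  rw [← E2_sh (i : ℤ) (j : ℤ), map_mul]
  congr 2
  apply Subtype.ext
  funext x
  simp

end Pool.Agent.Helper94.Liou
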