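import Pool.Agent.Helper94.Liou.Energy

/-!
# The energy bound, final form
-/

set_option autoImplicit false

namespace Pool.Agent.Helper94.Liou

open Filter Topology Finset Equiv

/-- total local error -/
noncomputable def Sb (F : bd (ℤ × ℤ)) : bd (ℤ × ℤ) :=
  ∑ i : Fin 3, ∑ j : Fin 3, cmp (fun x : ℤ × ℤ => (x.1 + (i : ℤ), x.2 + (j : ℤ))) (eb F)

lemma Sb_apply (F : bd (ℤ × ℤ)) (p q : ℤ) :
    (Sb F).1 (p, q) = ∑ i : Fin 3, ∑ j : Fin 3, (eb F).1 (p + (i : ℤ), q + (j : ℤ)) := by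
  rw [Sb, sum_bd_apply]
  apply Finset.sum_congr rfl
  intro i _
  rw [sum_bd_apply]
  rfl

lemma E2_Sb (F : bd (ℤ × ℤ)) : E2 (Sb F) = 9 * E2 (eb F) := by
  rw [Sb, map_sum]
  simp only [map_sum, E2_sh]
  simp
  ring

lemma E2_eb (F : bd (ℤ × ℤ)) : E2 (eb F) ≤ Real.sqrt (E2 (eb F * eb F)) := by
  have h := E2_cs 1 (eb F)
  rw [one_mul, one_mul, E2_one, one_mul] at h
  exact (le_abs_self _).trans (Real.abs_le_sqrt h)

lemma V_bound (k : K) (F : bd (ℤ × ℤ)) :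
    |B (V k) F| ≤ 36 * 138 * Real.sqrt (E2 (eb F * eb F)) := by
  obtain ⟨a, b⟩ := k
  rw [V_expand]
  set A := Real.sqrt (E2 (eb F * eb F)) with hA
  have hA0 : 0 ≤ A := Real.sqrt_nonneg _
  have h1 := abs_E2_le (tens (la a) (la a) *
      ∑ i : Fin 3, ∑ j : Fin 3, (ec b i * ec b j) •
        cmp (fun x : ℤ × ℤ => (x.1 + (i : ℤ), x.2 + (j : ℤ))) F)
  have h2 : E2 (absb (tens (la a) (la a) *
      ∑ i : Fin 3, ∑ j : Fin 3, (ec b i * ec b j) •
        cmp (fun x : ℤ × ℤ => (x.1 + (i : ℤ), x.2 + (j : ℤ))) F)) ≤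
      E2 ((36 : ℝ) • (tens (la a) (la a) * Db F + Sb F)) := by
    apply E2_mono
    rintro ⟨p, q⟩
    have e1 : (∑ i : Fin 3, ∑ j : Fin 3, (ec b i * ec b j) •
        cmp (fun x : ℤ × ℤ => (x.1 + (i : ℤ), x.2 + (j : ℤ))) F).1 (p, q)
        = ∑ i : Fin 3, ∑ j : Fin 3, (ec b i * ec b j) * F.1 (p + (i : ℤ), q + (j : ℤ)) := by
      rw [sum_bd_apply]
      apply Finset.sum_congr rfl
      intro i _
      rw [sum_bd_apply]
      rfl
    have e2 : (absb (tens (la a) (la a) *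
      ∑ i : Fin 3, ∑ j : Fin 3, (ec b i * ec b j) •
        cmp (fun x : ℤ × ℤ => (x.1 + (i : ℤ), x.2 + (j : ℤ))) F)).1 (p, q)
        = |(la a).1 p * (la a).1 q * (∑ i : Fin 3, ∑ j : Fin 3, (ec b i * ec b j) •
        cmp (fun x : ℤ × ℤ => (x.1 + (i : ℤ), x.2 + (j : ℤ))) F).1 (p, q)| := rfl
    have e3 : ((36 : ℝ) • (tens (la a) (la a) * Db F + Sb F)).1 (p, q)
        = 36 * ((la a).1 p * (la a).1 q * (Db F).1 (p, q) + (Sb F).1 (p, q)) := rfl
    rw [e2, e3, e1, Sb_apply, Db_apply]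
    have hS : 0 ≤ ∑ i : Fin 3, ∑ j : Fin 3, (eb F).1 (p + (i : ℤ), q + (j : ℤ)) :=
      Finset.sum_nonneg fun i _ => Finset.sum_nonneg fun j _ => eb_nonneg _ _
    by_cases hp : w p = a
    · by_cases hq : w q = a
      · rw [la_true hp, la_true hq, one_mul, one_mul, one_mul]
        exact box_bound F (hp.trans hq.symm) b
      · rw [la_false hq, mul_zero, zero_mul, abs_zero, zero_mul]
        linarith
    · rw [la_false hp, zero_mul, zero_mul, abs_zero, zero_mul]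
      linarith
  rw [map_smul, map_add, E2_Sb, smul_eq_mul] at h2
  have h3 := E2_D a F
  have h4 := E2_eb F
  have h5 : Real.sqrt (E2 (Eh F * Eh F)) ≤ 3 * A := by
    rw [Real.sqrt_le_left (by positivity)]
    refine (E2_Eh_sq F).trans ?_
    rw [mul_pow, hA, Real.sq_sqrt (E2_nonneg fun x => mul_self_nonneg _)]
    norm_num
  rw [← hA] at h4
  linarith

/-- the energy constant -/
noncomputable def κ0 : ℝ := (36 * 138) ^ 2 * (4 * cK ^ 2)

lemma κ0_nonneg : 0 ≤ κ0 := by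
  unfold κ0
  have := cK_pos
  positivity

lemma V_energy (k : K) (F : bd (ℤ × ℤ)) : B (V k) F ^ 2 ≤ κ0 * Dir F := by
  have h1 := V_bound k F
  have hEE : 0 ≤ E2 (eb F * eb F) := E2_nonneg fun x => mul_self_nonneg _
  have h2 : B (V k) F ^ 2 ≤ (36 * 138 * Real.sqrt (E2 (eb F * eb F))) ^ 2 := by
    rw [← sq_abs]
    exact pow_le_pow_left₀ (abs_nonneg _) h1 2
  rw [mul_pow, Real.sq_sqrt hEE] at h2
  refine h2.trans ?_
  have h3 := mul_le_mul_of_nonneg_left (E2_eb_sq F) (by norm_num : (0 : ℝ) ≤ (36 * 138) ^ 2)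
  refine h3.trans (le_of_eq ?_)
  unfold κ0
  ring

lemma V_sum (k : K) (t : ℕ) : ∑ i ∈ Finset.range t, B (V k) ((P2 ^ i) (V k)) ≤ κ0 :=
  energy_sum κ0_nonneg (V_energy k) t

end Pool.Agent.Helper94.Liou
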