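import Pool.Agent.Helper94.Liou.Seq

/-!
# The group: local 3-cycles
-/

set_option autoImplicit false

namespace Pool.Agent.Helper94.Liou

open Equiv

lemma papply_inv {α : Type*} (g : Perm α) (x : α) : g (g⁻¹ x) = x := by simp

lemma pinv_apply {α : Type*} (g : Perm α) (x : α) : g⁻¹ (g x) = x := by simp

/-- `P` is 3-separated. -/
def S3 (P : Set ℤ) : Prop := ∀ x, x ∈ P → x + 1 ∉ P ∧ x + 2 ∉ P

open Classical in
/-- the 3-cycle `x → x+1 → x+2 → x`, `x ∈ P`. -/
noncomputable def tc (P : Set ℤ) (hP : S3 P) : Perm ℤ where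
  toFun x := if x ∈ P then x + 1 else if x - 1 ∈ P then x + 1 else if x - 2 ∈ P then x - 2 else x
  invFun x := if x ∈ P then x + 2 else if x - 1 ∈ P then x - 1 else if x - 2 ∈ P then x - 1 else x
  left_inv x := by
    have h1 := hP x
    have h2 := hP (x - 1)
    have h3 := hP (x - 2)
    have h4 := hP (x + 1)
    have e1 : x - 1 + 1 = x := by ring
    have e2 : x - 2 + 2 = x := by ring
    have e3 : x - 2 + 1 = x - 1 := by ring
    have e4 : x - 1 + 2 = x + 1 := by ring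
    have e5 : x + 1 - 1 = x := by ring
    have e6 : x + 1 - 2 = x - 1 := by ring
    rw [e1, e4] at h2
    rw [e2, e3] at h3
    by_cases a : x ∈ P
    · simp [a, h1 a]
    · by_cases b : x - 1 ∈ P
      · simp [a, b, h2 b, e5, e6]
      · by_cases c : x - 2 ∈ P
        · simp [a, b, c]
        · simp [a, b, c]
  right_inv x := by
    have h1 := hP x
    have h2 := hP (x - 1)
    have h3 := hP (x - 2)
    have h4 := hP (x + 1)
    have e1 : x - 1 + 1 = x := by ring
    have e2 : x - 2 + 2 = x := by ring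
    have e3 : x - 2 + 1 = x - 1 := by ring
    have e4 : x - 1 + 2 = x + 1 := by ring
    have e5 : x - 1 - 1 = x - 2 := by ring
    have e7 : x + 2 - 1 = x + 1 := by ring
    have e8 : x + 2 - 2 = x := by ring
    rw [e1, e4] at h2
    rw [e2, e3] at h3
    by_cases a : x ∈ P
    · simp [a, h1 a, e7]
    · by_cases b : x - 1 ∈ P
      · simp [a, b]
      · by_cases c : x - 2 ∈ P
        · simp [a, b, c, e5]
        · simp [a, b, c]

lemma tc_apply0 {P : Set ℤ} (hP : S3 P) {x : ℤ} (hx : x ∈ P) : tc P hP x = x + 1 := by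
  simp [tc, hx]

lemma tc_apply1 {P : Set ℤ} (hP : S3 P) {x : ℤ} (hx : x - 1 ∈ P) : tc P hP x = x + 1 := by
  simp [tc, hx]

lemma tc_apply2 {P : Set ℤ} (hP : S3 P) {x : ℤ} (hx : x - 2 ∈ P) : tc P hP x = x - 2 := by
  have h := hP _ hx
  have e3 : x - 2 + 1 = x - 1 := by ring
  have e2 : x - 2 + 2 = x := by ring
  rw [e2, e3] at h
  simp [tc, hx, h]

lemma tc_apply_not {P : Set ℤ} (hP : S3 P) {x : ℤ} (h0 : x ∉ P) (h1 : x - 1 ∉ P) (h2 : x - 2 ∉ P) :
    tc P hP x = x := by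
  simp [tc, h0, h1, h2]

lemma tc_inv_apply0 {P : Set ℤ} (hP : S3 P) {x : ℤ} (hx : x ∈ P) : (tc P hP)⁻¹ x = x + 2 := by
  rw [Perm.inv_eq_iff_eq, tc_apply2 hP (by simpa using hx)]; ring

lemma tc_inv_apply1 {P : Set ℤ} (hP : S3 P) {x : ℤ} (hx : x - 1 ∈ P) :
    (tc P hP)⁻¹ x = x - 1 := by
  rw [Perm.inv_eq_iff_eq, tc_apply0 hP hx]; ring

lemma tc_inv_apply2 {P : Set ℤ} (hP : S3 P) {x : ℤ} (hx : x - 2 ∈ P) :
    (tc P hP)⁻¹ x = x - 1 := by
  rw [Perm.inv_eq_iff_eq, tc_apply1 hP (by have : x - 1 - 1 = x - 2 := by ring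
                                           rw [this]; exact hx)]; ring

lemma tc_inv_apply_not {P : Set ℤ} (hP : S3 P) {x : ℤ} (h0 : x ∉ P) (h1 : x - 1 ∉ P)
    (h2 : x - 2 ∉ P) : (tc P hP)⁻¹ x = x := by
  rw [Perm.inv_eq_iff_eq, tc_apply_not hP h0 h1 h2]

lemma S3_letter (a : Alph) : S3 {x | w x = a} := by
  intro x hx
  simp only [Set.mem_ofPred_eq] at hx ⊢
  constructor
  · intro h
    have := w_cls (h.trans hx.symm)
    push_cast at this
    have h' : (1 : ZMod 5) = 0 := by linear_combination this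
    exact absurd h' (by decide)
  · intro h
    have := w_cls (h.trans hx.symm)
    push_cast at this
    have h' : (2 : ZMod 5) = 0 := by linear_combination this
    exact absurd h' (by decide)

/-- the generators -/
noncomputable def γ (a : Alph) : Perm ℤ := tc {x | w x = a} (S3_letter a)

/-- the group -/
def G : Subgroup (Perm ℤ) := Subgroup.closure (Set.range γ)

lemma γ_mem (a : Alph) : γ a ∈ G := Subgroup.subset_closure ⟨a, rfl⟩

lemma γ_apply0 {a : Alph} {x : ℤ} (h : w x = a) : γ a x = x + 1 := tc_apply0 _ h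
lemma γ_apply1 {a : Alph} {x : ℤ} (h : w (x - 1) = a) : γ a x = x + 1 := tc_apply1 _ h
lemma γ_apply2 {a : Alph} {x : ℤ} (h : w (x - 2) = a) : γ a x = x - 2 := tc_apply2 _ h
lemma γ_apply_not {a : Alph} {x : ℤ} (h0 : w x ≠ a) (h1 : w (x - 1) ≠ a) (h2 : w (x - 2) ≠ a) :
    γ a x = x := tc_apply_not _ h0 h1 h2
lemma γ_inv_apply0 {a : Alph} {x : ℤ} (h : w x = a) : (γ a)⁻¹ x = x + 2 := tc_inv_apply0 _ h
lemma γ_inv_apply1 {a : Alph} {x : ℤ} (h : w (x - 1) = a) : (γ a)⁻¹ x = x - 1 :=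
  tc_inv_apply1 _ h
lemma γ_inv_apply2 {a : Alph} {x : ℤ} (h : w (x - 2) = a) : (γ a)⁻¹ x = x - 1 :=
  tc_inv_apply2 _ h
lemma γ_inv_apply_not {a : Alph} {x : ℤ} (h0 : w x ≠ a) (h1 : w (x - 1) ≠ a)
    (h2 : w (x - 2) ≠ a) : (γ a)⁻¹ x = x := tc_inv_apply_not _ h0 h1 h2

lemma Agr.mono {m n : ℕ} (h : m ≤ n) {p q : ℤ} (H : Agr n p q) : Agr m p q :=
  fun t ht => H t (by omega)

lemma Agr.shift {m n : ℕ} {p q d : ℤ} (hd : |d| ≤ m) (H : Agr (n + m) p q) :
    Agr n (p + d) (q + d) := by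
  intro t ht
  have := H (d + t) (by
    have := abs_add_le d t
    push_cast
    omega)
  rwa [← add_assoc, ← add_assoc] at this

lemma Agr.symm {n : ℕ} {p q : ℤ} (H : Agr n p q) : Agr n q p := fun t ht => (H t ht).symm

lemma Agr.refl (n : ℕ) (p : ℤ) : Agr n p p := fun _ _ => rfl

lemma Agr.trans {n : ℕ} {p q r : ℤ} (H : Agr n p q) (H' : Agr n q r) : Agr n p r :=
  fun t ht => (H t ht).trans (H' t ht)

/-- `R`-locality of a permutation -/
def Loc (R : ℕ) (g : Perm ℤ) : Prop :=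
  (∀ x, |g x - x| ≤ R) ∧ ∀ p q, Agr R p q → g p - p = g q - q

lemma Loc.mul {R S : ℕ} {g h : Perm ℤ} (hg : Loc R g) (hh : Loc S h) : Loc (R + S) (g * h) := by
  constructor
  · intro x
    have h1 := hg.1 (h x)
    have h2 := hh.1 x
    have h3 := abs_add_le (g (h x) - h x) (h x - x)
    have e : g (h x) - h x + (h x - x) = g (h x) - x := by ring
    rw [e] at h3
    rw [Perm.mul_apply]
    push_cast
    omega
  · intro p q H
    have h1 : h p - p = h q - q := hh.2 p q (H.mono (by omega))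
    have h2 : Agr R (p + (h p - p)) (q + (h p - p)) := H.shift (hh.1 p)
    have e1 : p + (h p - p) = h p := by ring
    have e2 : q + (h p - p) = h q := by rw [h1]; ring
    rw [e1, e2] at h2
    have h3 := hg.2 _ _ h2
    rw [Perm.mul_apply, Perm.mul_apply]
    omega

lemma Loc.inv {R : ℕ} {g : Perm ℤ} (hg : Loc R g) : Loc (R + R) g⁻¹ := by
  have hd : ∀ x, |g⁻¹ x - x| ≤ R := by
    intro x
    have := hg.1 (g⁻¹ x)
    rw [papply_inv, abs_sub_comm] at this
    exact this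
  constructor
  · intro x
    have := hd x
    push_cast
    omega
  · intro p q H
    set d := g⁻¹ p - p with hdd
    have h1 : Agr R (p + d) (q + d) := H.shift (hd p)
    have e1 : p + d = g⁻¹ p := by rw [hdd]; ring
    have h2 := hg.2 _ _ h1
    rw [e1, papply_inv] at h2
    have h3 : g (q + d) = q := by omega
    have h4 : g⁻¹ q = q + d := by rw [Perm.inv_eq_iff_eq, h3]
    rw [h4]; ring

lemma Loc.one : Loc 0 (1 : Perm ℤ) := by
  constructor <;> simp

lemma Loc.γ (a : Alph) : Loc 2 (Liou.γ a) := by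
  constructor
  · intro x
    by_cases h0 : w x = a
    · rw [γ_apply0 h0]; norm_num
    · by_cases h1 : w (x - 1) = a
      · rw [γ_apply1 h1]; norm_num
      · by_cases h2 : w (x - 2) = a
        · rw [γ_apply2 h2]; norm_num
        · rw [γ_apply_not h0 h1 h2]; norm_num
  · intro p q H
    have e0 : w p = w q := by simpa using H 0 (by norm_num)
    have e1 : w (p - 1) = w (q - 1) := H (-1) (by norm_num)
    have e2 : w (p - 2) = w (q - 2) := H (-2) (by norm_num)
    by_cases h0 : w p = a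
    · rw [γ_apply0 h0, γ_apply0 (e0 ▸ h0)]; ring
    · by_cases h1 : w (p - 1) = a
      · rw [γ_apply1 h1, γ_apply1 (e1 ▸ h1)]; ring
      · by_cases h2 : w (p - 2) = a
        · rw [γ_apply2 h2, γ_apply2 (e2 ▸ h2)]; ring
        · rw [γ_apply_not h0 h1 h2, γ_apply_not (e0 ▸ h0) (e1 ▸ h1) (e2 ▸ h2)]; ring

lemma G_loc {g : Perm ℤ} (hg : g ∈ G) : ∃ R : ℕ, Loc R g := by
  induction hg using Subgroup.closure_induction with
  | mem x hx =>
    obtain ⟨a, rfl⟩ := hx
    exact ⟨2, Loc.γ a⟩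
  | one => exact ⟨0, Loc.one⟩
  | mul x y _ _ hx hy =>
    obtain ⟨R, hR⟩ := hx
    obtain ⟨S, hS⟩ := hy
    exact ⟨R + S, hR.mul hS⟩
  | inv x _ hx =>
    obtain ⟨R, hR⟩ := hx
    exact ⟨R + R, hR.inv⟩

end Pool.Agent.Helper94.Liou
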