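import Pool.Agent.Helper94.Liou.Energy2

/-!
# The harmonic functions
-/

set_option autoImplicit false

namespace Pool.Agent.Helper94.Liou

open Filter Topology Finset Equiv

/-- generators as elements of `G` -/
noncomputable def sG (k : K) : G := ⟨sg k, sg_mem k⟩

lemma sG_kinv (k : K) : sG (kinv k) = (sG k)⁻¹ := by
  apply Subtype.ext
  exact sg_kinv k

/-- the displacement cocycle -/
noncomputable def dg (g : G) : bd ℤ :=
  ⟨fun x => ((g.1 x - x : ℤ) : ℝ), by
    obtain ⟨R, hR⟩ := G_loc g.2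
    refine ⟨R, fun x => ?_⟩
    have := hR.1 x
    rw [← Int.cast_abs]
    exact_mod_cast this⟩

lemma dg_apply (g : G) (x : ℤ) : (dg g).1 x = ((g.1 x - x : ℤ) : ℝ) := rfl

lemma dg_sG (k : K) : dg (sG k) = dl k := rfl

/-- composition with a group element -/
noncomputable def cg (g : G) : bd ℤ →ₐ[ℝ] bd ℤ := cmp g.1

/-- composition with a group element on pairs -/
noncomputable def cg2 (g : G) : bd (ℤ × ℤ) →ₐ[ℝ] bd (ℤ × ℤ) := cmp (Equiv.prodCongr g.1 g.1)

lemma dg_mul (s g : G) : dg (s * g) = cg g (dg s) + dg g := by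
  apply Subtype.ext
  funext x
  change ((s.1 (g.1 x) - x : ℤ) : ℝ) = ((s.1 (g.1 x) - g.1 x : ℤ) : ℝ) + ((g.1 x - x : ℤ) : ℝ)
  push_cast
  ring

lemma dg_one : dg 1 = 0 := by
  apply Subtype.ext
  funext x
  change (((1 : Perm ℤ) x - x : ℤ) : ℝ) = 0
  simp

/-- the sum of all generator displacements vanishes -/
lemma sum_dl : ∑ k : K, dl k = 0 := by
  apply Subtype.ext
  funext x
  rw [sum_bd_apply]
  have hs : ∑ k : K, (dl k).1 x = ∑ a : Alph, ((dl (kp a)).1 x + (dl (kn a)).1 x) := by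
    have h1 := Fintype.sum_prod_type (f := fun k : Alph × Bool => (dl (k : K)).1 x)
    simp only [Fintype.sum_bool] at h1
    have h2 : ∑ k : K, (dl k).1 x = ∑ k : Alph × Bool, (dl (k : K)).1 x := by
      exact Fintype.sum_equiv (⟨fun k => k, fun k => k, fun _ => rfl, fun _ => rfl⟩ :
        K ≃ (Alph × Bool)) _ _ (fun _ => rfl)
    rw [h2, h1]
    rfl
  rw [hs]
  have h01 : w x ≠ w (x - 1) := by intro h; have := w_cls' h; omega
  have h02 : w x ≠ w (x - 2) := by intro h; have := w_cls' h; omega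
  have h12 : w (x - 1) ≠ w (x - 2) := by intro h; have := w_cls' h; omega
  have hval : ∀ a : Alph, (dl (kp a)).1 x + (dl (kn a)).1 x =
      (if a = w x then 3 else 0) + ((if a = w (x - 1) then 0 else 0) +
        (if a = w (x - 2) then (-3) else 0)) := by
    intro a
    change ((sg (kp a) x - x : ℤ) : ℝ) + ((sg (kn a) x - x : ℤ) : ℝ) = _
    rw [sg_kp, sg_kn]
    by_cases h0 : w x = a
    · rw [γ_apply0 h0, γ_inv_apply0 h0]
      subst h0
      simp [h02]
      norm_num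
    · by_cases h1 : w (x - 1) = a
      · rw [γ_apply1 h1, γ_inv_apply1 h1]
        subst h1
        simp [h12, Ne.symm h01]
      · by_cases h2 : w (x - 2) = a
        · rw [γ_apply2 h2, γ_inv_apply2 h2]
          subst h2
          simp [Ne.symm h02]
          norm_num
        · rw [γ_apply_not h0 h1 h2, γ_inv_apply_not h0 h1 h2]
          simp [Ne.symm h0, Ne.symm h2]
  simp only [hval]
  rw [Finset.sum_add_distrib, Finset.sum_add_distrib]
  simp

/-- the averaging operator on the group (right multiplication) -/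
noncomputable def R : (G → ℝ) →ₗ[ℝ] (G → ℝ) where
  toFun f g := (1 / 2) * f g + (1 / (2 * cK)) * ∑ k : K, f (g * sG k)
  map_add' f f' := by
    funext g
    simp only [Pi.add_apply, Finset.sum_add_distrib]
    ring
  map_smul' r f := by
    funext g
    simp only [Pi.smul_apply, smul_eq_mul, RingHom.id_apply, ← Finset.mul_sum]
    ring

lemma R_apply (f : G → ℝ) (g : G) :
    R f g = (1 / 2) * f g + (1 / (2 * cK)) * ∑ k : K, f (g * sG k) := rfl

lemma R_mono {f f' : G → ℝ} (h : ∀ g, f g ≤ f' g) (g : G) : R f g ≤ R f' g := by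
  rw [R_apply, R_apply]
  have := cK_pos
  have h1 : ∑ k : K, f (g * sG k) ≤ ∑ k : K, f' (g * sG k) := Finset.sum_le_sum fun k _ => h _
  have h2 := mul_le_mul_of_nonneg_left h1 (by positivity : (0 : ℝ) ≤ 1 / (2 * cK))
  have h3 := h g
  linarith

lemma R_const (c : ℝ) : R (fun _ => c) = fun _ => c := by
  funext g
  rw [R_apply, Finset.sum_const, nsmul_eq_mul, Finset.card_univ]
  have := cK_pos
  change 1 / 2 * c + 1 / (2 * cK) * (cK * c) = c
  field_simp
  ring

lemma Rpow_mono (n : ℕ) {f f' : G → ℝ} (h : ∀ g, f g ≤ f' g) (g : G) :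
    (R ^ n) f g ≤ (R ^ n) f' g := by
  induction n generalizing f f' g with
  | zero => simpa using h g
  | succ n ih =>
    rw [pow_succ, Module.End.mul_apply, Module.End.mul_apply]
    exact ih (R_mono h) g

lemma Rpow_const (n : ℕ) (c : ℝ) : (R ^ n) (fun _ => c) = fun _ => c := by
  induction n with
  | zero => simp
  | succ n ih => rw [pow_succ, Module.End.mul_apply, R_const, ih]

lemma Rpow_fix (n : ℕ) {f : G → ℝ} (h : R f = f) : (R ^ n) f = f := by
  induction n with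
  | zero => simp
  | succ n ih => rw [pow_succ, Module.End.mul_apply, h, ih]

lemma Rpow_abs (n : ℕ) {f f' : G → ℝ} (h : ∀ g, |f g| ≤ f' g) (g : G) :
    |(R ^ n) f g| ≤ (R ^ n) f' g := by
  rw [abs_le]
  constructor
  · have h1 := Rpow_mono n (f := -f') (f' := f) (fun g => by
      have := (abs_le.mp (h g)).1
      exact this) g
    rw [map_neg] at h1
    exact h1
  · exact Rpow_mono n (fun g => (abs_le.mp (h g)).2) g

/-- the unbounded harmonic function -/
noncomputable def Φ (g : G) : ℝ := E1 (dl (kp (w 1)) * dg g⁻¹)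

lemma sum_kinv_dg (g : G) : ∑ k : K, dg (g * sG k)⁻¹ = cK • dg g⁻¹ := by
  have h1 : ∀ k : K, dg (g * sG k)⁻¹ = cg g⁻¹ (dl (kinv k)) + dg g⁻¹ := by
    intro k
    rw [mul_inv_rev, ← sG_kinv, dg_mul, dg_sG]
  simp only [h1]
  rw [Finset.sum_add_distrib, ← map_sum, Equiv.sum_comp kinv dl, sum_dl, map_zero, zero_add,
    Finset.sum_const, Finset.card_univ, ← Nat.cast_smul_eq_nsmul ℝ]
  rfl

lemma Φ_harm : R Φ = Φ := by
  funext g
  rw [R_apply]
  have h1 : ∑ k : K, Φ (g * sG k) = cK * Φ g := by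
    unfold Φ
    rw [← map_sum, ← Finset.mul_sum, sum_kinv_dg, Algebra.mul_smul_comm, map_smul, smul_eq_mul]
  rw [h1]
  have := cK_pos
  field_simp
  ring

lemma Φ_one : Φ 1 = 0 := by
  unfold Φ
  rw [inv_one, dg_one, mul_zero, map_zero]

/-- `F ↦ (g ↦ ⟨Z, F ∘ (g⁻¹ × g⁻¹)⟩)` -/
noncomputable def W (F : bd (ℤ × ℤ)) (g : G) : ℝ := E2 (V (kp (w 1)) * cg2 g⁻¹ F)

lemma cg2_mul (s g : G) (F : bd (ℤ × ℤ)) : cg2 (s * g) F = cg2 g (cg2 s F) := rfl

lemma cg2_sG (k : K) (F : bd (ℤ × ℤ)) : cg2 (sG k) F = T k F := rfl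

lemma R_W (F : bd (ℤ × ℤ)) : R (W F) = W (P2 F) := by
  funext g
  rw [R_apply]
  have h1 : ∑ k : K, W F (g * sG k) = E2 (V (kp (w 1)) * cg2 g⁻¹ (∑ k : K, T k F)) := by
    unfold W
    rw [← map_sum, ← Finset.mul_sum]
    congr 2
    have h1 : ∀ k : K, cg2 (g * sG k)⁻¹ F = cg2 g⁻¹ (T (kinv k) F) := by
      intro k
      rw [mul_inv_rev, ← sG_kinv, cg2_mul, cg2_sG]
    simp only [h1]
    rw [← map_sum, Equiv.sum_comp kinv (fun k => T k F)]
  rw [h1]
  unfold W
  rw [P2_apply, map_add, map_smul, map_smul, mul_add, map_add, Algebra.mul_smul_comm, map_smul,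
    Algebra.mul_smul_comm, map_smul, smul_eq_mul, smul_eq_mul]

/-- the source term -/
noncomputable def Q : bd (ℤ × ℤ) := (1 / (2 * cK)) • ∑ k : K, V k

lemma Φ_sq (g : G) : Φ g ^ 2 = E2 (V (kp (w 1)) * tens (dg g⁻¹) (dg g⁻¹)) := by
  have : V (kp (w 1)) * tens (dg g⁻¹) (dg g⁻¹)
      = tens (dl (kp (w 1)) * dg g⁻¹) (dl (kp (w 1)) * dg g⁻¹) := by
    apply Subtype.ext
    funext x
    change ((dl (kp (w 1))).1 x.1 * (dl (kp (w 1))).1 x.2) * ((dg g⁻¹).1 x.1 * (dg g⁻¹).1 x.2)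
      = ((dl (kp (w 1))).1 x.1 * (dg g⁻¹).1 x.1) * ((dl (kp (w 1))).1 x.2 * (dg g⁻¹).1 x.2)
    ring
  rw [this, E2_tens, sq]
  rfl

lemma tens_dg_mul (s g : G) : tens (dg (s * g)) (dg (s * g)) =
    cg2 g (tens (dg s) (dg s)) + tens (dg g) (dg g)
      + (tens (cg g (dg s)) (dg g) + tens (dg g) (cg g (dg s))) := by
  rw [dg_mul]
  apply Subtype.ext
  funext x
  change ((cg g (dg s)).1 x.1 + (dg g).1 x.1) * ((cg g (dg s)).1 x.2 + (dg g).1 x.2)
    = (cg g (dg s)).1 x.1 * (cg g (dg s)).1 x.2 + (dg g).1 x.1 * (dg g).1 x.2 +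
      ((cg g (dg s)).1 x.1 * (dg g).1 x.2 + (dg g).1 x.1 * (cg g (dg s)).1 x.2)
  ring

lemma tens_sum_left (f : K → bd ℤ) (h : bd ℤ) :
    ∑ k : K, tens (f k) h = tens (∑ k : K, f k) h := by
  unfold tens
  rw [map_sum, Finset.sum_mul]

lemma tens_sum_right (f : K → bd ℤ) (h : bd ℤ) :
    ∑ k : K, tens h (f k) = tens h (∑ k : K, f k) := by
  unfold tens
  rw [map_sum, Finset.mul_sum]

lemma sum_tens_dg (g : G) : ∑ k : K, tens (dg (g * sG k)⁻¹) (dg (g * sG k)⁻¹) =
    cg2 g⁻¹ (∑ k : K, V k) + cK • tens (dg g⁻¹) (dg g⁻¹) := by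
  have h1 : ∀ k : K, tens (dg (g * sG k)⁻¹) (dg (g * sG k)⁻¹) =
      cg2 g⁻¹ (V (kinv k)) + tens (dg g⁻¹) (dg g⁻¹)
      + (tens (cg g⁻¹ (dl (kinv k))) (dg g⁻¹) + tens (dg g⁻¹) (cg g⁻¹ (dl (kinv k)))) := by
    intro k
    rw [mul_inv_rev, ← sG_kinv, tens_dg_mul, dg_sG]
    rfl
  simp only [h1]
  have z1 : ∑ k : K, tens (cg g⁻¹ (dl (kinv k))) (dg g⁻¹) = 0 := by
    rw [tens_sum_left, ← map_sum, Equiv.sum_comp kinv dl, sum_dl, map_zero]
    unfold tens; rw [map_zero, zero_mul]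
  have z2 : ∑ k : K, tens (dg g⁻¹) (cg g⁻¹ (dl (kinv k))) = 0 := by
    rw [tens_sum_right, ← map_sum, Equiv.sum_comp kinv dl, sum_dl, map_zero]
    unfold tens; rw [map_zero, mul_zero]
  rw [Finset.sum_add_distrib, Finset.sum_add_distrib, Finset.sum_add_distrib, z1, z2, ← map_sum,
    Equiv.sum_comp kinv V, Finset.sum_const, Finset.card_univ, add_zero, add_zero,
    ← Nat.cast_smul_eq_nsmul ℝ]
  rfl

lemma R_Φsq : R (fun g => Φ g ^ 2) = (fun g => Φ g ^ 2) + W Q := by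
  funext g
  rw [R_apply, Pi.add_apply]
  simp only [Φ_sq]
  have h1 : ∑ k : K, E2 (V (kp (w 1)) * tens (dg (g * sG k)⁻¹) (dg (g * sG k)⁻¹))
      = E2 (V (kp (w 1)) * cg2 g⁻¹ (∑ k : K, V k))
        + cK * E2 (V (kp (w 1)) * tens (dg g⁻¹) (dg g⁻¹)) := by
    rw [← map_sum, ← Finset.mul_sum, sum_tens_dg, mul_add, map_add, Algebra.mul_smul_comm,
      map_smul, smul_eq_mul]
  rw [h1]
  have h2 : W Q g = (1 / (2 * cK)) * E2 (V (kp (w 1)) * cg2 g⁻¹ (∑ k : K, V k)) := by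
    unfold W Q
    rw [map_smul, Algebra.mul_smul_comm, map_smul, smul_eq_mul]
  rw [h2]
  have := cK_pos
  field_simp
  ring

lemma Rpow_Φsq (t : ℕ) : (R ^ t) (fun g => Φ g ^ 2) =
    (fun g => Φ g ^ 2) + ∑ i ∈ Finset.range t, W ((P2 ^ i) Q) := by
  induction t with
  | zero => simp
  | succ t ih =>
    rw [pow_succ', Module.End.mul_apply, ih, map_add, R_Φsq, map_sum, Finset.sum_range_succ',
      add_assoc]
    congr 1
    rw [add_comm]
    congr 1
    apply Finset.sum_congr rfl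
    intro i _
    rw [R_W, pow_succ', Module.End.mul_apply]

lemma Φ_var (t : ℕ) : (R ^ t) (fun g => Φ g ^ 2) 1 ≤ κ0 := by
  rw [Rpow_Φsq, Pi.add_apply, Φ_one, Finset.sum_apply]
  have h1 : ∀ i, W ((P2 ^ i) Q) 1 = (1 / (2 * cK)) * ∑ k : K, B (V (kp (w 1))) ((P2 ^ i) (V k)) := by
    intro i
    have : W ((P2 ^ i) Q) 1 = B (V (kp (w 1))) ((P2 ^ i) Q) := by
      unfold W B
      rw [inv_one]
      rfl
    rw [this, Q, map_smul, B_smul, map_sum, B_sum]
  simp only [h1]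
  rw [← Finset.mul_sum, Finset.sum_comm]
  have hc := cK_pos
  have h2 : ∀ k : K, ∑ i ∈ Finset.range t, B (V (kp (w 1))) ((P2 ^ i) (V k)) ≤ κ0 := by
    intro k
    have h3 : ∑ i ∈ Finset.range t, (2 * B (V (kp (w 1))) ((P2 ^ i) (V k))) ≤
        ∑ i ∈ Finset.range t, (B (V (kp (w 1))) ((P2 ^ i) (V (kp (w 1)))) +
          B (V k) ((P2 ^ i) (V k))) := Finset.sum_le_sum fun i _ => B_mixed i _ _
    rw [← Finset.mul_sum, Finset.sum_add_distrib] at h3
    have h4 := V_sum (kp (w 1)) t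
    have h5 := V_sum k t
    linarith
  have h3 : ∑ k : K, ∑ i ∈ Finset.range t, B (V (kp (w 1))) ((P2 ^ i) (V k)) ≤ cK * κ0 := by
    calc _ ≤ ∑ _k : K, κ0 := Finset.sum_le_sum fun k _ => h2 k
      _ = cK * κ0 := by rw [Finset.sum_const, nsmul_eq_mul, Finset.card_univ]; rfl
  have h4 := mul_le_mul_of_nonneg_left h3 (by positivity : (0 : ℝ) ≤ 1 / (2 * cK))
  have h5 : 1 / (2 * cK) * (cK * κ0) = κ0 / 2 := by field_simp
  have := κ0_nonneg
  have : (0 : ℝ) ^ 2 = 0 := by norm_num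
  linarith

/-- the distinguished point -/
noncomputable def gs : G := (sG (kp (w 1)))⁻¹

lemma Φ_gs : 1 / 420 ≤ Φ gs := by
  have h1 : Φ gs = E1 (dl (kp (w 1)) * dl (kp (w 1))) := by
    unfold Φ gs
    rw [inv_inv, dg_sG]
  rw [h1]
  have h2 := E1_dvd (M := 420) (by norm_num) 1
  have h3 : (1 : ℝ) / 420 = E1 (ind (fun x : ℤ => ((420 : ℕ) : ℤ) ∣ x - 1)) := by
    rw [h2]; norm_num
  rw [h3]
  apply E1_mono
  intro x
  by_cases hx : ((420 : ℕ) : ℤ) ∣ x - 1
  · rw [ind_true (P := fun x : ℤ => ((420 : ℕ) : ℤ) ∣ x - 1) hx]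
    obtain ⟨k, hk⟩ := hx
    have hx' : x = 1 + 420 * k := by push_cast at hk; omega
    have hw : w x = w 1 := by rw [hx']; exact w_dens k
    have h4 : (dl (kp (w 1))).1 x = 1 := by
      change ((sg (kp (w 1)) x - x : ℤ) : ℝ) = 1
      rw [sg_kp, γ_apply0 hw]
      push_cast
      ring
    change 1 ≤ (dl (kp (w 1))).1 x * (dl (kp (w 1))).1 x
    rw [h4]
    norm_num
  · rw [ind_false (P := fun x : ℤ => ((420 : ℕ) : ℤ) ∣ x - 1) hx]
    exact mul_self_nonneg _

lemma Φ_var_gs (t : ℕ) : (R ^ t) (fun g => Φ g ^ 2) gs ≤ 2 * cK * κ0 := by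
  have h1 := Φ_var (t + 1)
  rw [pow_succ', Module.End.mul_apply, R_apply] at h1
  have hnn : ∀ g, 0 ≤ (R ^ t) (fun g => Φ g ^ 2) g := by
    intro g
    have := Rpow_mono t (f := fun _ => 0) (f' := fun g => Φ g ^ 2) (fun g => sq_nonneg _) g
    rwa [Rpow_const] at this
  have hgs : gs = 1 * sG (kinv (kp (w 1))) := by rw [one_mul, sG_kinv]; rfl
  have h2 : (R ^ t) (fun g => Φ g ^ 2) gs ≤ ∑ k : K, (R ^ t) (fun g => Φ g ^ 2) (1 * sG k) := by
    rw [hgs]
    exact Finset.single_le_sum (f := fun k : K => (R ^ t) (fun g => Φ g ^ 2) (1 * sG k))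
      (fun k _ => hnn _) (Finset.mem_univ _)
  have hc := cK_pos
  have h3 := hnn 1
  have h4 : 1 / (2 * cK) * (R ^ t) (fun g => Φ g ^ 2) gs ≤
      1 / (2 * cK) * ∑ k : K, (R ^ t) (fun g => Φ g ^ 2) (1 * sG k) :=
    mul_le_mul_of_nonneg_left h2 (by positivity)
  have h5 : 1 / (2 * cK) * (R ^ t) (fun g => Φ g ^ 2) gs ≤ κ0 := by linarith
  rw [one_div, inv_mul_le_iff₀ (by positivity)] at h5
  linarith

/-- truncation -/
noncomputable def clip (M : ℝ) (x : ℝ) : ℝ := max (-M) (min M x)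

lemma clip_abs {M : ℝ} (hM : 0 < M) (x : ℝ) : |clip M x| ≤ M := by
  unfold clip
  rw [abs_le]
  constructor
  · exact le_max_left _ _
  · apply max_le
    · linarith
    · exact min_le_left _ _

lemma clip_sub {M : ℝ} (hM : 0 < M) (x : ℝ) : |clip M x - x| ≤ x ^ 2 / M := by
  unfold clip
  rcases le_total x (-M) with h1 | h1
  · rw [min_eq_right (by linarith), max_eq_left h1, le_div_iff₀ hM]
    rw [abs_of_nonneg (by linarith)]
    nlinarith
  · rcases le_total x M with h2 | h2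
    · rw [min_eq_right h2, max_eq_right h1, sub_self, abs_zero]
      positivity
    · rw [min_eq_left h2, max_eq_right (by linarith), le_div_iff₀ hM, abs_sub_comm]
      rw [abs_of_nonneg (by linarith)]
      nlinarith

/-- Cesaro averages of the truncation -/
noncomputable def FT (M : ℝ) (t : ℕ) (g : G) : ℝ :=
  ((t : ℝ) + 1)⁻¹ * ∑ j ∈ Finset.range (t + 1), (R ^ j) (fun g => clip M (Φ g)) g

lemma FT_abs {M : ℝ} (hM : 0 < M) (t : ℕ) (g : G) : |FT M t g| ≤ M := by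
  unfold FT
  have ht : (0 : ℝ) < (t : ℝ) + 1 := by positivity
  rw [abs_mul, abs_of_pos (inv_pos.mpr ht), inv_mul_le_iff₀ ht]
  calc |∑ j ∈ Finset.range (t + 1), (R ^ j) (fun g => clip M (Φ g)) g|
      ≤ ∑ j ∈ Finset.range (t + 1), |(R ^ j) (fun g => clip M (Φ g)) g| :=
        Finset.abs_sum_le_sum_abs _ _
    _ ≤ ∑ j ∈ Finset.range (t + 1), M := by
        apply Finset.sum_le_sum
        intro j _
        have := Rpow_abs j (f := fun g => clip M (Φ g)) (f' := fun _ => M)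
          (fun g => clip_abs hM _) g
        rwa [Rpow_const] at this
    _ = ((t : ℝ) + 1) * M := by simp

lemma FT_close {M : ℝ} (hM : 0 < M) (t : ℕ) (g : G) {c : ℝ}
    (hc : ∀ j, (R ^ j) (fun g => Φ g ^ 2) g ≤ c) : |FT M t g - Φ g| ≤ c / M := by
  have ht : (0 : ℝ) < (t : ℝ) + 1 := by positivity
  have h1 : FT M t g - Φ g = ((t : ℝ) + 1)⁻¹ *
      ∑ j ∈ Finset.range (t + 1), (R ^ j) (fun g => clip M (Φ g) - Φ g) g := by
    have h2 : ∀ j, (R ^ j) (fun g => clip M (Φ g) - Φ g) g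
        = (R ^ j) (fun g => clip M (Φ g)) g - Φ g := by
      intro j
      have h3 : (fun g => clip M (Φ g) - Φ g) = (fun g => clip M (Φ g)) - Φ := rfl
      rw [h3, map_sub, Rpow_fix j Φ_harm]
      rfl
    simp only [h2]
    rw [Finset.sum_sub_distrib, mul_sub, Finset.sum_const, Finset.card_range, nsmul_eq_mul]
    unfold FT
    push_cast
    field_simp
  rw [h1, abs_mul, abs_of_pos (inv_pos.mpr ht), inv_mul_le_iff₀ ht]
  calc |∑ j ∈ Finset.range (t + 1), (R ^ j) (fun g => clip M (Φ g) - Φ g) g|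
      ≤ ∑ j ∈ Finset.range (t + 1), |(R ^ j) (fun g => clip M (Φ g) - Φ g) g| :=
        Finset.abs_sum_le_sum_abs _ _
    _ ≤ ∑ j ∈ Finset.range (t + 1), c / M := by
        apply Finset.sum_le_sum
        intro j _
        have h3 := Rpow_abs j (f := fun g => clip M (Φ g) - Φ g)
          (f' := M⁻¹ • (fun g => Φ g ^ 2)) (fun g => by
            have := clip_sub hM (Φ g)
            rw [div_eq_inv_mul] at this
            exact this) g
        rw [map_smul] at h3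
        refine h3.trans ?_
        rw [div_eq_inv_mul]
        exact mul_le_mul_of_nonneg_left (hc j) (inv_pos.mpr hM).le
    _ = ((t : ℝ) + 1) * (c / M) := by simp

lemma R_FT {M : ℝ} (hM : 0 < M) (t : ℕ) (g : G) :
    |R (FT M t) g - FT M t g| ≤ 2 * M / ((t : ℝ) + 1) := by
  have ht : (0 : ℝ) < (t : ℝ) + 1 := by positivity
  have h1 : FT M t = ((t : ℝ) + 1)⁻¹ • ∑ j ∈ Finset.range (t + 1),
      (R ^ j) (fun g => clip M (Φ g)) := by
    funext g
    rw [Pi.smul_apply, Finset.sum_apply]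
    rfl
  have h2 : R (FT M t) - FT M t = ((t : ℝ) + 1)⁻¹ •
      ((R ^ (t + 1)) (fun g => clip M (Φ g)) - (fun g => clip M (Φ g))) := by
    rw [h1, map_smul, ← smul_sub, map_sum, ← Finset.sum_sub_distrib]
    congr 1
    have : ∀ j, R ((R ^ j) (fun g => clip M (Φ g))) - (R ^ j) (fun g => clip M (Φ g))
        = (R ^ (j + 1)) (fun g => clip M (Φ g)) - (R ^ j) (fun g => clip M (Φ g)) := by
      intro j
      rw [pow_succ', Module.End.mul_apply]
    simp only [this]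
    rw [Finset.sum_range_sub (fun j => (R ^ j) (fun g => clip M (Φ g)))]
    simp
  have h3 : R (FT M t) g - FT M t g = ((t : ℝ) + 1)⁻¹ *
      ((R ^ (t + 1)) (fun g => clip M (Φ g)) g - clip M (Φ g)) := congrFun h2 g
  rw [h3, abs_mul, abs_of_pos (inv_pos.mpr ht), ← div_eq_inv_mul]
  apply div_le_div_of_nonneg_right _ ht.le
  have h4 := Rpow_abs (t + 1) (f := fun g => clip M (Φ g)) (f' := fun _ => M)
          (fun g => clip_abs hM _) g
  rw [Rpow_const] at h4
  have h5 := clip_abs hM (Φ g)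
  have h6 := abs_sub ((R ^ (t + 1)) (fun g => clip M (Φ g)) g) (clip M (Φ g))
  linarith

/-- the bounded harmonic function -/
noncomputable def hM (M : ℝ) (g : G) : ℝ := ulim (Filter.hyperfilter ℕ) (fun t => FT M t g)

lemma tendsto_hM {M : ℝ} (h : 0 < M) (g : G) :
    Tendsto (fun t => FT M t g) (Filter.hyperfilter ℕ : Filter ℕ) (𝓝 (hM M g)) :=
  tendsto_ulim _ (fun t => FT_abs h t g)

lemma hM_abs {M : ℝ} (h : 0 < M) (g : G) : |hM M g| ≤ M :=
  le_of_tendsto (tendsto_hM h g).abs (Filter.Eventually.of_forall fun t => FT_abs h t g)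

lemma hM_harm {M : ℝ} (h : 0 < M) : R (hM M) = hM M := by
  funext g
  have h1 : Tendsto (fun t => R (FT M t) g) (Filter.hyperfilter ℕ : Filter ℕ)
      (𝓝 (R (hM M) g)) := by
    simp only [R_apply]
    apply Tendsto.add
    · exact (tendsto_hM h g).const_mul _
    · apply Tendsto.const_mul
      exact tendsto_finsetSum _ fun k _ => tendsto_hM h _
  have h2 : Tendsto (fun t => R (FT M t) g - FT M t g) (Filter.hyperfilter ℕ : Filter ℕ) (𝓝 0) := by
    apply Tendsto.mono_left _ hyper_le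
    apply squeeze_zero_norm' _ (tendsto_const_div (2 * M))
    filter_upwards with t
    rw [Real.norm_eq_abs]
    exact R_FT h t g
  have h3 := tendsto_nhds_unique (h1.sub (tendsto_hM h g)) h2
  linarith

lemma hM_close {M : ℝ} (h : 0 < M) (g : G) {c : ℝ}
    (hc : ∀ j, (R ^ j) (fun g => Φ g ^ 2) g ≤ c) : |hM M g - Φ g| ≤ c / M :=
  le_of_tendsto ((tendsto_hM h g).sub_const (Φ g)).abs
    (Filter.Eventually.of_forall fun t => FT_close h t g hc)

/-- existence of a non-constant bounded harmonic function -/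
theorem exists_harmonic : ∃ f : G → ℝ, (∃ C : ℝ, ∀ g, |f g| ≤ C) ∧ R f = f ∧ f 1 ≠ f gs := by
  set c := κ0 + 2 * cK * κ0 + 1 with hc
  have hκ := κ0_nonneg
  have hcK := cK_pos
  have hcpos : 0 < c := by positivity
  have hMpos : (0 : ℝ) < 840 * c := by positivity
  refine ⟨hM (840 * c), ⟨840 * c, hM_abs hMpos⟩, hM_harm hMpos, ?_⟩
  intro heq
  have h1 := hM_close hMpos 1 (c := κ0) Φ_var
  have h2 := hM_close hMpos gs (c := 2 * cK * κ0) Φ_var_gs
  rw [Φ_one, sub_zero] at h1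
  have h3 := Φ_gs
  rw [abs_le] at h1 h2
  have h4 : κ0 / (840 * c) + 2 * cK * κ0 / (840 * c) < 1 / 420 := by
    rw [← add_div, div_lt_iff₀ hMpos]
    have : 1 / 420 * (840 * c) = 2 * c := by ring
    rw [this]
    linarith
  have h5 := h1.2
  have h6 := h2.1
  rw [heq] at h5
  linarith

end Pool.Agent.Helper94.Liou
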