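import Pool.Agent.Helper94.Liou.Blk

/-!
# Local sets and the group
-/

set_option autoImplicit false

namespace Pool.Agent.Helper94.Liou

open Equiv
open scoped commutatorElement

lemma w_cls5 {p q : ℤ} (h : w p = w q) : (5 : ℤ) ∣ p - q := by
  have h1 := w_cls h
  have h2 := (ZMod.intCast_eq_intCast_iff_dvd_sub q p 5).mp h1.symm
  exact_mod_cast h2

/-- residue classes mod 5 -/
def Rc (c : ℤ) : Set ℤ := {x | (5 : ℤ) ∣ x - c}

lemma mem_Rc {c x : ℤ} : x ∈ Rc c ↔ (5 : ℤ) ∣ x - c := Iff.rfl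

lemma sep5 (c : ℤ) : Sep 5 (Rc c) := by
  intro x hx y hy hxy
  rw [mem_Rc] at hx hy
  have h : (5 : ℤ) ∣ x - y := by have := dvd_sub hx hy; ring_nf at this ⊢; exact this
  obtain ⟨k, hk⟩ := h
  have hk0 : k ≠ 0 := by rintro rfl; apply hxy; linarith
  have : 1 ≤ |k| := Int.one_le_abs hk0
  rw [hk, abs_mul]
  push_cast
  have h5 : |(5 : ℤ)| = 5 := rfl
  rw [h5]
  linarith

lemma S3_of_Rc {c : ℤ} {S : Set ℤ} (h : S ⊆ Rc c) : S3 S := by
  intro x hx
  have h0 := h hx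
  rw [mem_Rc] at h0
  constructor
  · intro h1
    have h2 := h h1
    rw [mem_Rc] at h2
    omega
  · intro h1
    have h2 := h h1
    rw [mem_Rc] at h2
    omega

/-- constant block permutations on residue classes -/
noncomputable def LL (c : ℤ) (P : Set ℤ) : Perm (Fin 5) →* Perm ℤ := LC 5 (Rc c) (sep5 c) P

lemma LL_s3 {c : ℤ} {P : Set ℤ} {j : ℕ} (hj : j + 2 < 5) {S : Set ℤ} (hS : S3 S)
    (hSP : ∀ x, x ∈ S ↔ x - j ∈ Rc c ∧ x - j ∈ P) : LL c P (s3 5 j) = tc S hS :=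
  LC_s3 (sep5 c) hj hS hSP

lemma LL_eq {c c' : ℤ} {P P' : Set ℤ} {j j' : ℕ} (hj : j + 2 < 5) (hj' : j' + 2 < 5)
    (h : ∀ x : ℤ, (x - j ∈ Rc c ∧ x - j ∈ P) ↔ (x - j' ∈ Rc c' ∧ x - j' ∈ P')) :
    LL c P (s3 5 j) = LL c' P' (s3 5 j') := by
  have hS : S3 {x | x - j ∈ Rc c ∧ x - j ∈ P} := by
    apply S3_of_Rc (c := c + j)
    rintro x ⟨hx, _⟩
    rw [mem_Rc] at hx ⊢
    omega
  rw [LL_s3 hj hS (fun x => Iff.rfl), LL_s3 hj' hS h]

/-- good sets -/
def QQ (N : Subgroup (Perm ℤ)) (P : Set ℤ) : Prop :=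
  ∀ c, ∀ π ∈ alternatingGroup (Fin 5), LL c P π ∈ N

/-- subgroup of `G` normalised by `G` -/
structure NG (N : Subgroup (Perm ℤ)) : Prop where
  le : N ≤ G
  norm : ∀ n ∈ N, ∀ g ∈ G, g * n * g⁻¹ ∈ N

lemma NG_G : NG G := ⟨le_rfl, fun _ hn _ hg => G.mul_mem (G.mul_mem hg hn) (G.inv_mem hg)⟩

lemma LL_letter (a : Alph) (c : ℤ) : LL c {x | w x = a} (s3 5 0) ∈ G := by
  by_cases h : ∃ x ∈ Rc c, w x = a
  · obtain ⟨x0, hx0, hw0⟩ := h
    rw [LL_s3 (by norm_num) (S3_letter a)]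
    · exact γ_mem a
    · intro x
      simp only [Nat.cast_zero, sub_zero, Set.mem_ofPred_eq]
      constructor
      · intro hx
        refine ⟨?_, hx⟩
        have h1 := w_cls5 (hx.trans hw0.symm)
        rw [mem_Rc] at hx0 ⊢
        omega
      · exact fun hx => hx.2
  · push Not at h
    have : LL c {x | w x = a} (s3 5 0) = 1 := LC_empty _ _ (fun x hx hx' => h x hx hx')
    rw [this]
    exact G.one_mem

lemma LL_fin (A : Finset Alph) (c : ℤ) : LL c {x | w x ∈ A} (s3 5 0) ∈ G := by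
  induction A using Finset.induction_on with
  | empty =>
    have : LL c {x | w x ∈ (∅ : Finset Alph)} (s3 5 0) = 1 :=
      LC_empty _ _ (fun x _ hx' => by simp at hx')
    rw [this]
    exact G.one_mem
  | insert a A ha ih =>
    have e : {x | w x ∈ insert a A} = {x | w x = a} ∪ {x | w x ∈ A} := by
      ext x; simp
    rw [e]
    have : LL c ({x | w x = a} ∪ {x | w x ∈ A}) (s3 5 0)
        = LL c {x | w x = a} (s3 5 0) * LL c {x | w x ∈ A} (s3 5 0) :=
      LC_union _ _ (by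
        intro x _ hx hx'
        simp only [Set.mem_ofPred_eq] at hx hx'
        rw [hx] at hx'
        exact ha hx')
    rw [this]
    exact G.mul_mem (LL_letter a c) ih

lemma LL_univ0 (c : ℤ) : LL c Set.univ (s3 5 0) ∈ G := by
  have := LL_fin Finset.univ c
  simp only [Finset.mem_univ] at this
  exact this

lemma QQ_univ : QQ G Set.univ := by
  intro c
  have h : alternatingGroup (Fin 5) ≤ G.comap (LL c Set.univ) := by
    apply gen_alt' (by norm_num)
    intro j hj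
    rw [Subgroup.mem_comap]
    rw [LL_eq (c' := c + j) (P' := Set.univ) (j' := 0) hj (by norm_num)]
    · exact LL_univ0 _
    · intro x
      simp only [Set.mem_univ, and_true, mem_Rc]
      constructor <;> intro h <;> push_cast at h ⊢ <;> omega
  intro π hπ
  exact h hπ

lemma QQ_of {N : Subgroup (Perm ℤ)} (hN : NG N) {P : Set ℤ}
    (h : ∀ c, ∃ π ∈ alternatingGroup (Fin 5), π ≠ 1 ∧ LL c P π ∈ N) : QQ N P := by
  intro c
  obtain ⟨π, h1, h2, h3⟩ := h c
  exact LC_all (sep5 c) le_rfl hN.norm (QQ_univ c) h1 h2 h3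

lemma QQ.mono {N : Subgroup (Perm ℤ)} (hN : NG N) {P : Set ℤ} (h : QQ N P) : QQ G P :=
  fun c π hπ => hN.le (h c π hπ)

lemma comm_ne_one : ⁅s3 5 0, s3 5 1⁆ ≠ 1 := by
  rw [Ne, commutatorElement_eq_one_iff_mul_comm]
  intro h
  have h1 := congrArg (fun σ : Perm (Fin 5) => σ ⟨0, by norm_num⟩) h
  simp only [Perm.mul_apply] at h1
  have e1 : s3 5 1 (⟨0, by norm_num⟩ : Fin 5) = ⟨0, by norm_num⟩ :=
    s3_apply_not (by norm_num) _ (by norm_num) (by norm_num) (by norm_num)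
  have e2 : s3 5 0 (⟨0, by norm_num⟩ : Fin 5) = ⟨1, by norm_num⟩ :=
    Fin.ext (s3_apply0 (by norm_num) _ rfl)
  have e3 : s3 5 1 (⟨1, by norm_num⟩ : Fin 5) = ⟨2, by norm_num⟩ :=
    Fin.ext (s3_apply0 (by norm_num) _ rfl)
  rw [e1, e2, e3] at h1
  have := congrArg Fin.val h1
  simp at this

lemma comm_mem : ⁅s3 5 0, s3 5 1⁆ ∈ alternatingGroup (Fin 5) := by
  rw [Perm.mem_alternatingGroup, map_commutatorElement, s3_sign (by norm_num),
    s3_sign (by norm_num)]
  exact commutatorElement_self _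

lemma QQ_inter {N : Subgroup (Perm ℤ)} (hN : NG N) {P P' : Set ℤ} (h : QQ N P) (h' : QQ G P') :
    QQ N (P ∩ P') := by
  apply QQ_of hN
  intro c
  refine ⟨⁅s3 5 0, s3 5 1⁆, comm_mem, comm_ne_one, ?_⟩
  have : LL c (P ∩ P') ⁅s3 5 0, s3 5 1⁆ = ⁅LL c P (s3 5 0), LL c P' (s3 5 1)⁆ := LC_inter _ _ _
  rw [this, commutatorElement_def]
  have h1 := h c (s3 5 0) (s3_mem (by norm_num))
  have h2 := h' c (s3 5 1) (s3_mem (by norm_num))
  have h3 := hN.norm _ (N.inv_mem h1) _ h2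
  have : LL c P (s3 5 0) * LL c P' (s3 5 1) * (LL c P (s3 5 0))⁻¹ * (LL c P' (s3 5 1))⁻¹
      = LL c P (s3 5 0) * (LL c P' (s3 5 1) * (LL c P (s3 5 0))⁻¹ * (LL c P' (s3 5 1))⁻¹) := by
    group
  rw [this]
  exact N.mul_mem h1 h3

lemma QQ_compl {P : Set ℤ} (h : QQ G P) : QQ G Pᶜ := by
  intro c π hπ
  have h1 : LL c (P ∪ Pᶜ) π = LL c P π * LL c Pᶜ π :=
    LC_union _ _ (fun x _ hx hx' => hx' hx)
  rw [Set.union_compl_self] at h1
  have h2 : LL c Pᶜ π = (LL c P π)⁻¹ * LL c Set.univ π := by rw [h1]; group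
  rw [h2]
  exact G.mul_mem (G.inv_mem (h c π hπ)) (QQ_univ c π hπ)

lemma QQ_union {N : Subgroup (Perm ℤ)} (hN : NG N) {P P' : Set ℤ} (h : QQ N P) (h' : QQ N P') :
    QQ N (P ∪ P') := by
  have h1 : QQ N (P' ∩ Pᶜ) := QQ_inter hN h' (QQ_compl (h.mono hN))
  have e : P ∪ P' = P ∪ (P' ∩ Pᶜ) := by
    ext x
    simp only [Set.mem_union, Set.mem_inter_iff, Set.mem_compl_iff]
    tauto
  rw [e]
  intro c π hπ
  have h2 : LL c (P ∪ (P' ∩ Pᶜ)) π = LL c P π * LL c (P' ∩ Pᶜ) π :=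
    LC_union _ _ (fun x _ hx hx' => hx'.2 hx)
  rw [h2]
  exact N.mul_mem (h c π hπ) (h1 c π hπ)

lemma QQ_empty (N : Subgroup (Perm ℤ)) : QQ N ∅ := by
  intro c π _
  have : LL c ∅ π = 1 := LC_empty _ _ (fun x _ hx => hx)
  rw [this]
  exact N.one_mem

lemma QQ_biUnion {N : Subgroup (Perm ℤ)} (hN : NG N) {ι : Type*} (s : Finset ι) (P : ι → Set ℤ)
    (h : ∀ i ∈ s, QQ N (P i)) : QQ N (⋃ i ∈ s, P i) := by
  classical
  induction s using Finset.induction_on with
  | empty => simpa using QQ_empty N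
  | insert a s ha ih =>
    rw [Finset.set_biUnion_insert]
    exact QQ_union hN (h a (Finset.mem_insert_self _ _))
      (ih fun i hi => h i (Finset.mem_insert_of_mem hi))

lemma QQ_shift1 {N : Subgroup (Perm ℤ)} (hN : NG N) {P : Set ℤ} (h : QQ N P) :
    QQ N {x | x + 1 ∈ P} := by
  apply QQ_of hN
  intro c
  refine ⟨s3 5 1, s3_mem (by norm_num), s3_ne_one (by norm_num), ?_⟩
  rw [LL_eq (c' := c + 1) (P' := P) (j' := 0) (by norm_num) (by norm_num)]
  · exact h _ _ (s3_mem (by norm_num))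
  · intro x
    simp only [Set.mem_ofPred_eq, mem_Rc, Nat.cast_one, Nat.cast_zero, sub_zero, sub_add_cancel]
    have : x - 1 - c = x - (c + 1) := by ring
    rw [this]

lemma QQ_shift2 {N : Subgroup (Perm ℤ)} (hN : NG N) {P : Set ℤ} (h : QQ N P) :
    QQ N {x | x - 1 ∈ P} := by
  apply QQ_of hN
  intro c
  refine ⟨s3 5 0, s3_mem (by norm_num), s3_ne_one (by norm_num), ?_⟩
  rw [LL_eq (c' := c - 1) (P' := P) (j' := 1) (by norm_num) (by norm_num)]
  · exact h _ _ (s3_mem (by norm_num))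
  · intro x
    simp only [Set.mem_ofPred_eq, mem_Rc, Nat.cast_one, Nat.cast_zero, sub_zero]
    have : x - 1 - (c - 1) = x - c := by ring
    rw [this]

lemma QQ_shift {N : Subgroup (Perm ℤ)} (hN : NG N) (d : ℤ) : ∀ {P : Set ℤ}, QQ N P →
    QQ N {x | x + d ∈ P} := by
  induction d using Int.induction_on with
  | zero => intro P h; simpa using h
  | succ i ih =>
    intro P h
    have h1 := ih (QQ_shift1 hN h)
    have e : {x : ℤ | x + (i : ℤ) ∈ {x | x + 1 ∈ P}} = {x | x + ((i : ℤ) + 1) ∈ P} := by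
      ext x
      simp only [Set.mem_ofPred_eq, add_assoc]
    rwa [e] at h1
  | pred i ih =>
    intro P h
    have h1 := ih (QQ_shift2 hN h)
    have e : {x : ℤ | x + (-(i : ℤ)) ∈ {x | x - 1 ∈ P}} = {x | x + (-(i : ℤ) - 1) ∈ P} := by
      ext x
      simp only [Set.mem_ofPred_eq]
      have : x + -(i : ℤ) - 1 = x + (-(i : ℤ) - 1) := by ring
      rw [this]
    rwa [e] at h1

lemma QQ_letter (a : Alph) : QQ G {x | w x = a} := by
  apply QQ_of NG_G
  intro c
  exact ⟨s3 5 0, s3_mem (by norm_num), s3_ne_one (by norm_num), LL_letter a c⟩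

lemma QQ_det (T : Finset ℤ) : ∀ (P : Set ℤ),
    (∀ x y, (∀ t ∈ T, w (x + t) = w (y + t)) → x ∈ P → y ∈ P) → QQ G P := by
  induction T using Finset.induction_on with
  | empty =>
    intro P h
    by_cases hP : P = ∅
    · rw [hP]; exact QQ_empty G
    · obtain ⟨x, hx⟩ := Set.nonempty_iff_ne_empty.mpr hP
      have : P = Set.univ := by
        ext y
        simp only [Set.mem_univ, iff_true]
        exact h x y (by simp) hx
      rw [this]
      exact QQ_univ
  | insert t T ht ih =>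
    intro P h
    have e : P = ⋃ a ∈ (Finset.univ : Finset Alph), ({x | w (x + t) = a} ∩
        {x | ∃ y ∈ P, w (y + t) = a ∧ ∀ t' ∈ T, w (y + t') = w (x + t')}) := by
      ext x
      simp only [Set.mem_iUnion, Set.mem_inter_iff, Set.mem_ofPred_eq, Finset.mem_univ,
        exists_true_left]
      constructor
      · intro hx
        exact ⟨w (x + t), rfl, x, hx, rfl, fun _ _ => rfl⟩
      · rintro ⟨a, h1, y, hy, h2, h3⟩
        apply h y x _ hy
        intro t' ht'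
        rcases Finset.mem_insert.mp ht' with rfl | ht'
        · rw [h1, h2]
        · exact h3 t' ht'
    rw [e]
    apply QQ_biUnion NG_G
    intro a _
    apply QQ_inter NG_G
    · have h1 := QQ_shift NG_G t (QQ_letter a)
      have e1 : {x : ℤ | x + t ∈ {x | w x = a}} = {x | w (x + t) = a} := by
        ext x
        simp only [Set.mem_ofPred_eq]
      rwa [e1] at h1
    · apply ih
      rintro x x' hxx' ⟨y, hy, h1, h2⟩
      exact ⟨y, hy, h1, fun t' ht' => (h2 t' ht').trans (hxx' t' ht')⟩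

/-- local sets -/
def LS (P : Set ℤ) : Prop := ∃ n : ℕ, ∀ x y, Agr n x y → x ∈ P → y ∈ P

lemma QQ_local {P : Set ℤ} (h : LS P) : QQ G P := by
  obtain ⟨n, hn⟩ := h
  apply QQ_det (Finset.Icc (-(n : ℤ)) n)
  intro x y hxy
  apply hn
  intro t ht
  apply hxy
  rw [Finset.mem_Icc]
  exact abs_le.mp ht

lemma LS_shift {P : Set ℤ} (h : LS P) (d : ℤ) : LS {x | x + d ∈ P} := by
  obtain ⟨n, hn⟩ := h
  refine ⟨n + d.natAbs, fun x y hxy hx => ?_⟩
  apply hn (x + d) (y + d) _ hx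
  apply Agr.shift (m := d.natAbs) _ hxy
  simp

lemma QQ_fill {N : Subgroup (Perm ℤ)} (hN : NG N) {P : Set ℤ} (h : QQ N P) (hl : LS P)
    (hne : P.Nonempty) : QQ N Set.univ := by
  obtain ⟨p0, hp0⟩ := hne
  obtain ⟨n, hn⟩ := hl
  obtain ⟨B, hB⟩ := w_rec' n p0
  have e : (Set.univ : Set ℤ) = ⋃ d ∈ Finset.Icc (0 : ℤ) B, {x | x + d ∈ P} := by
    ext x
    simp only [Set.mem_univ, Set.mem_iUnion, Set.mem_ofPred_eq, exists_prop, true_iff]
    obtain ⟨y, h1, h2, h3⟩ := hB x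
    refine ⟨y - x, Finset.mem_Icc.mpr ⟨by omega, by omega⟩, ?_⟩
    have : x + (y - x) = y := by ring
    rw [this]
    exact hn p0 y h3.symm hp0
  rw [e]
  exact QQ_biUnion hN _ _ (fun d _ => QQ_shift hN d h)

lemma G_le_of_QQ {N : Subgroup (Perm ℤ)} (hN : NG N) (h : QQ N Set.univ) : G ≤ N := by
  unfold G
  rw [Subgroup.closure_le]
  rintro _ ⟨a, rfl⟩
  have h1 : QQ N {x | w x = a} := by
    have := QQ_inter hN h (QQ_letter a)
    rwa [Set.univ_inter] at this
  by_cases hx : ∃ x, w x = a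
  · obtain ⟨x0, hx0⟩ := hx
    have h2 := h1 x0 (s3 5 0) (s3_mem (by norm_num))
    rw [LL_s3 (by norm_num) (S3_letter a)] at h2
    · exact h2
    · intro x
      simp only [Nat.cast_zero, sub_zero, Set.mem_ofPred_eq]
      constructor
      · intro hx
        exact ⟨w_cls5 (hx.trans hx0.symm), hx⟩
      · exact fun hx => hx.2
  · push Not at hx
    have : γ a = 1 := by
      ext x
      rw [γ_apply_not (hx _) (hx _) (hx _)]
      rfl
    rw [SetLike.mem_coe, this]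
    exact N.one_mem

end Pool.Agent.Helper94.Liou
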