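import Mathlib

/-!
# Ultralimits and means on bounded functions
-/

set_option autoImplicit false

namespace Pool.Agent.Helper94.Liou

open Filter Topology Finset

/-- limit of a (bounded) real family along an ultrafilter -/
noncomputable def ulim {ι : Type*} (U : Ultrafilter ι) (x : ι → ℝ) : ℝ :=
  limUnder (U : Filter ι) x

lemma tendsto_ulim {ι : Type*} (U : Ultrafilter ι) {x : ι → ℝ} {C : ℝ} (h : ∀ i, |x i| ≤ C) :
    Tendsto x (U : Filter ι) (𝓝 (ulim U x)) := by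
  have hc : IsCompact (Set.Icc (-C) C) := isCompact_Icc
  have hle : ((U.map x : Ultrafilter ℝ) : Filter ℝ) ≤ 𝓟 (Set.Icc (-C) C) := by
    rw [Filter.le_principal_iff]
    simp only [Ultrafilter.mem_coe, Ultrafilter.mem_map]
    apply Filter.univ_mem'
    intro i
    exact abs_le.mp (h i)
  obtain ⟨a, _, ha⟩ := hc.ultrafilter_le_nhds (U.map x) hle
  have : Tendsto x (U : Filter ι) (𝓝 a) := ha
  exact tendsto_nhds_limUnder ⟨a, this⟩

lemma ulim_eq {ι : Type*} (U : Ultrafilter ι) {x : ι → ℝ} {a : ℝ}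
    (h : Tendsto x (U : Filter ι) (𝓝 a)) : ulim U x = a := h.limUnder_eq

/-- bounded functions -/
def bd (X : Type*) : Subalgebra ℝ (X → ℝ) where
  carrier := {F | ∃ C : ℝ, ∀ x, |F x| ≤ C}
  mul_mem' := by
    rintro F H ⟨C, hC⟩ ⟨D, hD⟩
    refine ⟨C * D, fun x => ?_⟩
    rw [Pi.mul_apply, abs_mul]
    exact mul_le_mul (hC x) (hD x) (abs_nonneg _) ((abs_nonneg _).trans (hC x))
  add_mem' := by
    rintro F H ⟨C, hC⟩ ⟨D, hD⟩
    exact ⟨C + D, fun x => (abs_add_le _ _).trans (add_le_add (hC x) (hD x))⟩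
  algebraMap_mem' := fun r => ⟨|r|, fun x => le_of_eq rfl⟩

lemma mem_bd {X : Type*} {F : X → ℝ} : F ∈ bd X ↔ ∃ C : ℝ, ∀ x, |F x| ≤ C := Iff.rfl

/-- limit functional -/
noncomputable def ulimL {ι X : Type*} (U : Ultrafilter ι) (L : ι → bd X →ₗ[ℝ] ℝ)
    (hL : ∀ i (F : bd X) (C : ℝ), (∀ x, |F.1 x| ≤ C) → |L i F| ≤ C) : bd X →ₗ[ℝ] ℝ where
  toFun F := ulim U (fun i => L i F)
  map_add' F H := by
    obtain ⟨C, hC⟩ := F.2
    obtain ⟨D, hD⟩ := H.2
    have h1 := tendsto_ulim U (fun i => hL i F C hC)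
    have h2 := tendsto_ulim U (fun i => hL i H D hD)
    apply ulim_eq
    simpa only [map_add] using h1.add h2
  map_smul' r F := by
    obtain ⟨C, hC⟩ := F.2
    have h1 := tendsto_ulim U (fun i => hL i F C hC)
    apply ulim_eq
    simpa only [map_smul, smul_eq_mul, RingHom.id_apply] using h1.const_mul r

section
variable {ι X : Type*} (U : Ultrafilter ι) (L : ι → bd X →ₗ[ℝ] ℝ)
    (hL : ∀ i (F : bd X) (C : ℝ), (∀ x, |F.1 x| ≤ C) → |L i F| ≤ C)

lemma tendsto_ulimL (F : bd X) :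
    Tendsto (fun i => L i F) (U : Filter ι) (𝓝 (ulimL U L hL F)) := by
  obtain ⟨C, hC⟩ := F.2
  exact tendsto_ulim U (fun i => hL i F C hC)

lemma ulimL_abs_le (F : bd X) {C : ℝ} (h : ∀ x, |F.1 x| ≤ C) : |ulimL U L hL F| ≤ C := by
  have h1 := (tendsto_ulimL U L hL F).abs
  exact le_of_tendsto h1 (Filter.Eventually.of_forall fun i => hL i F C h)

lemma ulimL_nonneg (F : bd X) (h : ∀ i, 0 ≤ L i F) : 0 ≤ ulimL U L hL F :=
  ge_of_tendsto (tendsto_ulimL U L hL F) (Filter.Eventually.of_forall h)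

lemma ulimL_eq_of_sub (F H : bd X)
    (h : Tendsto (fun i => L i F - L i H) (U : Filter ι) (𝓝 0)) :
    ulimL U L hL F = ulimL U L hL H := by
  have h1 := (tendsto_ulimL U L hL F).sub (tendsto_ulimL U L hL H)
  have := tendsto_nhds_unique h1 h
  linarith

lemma ulimL_eq_const (F : bd X) {c : ℝ} (h : ∀ i, L i F = c) : ulimL U L hL F = c := by
  apply ulim_eq
  simp only [h]
  exact tendsto_const_nhds

end

/-- average over a finite set -/
noncomputable def avgL {X : Type*} (Φ : Finset X) : bd X →ₗ[ℝ] ℝ where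
  toFun F := (Φ.card : ℝ)⁻¹ * ∑ x ∈ Φ, F.1 x
  map_add' F H := by
    rw [← mul_add, ← Finset.sum_add_distrib]; rfl
  map_smul' r F := by
    simp only [RingHom.id_apply, smul_eq_mul]
    rw [mul_left_comm, Finset.mul_sum (s := Φ) (a := r)]
    rfl

lemma avgL_apply {X : Type*} (Φ : Finset X) (F : bd X) :
    avgL Φ F = (Φ.card : ℝ)⁻¹ * ∑ x ∈ Φ, F.1 x := rfl

lemma avgL_abs_le {X : Type*} {Φ : Finset X} (hΦ : Φ.Nonempty) (F : bd X) {C : ℝ}
    (h : ∀ x, |F.1 x| ≤ C) : |avgL Φ F| ≤ C := by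
  have hc : (0 : ℝ) < Φ.card := by exact_mod_cast hΦ.card_pos
  rw [avgL_apply, abs_mul, abs_of_pos (inv_pos.mpr hc)]
  rw [inv_mul_le_iff₀ hc]
  calc |∑ x ∈ Φ, F.1 x| ≤ ∑ x ∈ Φ, |F.1 x| := Finset.abs_sum_le_sum_abs _ _
    _ ≤ ∑ _x ∈ Φ, C := Finset.sum_le_sum fun x _ => h x
    _ = Φ.card * C := by simp

lemma avgL_nonneg {X : Type*} (Φ : Finset X) (F : bd X) (h : ∀ x, 0 ≤ F.1 x) : 0 ≤ avgL Φ F := by
  rw [avgL_apply]
  exact mul_nonneg (by positivity) (Finset.sum_nonneg fun x _ => h x)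

lemma avgL_one {X : Type*} {Φ : Finset X} (hΦ : Φ.Nonempty) : avgL Φ 1 = 1 := by
  have hc : (0 : ℝ) < Φ.card := by exact_mod_cast hΦ.card_pos
  rw [avgL_apply]
  have : ∑ x ∈ Φ, (1 : bd X).1 x = Φ.card := by simp
  rw [this]
  field_simp

/-- composition with a map -/
def cmp {X Y : Type*} (f : X → Y) : bd Y →ₐ[ℝ] bd X where
  toFun F := ⟨fun x => F.1 (f x), by
    obtain ⟨C, hC⟩ := F.2
    exact ⟨C, fun x => hC _⟩⟩
  map_one' := rfl
  map_mul' _ _ := rfl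
  map_zero' := rfl
  map_add' _ _ := rfl
  commutes' _ := rfl

@[simp] lemma cmp_apply {X Y : Type*} (f : X → Y) (F : bd Y) (x : X) :
    (cmp f F).1 x = F.1 (f x) := rfl

lemma avgL_cmp_sub {X : Type*} [DecidableEq X] {Φ : Finset X} (τ : Equiv.Perm X) (F : bd X)
    {C : ℝ} (h : ∀ x, |F.1 x| ≤ C) :
    |avgL Φ (cmp τ F) - avgL Φ F| ≤ (Φ.card : ℝ)⁻¹ * (2 * C * (Φ.filter (fun x => τ x ∉ Φ)).card) := by
  rw [avgL_apply, avgL_apply, ← mul_sub, abs_mul, abs_of_nonneg (by positivity)]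
  apply mul_le_mul_of_nonneg_left _ (by positivity)
  simp only [cmp_apply]
  -- sum over Φ of F (τ x) = sum over image
  have h1 : ∑ x ∈ Φ, F.1 (τ x) = ∑ y ∈ Φ.map τ.toEmbedding, F.1 y := by simp
  rw [h1]
  have hcard : (Φ.map τ.toEmbedding).card = Φ.card := by simp
  have h2 : ((Φ.map τ.toEmbedding) \ Φ).card = (Φ.filter (fun x => τ x ∉ Φ)).card := by
    rw [← Finset.card_map τ.toEmbedding (s := Φ.filter (fun x => τ x ∉ Φ))]
    congr 1
    ext y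
    simp only [Finset.mem_sdiff, Finset.mem_map_equiv, Finset.mem_filter, Equiv.apply_symm_apply]
  have h3 : (Φ \ (Φ.map τ.toEmbedding)).card = (Φ.filter (fun x => τ x ∉ Φ)).card := by
    rw [← h2]
    have a := Finset.card_sdiff_add_card_inter Φ (Φ.map τ.toEmbedding)
    have b := Finset.card_sdiff_add_card_inter (Φ.map τ.toEmbedding) Φ
    rw [Finset.inter_comm] at b
    omega
  have h4 : ∑ y ∈ Φ.map τ.toEmbedding, F.1 y - ∑ x ∈ Φ, F.1 x
      = ∑ y ∈ (Φ.map τ.toEmbedding) \ Φ, F.1 y - ∑ y ∈ Φ \ (Φ.map τ.toEmbedding), F.1 y := by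
    have a := Finset.sum_sdiff_sub_sum_sdiff (s₁ := Φ.map τ.toEmbedding) (s₂ := Φ) (f := F.1)
    linarith
  rw [h4]
  have h5 : ∀ S : Finset X, |∑ y ∈ S, F.1 y| ≤ S.card * C := by
    intro S
    calc |∑ x ∈ S, F.1 x| ≤ ∑ x ∈ S, |F.1 x| := Finset.abs_sum_le_sum_abs _ _
      _ ≤ ∑ _x ∈ S, C := Finset.sum_le_sum fun x _ => h x
      _ = S.card * C := by simp
  have h6 := h5 ((Φ.map τ.toEmbedding) \ Φ)
  have h7 := h5 (Φ \ (Φ.map τ.toEmbedding))
  rw [h2] at h6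
  rw [h3] at h7
  have h8 := abs_sub (∑ y ∈ (Φ.map τ.toEmbedding) \ Φ, F.1 y) (∑ y ∈ Φ \ (Φ.map τ.toEmbedding), F.1 y)
  nlinarith

end Pool.Agent.Helper94.Liou
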