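import Pool.Agent.Helper94.Liou.Pair

/-!
# An invariant mean on half-line-like subsets of `ℤ`
-/

set_option autoImplicit false

namespace Pool.Agent.Helper94.Liou

open Filter Topology Finset Equiv

/-- image of a set under a permutation -/
def act (g : Perm ℤ) (T : Set ℤ) : Set ℤ := {p | g⁻¹ p ∈ T}

lemma mem_act {g : Perm ℤ} {T : Set ℤ} {p : ℤ} : p ∈ act g T ↔ g⁻¹ p ∈ T := Iff.rfl

/-- amplitude -/
noncomputable def uu (W : Finset ℤ) (α : ℤ → ℝ) (S : Finset ℤ) : ℝ :=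
  (∏ p ∈ S, Real.sin (α p)) * ∏ p ∈ W \ S, Real.cos (α p)

/-- outer part -/
def AA (W : Finset ℤ) (α : ℤ → ℝ) : Set ℤ := {p | p ∉ W ∧ α p = Real.pi / 2}

lemma mem_AA {W : Finset ℤ} {α : ℤ → ℝ} {p : ℤ} : p ∈ AA W α ↔ p ∉ W ∧ α p = Real.pi / 2 := Iff.rfl

/-- finite-window expectation -/
noncomputable def EE (W : Finset ℤ) (α : ℤ → ℝ) : bd (Set ℤ) →ₗ[ℝ] ℝ where
  toFun F := ∑ S ∈ W.powerset, (uu W α S) ^ 2 * F.1 ((S : Set ℤ) ∪ AA W α)
  map_add' F H := by
    rw [← Finset.sum_add_distrib]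
    apply Finset.sum_congr rfl
    intro S _
    change _ * (F.1 _ + H.1 _) = _
    ring
  map_smul' r F := by
    rw [RingHom.id_apply, smul_eq_mul, Finset.mul_sum]
    apply Finset.sum_congr rfl
    intro S _
    change _ * (r * F.1 _) = _
    ring

lemma EE_apply (W : Finset ℤ) (α : ℤ → ℝ) (F : bd (Set ℤ)) :
    EE W α F = ∑ S ∈ W.powerset, (uu W α S) ^ 2 * F.1 ((S : Set ℤ) ∪ AA W α) := rfl

lemma sum_uu (W : Finset ℤ) (α β : ℤ → ℝ) :
    ∑ S ∈ W.powerset, uu W α S * uu W β S = ∏ p ∈ W, Real.cos (α p - β p) := by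
  have h : ∀ p ∈ W, Real.cos (α p - β p) =
      Real.sin (α p) * Real.sin (β p) + Real.cos (α p) * Real.cos (β p) := by
    intro p _
    rw [Real.cos_sub]; ring
  rw [Finset.prod_congr rfl h, Finset.prod_add]
  apply Finset.sum_congr rfl
  intro S _
  unfold uu
  rw [Finset.prod_mul_distrib, Finset.prod_mul_distrib]
  ring

lemma sum_uu_sq (W : Finset ℤ) (α : ℤ → ℝ) : ∑ S ∈ W.powerset, uu W α S ^ 2 = 1 := by
  have := sum_uu W α α
  simp only [sub_self, Real.cos_zero, Finset.prod_const_one] at this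
  rw [← this]
  apply Finset.sum_congr rfl
  intro S _
  ring

lemma EE_abs_le (W : Finset ℤ) (α : ℤ → ℝ) (F : bd (Set ℤ)) {C : ℝ} (h : ∀ x, |F.1 x| ≤ C) :
    |EE W α F| ≤ C := by
  rw [EE_apply]
  calc |∑ S ∈ W.powerset, (uu W α S) ^ 2 * F.1 ((S : Set ℤ) ∪ AA W α)|
      ≤ ∑ S ∈ W.powerset, |(uu W α S) ^ 2 * F.1 ((S : Set ℤ) ∪ AA W α)| :=
        Finset.abs_sum_le_sum_abs _ _
    _ ≤ ∑ S ∈ W.powerset, (uu W α S) ^ 2 * C := by
        apply Finset.sum_le_sum
        intro S _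
        rw [abs_mul, abs_of_nonneg (sq_nonneg (uu W α S))]
        exact mul_le_mul_of_nonneg_left (h _) (sq_nonneg _)
    _ = C := by rw [← Finset.sum_mul, sum_uu_sq, one_mul]

lemma EE_nonneg (W : Finset ℤ) (α : ℤ → ℝ) (F : bd (Set ℤ)) (h : ∀ x, 0 ≤ F.1 x) :
    0 ≤ EE W α F := by
  rw [EE_apply]
  exact Finset.sum_nonneg fun S _ => mul_nonneg (sq_nonneg _) (h _)

lemma EE_one (W : Finset ℤ) (α : ℤ → ℝ) : EE W α 1 = 1 := by
  rw [EE_apply, ← sum_uu_sq W α]
  apply Finset.sum_congr rfl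
  intro S _
  change _ * (1 : ℝ) = _
  ring

lemma uu_insert {W : Finset ℤ} {α : ℤ → ℝ} {p : ℤ} (hp : p ∉ W) {S : Finset ℤ} (hS : S ⊆ W) :
    uu (insert p W) α S = uu W α S * Real.cos (α p) := by
  have hpS : p ∉ S := fun h => hp (hS h)
  unfold uu
  rw [Finset.insert_sdiff_of_notMem _ hpS, Finset.prod_insert (by
    rw [Finset.mem_sdiff]; exact fun h => hp h.1)]
  ring

lemma uu_insert' {W : Finset ℤ} {α : ℤ → ℝ} {p : ℤ} (hp : p ∉ W) {S : Finset ℤ} (hS : S ⊆ W) :
    uu (insert p W) α (insert p S) = uu W α S * Real.sin (α p) := by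
  have hpS : p ∉ S := fun h => hp (hS h)
  unfold uu
  have e : (insert p W) \ (insert p S) = W \ S := by
    ext x
    simp only [Finset.mem_sdiff, Finset.mem_insert, not_or]
    constructor
    · rintro ⟨h1 | h1, h2, h3⟩
      · exact absurd h1 h2
      · exact ⟨h1, h3⟩
    · rintro ⟨h1, h2⟩
      exact ⟨Or.inr h1, fun h => hp (h ▸ h1), h2⟩
  rw [e, Finset.prod_insert hpS]
  ring

lemma EE_insert {W : Finset ℤ} {α : ℤ → ℝ} {p : ℤ} (hp : p ∉ W)
    (hα : α p = 0 ∨ α p = Real.pi / 2) (F : bd (Set ℤ)) : EE (insert p W) α F = EE W α F := by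
  rw [EE_apply, EE_apply, Finset.sum_powerset_insert hp]
  rcases hα with h | h
  · have h1 : ∑ S ∈ W.powerset, (uu (insert p W) α (insert p S)) ^ 2 *
        F.1 (((insert p S : Finset ℤ) : Set ℤ) ∪ AA (insert p W) α) = 0 := by
      apply Finset.sum_eq_zero
      intro S hS
      rw [uu_insert' hp (Finset.mem_powerset.mp hS), h, Real.sin_zero]
      ring
    rw [h1, add_zero]
    apply Finset.sum_congr rfl
    intro S hS
    rw [uu_insert hp (Finset.mem_powerset.mp hS), h, Real.cos_zero, mul_one]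
    have e : AA (insert p W) α = AA W α := by
      ext x
      rw [mem_AA, mem_AA, Finset.mem_insert, not_or]
      constructor
      · rintro ⟨⟨_, h2⟩, h3⟩; exact ⟨h2, h3⟩
      · rintro ⟨h2, h3⟩
        refine ⟨⟨?_, h2⟩, h3⟩
        rintro rfl
        rw [h] at h3
        have := Real.pi_pos
        linarith
    rw [e]
  · have h1 : ∑ S ∈ W.powerset, (uu (insert p W) α S) ^ 2 *
        F.1 ((S : Set ℤ) ∪ AA (insert p W) α) = 0 := by
      apply Finset.sum_eq_zero
      intro S hS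
      rw [uu_insert hp (Finset.mem_powerset.mp hS), h, Real.cos_pi_div_two]
      ring
    rw [h1, zero_add]
    apply Finset.sum_congr rfl
    intro S hS
    rw [uu_insert' hp (Finset.mem_powerset.mp hS), h, Real.sin_pi_div_two, mul_one]
    have e : ((insert p S : Finset ℤ) : Set ℤ) ∪ AA (insert p W) α = (S : Set ℤ) ∪ AA W α := by
      ext x
      rw [Set.mem_union, Set.mem_union, mem_AA, mem_AA, Finset.mem_coe, Finset.mem_coe,
        Finset.mem_insert, Finset.mem_insert, not_or]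
      constructor
      · rintro ((rfl | h2) | ⟨⟨_, h2⟩, h3⟩)
        · right; exact ⟨hp, h⟩
        · left; exact h2
        · right; exact ⟨h2, h3⟩
      · rintro (h2 | ⟨h2, h3⟩)
        · left; right; exact h2
        · by_cases hx : x = p
          · left; left; exact hx
          · right; exact ⟨⟨hx, h2⟩, h3⟩
    rw [e]

lemma EE_union {W : Finset ℤ} {α : ℤ → ℝ} (hα : ∀ p, p ∉ W → α p = 0 ∨ α p = Real.pi / 2)
    (D : Finset ℤ) (F : bd (Set ℤ)) : EE (W ∪ D) α F = EE W α F := by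
  induction D using Finset.induction_on with
  | empty => rw [Finset.union_empty]
  | insert d D hd ih =>
    rw [Finset.union_insert]
    by_cases h : d ∈ W ∪ D
    · rw [Finset.insert_eq_of_mem h, ih]
    · rw [EE_insert h (hα d (fun h' => h (Finset.mem_union_left _ h'))), ih]

lemma EE_subset {W W' : Finset ℤ} {α : ℤ → ℝ} (hα : ∀ p, p ∉ W → α p = 0 ∨ α p = Real.pi / 2)
    (h : W ⊆ W') (F : bd (Set ℤ)) : EE W' α F = EE W α F := by
  rw [← EE_union hα W' F, Finset.union_eq_right.mpr h]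

lemma EE_act (W : Finset ℤ) (α : ℤ → ℝ) (g : Perm ℤ) (F : bd (Set ℤ)) :
    EE W α (cmp (act g) F) = EE (W.map g.toEmbedding) (fun p => α (g⁻¹ p)) F := by
  rw [EE_apply, EE_apply]
  have hgs : ∀ x, g.symm x = g⁻¹ x := fun x => rfl
  apply Finset.sum_nbij' (fun S => S.map g.toEmbedding) (fun S => S.map g.symm.toEmbedding)
  · intro S hS
    rw [Finset.mem_powerset] at hS ⊢
    exact Finset.map_subset_map.mpr hS
  · intro S hS
    rw [Finset.mem_powerset] at hS ⊢
    intro x hx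
    rw [Finset.mem_map_equiv, Equiv.symm_symm] at hx
    have := hS hx
    rw [Finset.mem_map_equiv, Equiv.symm_apply_apply] at this
    exact this
  · intro S _
    ext x
    simp [Finset.mem_map_equiv]
  · intro S _
    ext x
    simp [Finset.mem_map_equiv]
  · intro S _
    have e1 : uu (W.map g.toEmbedding) (fun p => α (g⁻¹ p)) (S.map g.toEmbedding) = uu W α S := by
      unfold uu
      rw [← Finset.map_sdiff, Finset.prod_map, Finset.prod_map]
      simp only [Equiv.coe_toEmbedding, pinv_apply]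
    have e2 : act g ((S : Set ℤ) ∪ AA W α) = ((S.map g.toEmbedding : Finset ℤ) : Set ℤ) ∪
        AA (W.map g.toEmbedding) (fun p => α (g⁻¹ p)) := by
      ext x
      rw [mem_act, Set.mem_union, Set.mem_union, mem_AA, mem_AA, Finset.mem_coe, Finset.mem_coe,
        Finset.mem_map_equiv, Finset.mem_map_equiv, hgs]
    rw [e1, cmp_apply, e2]

lemma EE_compare {W : Finset ℤ} {α β : ℤ → ℝ} (h : ∀ p, p ∉ W → α p = β p) (F : bd (Set ℤ))
    {C : ℝ} (hC : ∀ x, |F.1 x| ≤ C) :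
    (EE W α F - EE W β F) ^ 2 ≤ 8 * C ^ 2 * (1 - ∏ p ∈ W, Real.cos (α p - β p)) := by
  have hA : AA W α = AA W β := by
    ext x
    rw [mem_AA, mem_AA]
    constructor
    · rintro ⟨h1, h2⟩; exact ⟨h1, (h x h1).symm.trans h2⟩
    · rintro ⟨h1, h2⟩; exact ⟨h1, (h x h1).trans h2⟩
  have hC0 : 0 ≤ C := (abs_nonneg _).trans (hC ∅)
  set π := ∏ p ∈ W, Real.cos (α p - β p) with hπ
  have h1 : |EE W α F - EE W β F| ≤ C * ∑ S ∈ W.powerset, |uu W α S - uu W β S| *
      |uu W α S + uu W β S| := by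
    rw [EE_apply, EE_apply, hA, ← Finset.sum_sub_distrib, Finset.mul_sum]
    refine (Finset.abs_sum_le_sum_abs _ _).trans (Finset.sum_le_sum fun S _ => ?_)
    rw [← sub_mul, sq_sub_sq, abs_mul, abs_mul]
    have := hC ((S : Set ℤ) ∪ AA W β)
    have h2 : 0 ≤ |uu W α S + uu W β S| * |uu W α S - uu W β S| := by positivity
    nlinarith
  have h2 : (∑ S ∈ W.powerset, |uu W α S - uu W β S| * |uu W α S + uu W β S|) ^ 2 ≤
      (∑ S ∈ W.powerset, |uu W α S - uu W β S| ^ 2) *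
        ∑ S ∈ W.powerset, |uu W α S + uu W β S| ^ 2 := Finset.sum_mul_sq_le_sq_mul_sq _ _ _
  have h3 : ∑ S ∈ W.powerset, |uu W α S - uu W β S| ^ 2 = 2 - 2 * π := by
    have : ∀ S ∈ W.powerset, |uu W α S - uu W β S| ^ 2 =
        uu W α S ^ 2 + uu W β S ^ 2 - 2 * (uu W α S * uu W β S) := by
      intro S _; rw [sq_abs]; ring
    rw [Finset.sum_congr rfl this, Finset.sum_sub_distrib, Finset.sum_add_distrib, sum_uu_sq,
      sum_uu_sq, ← Finset.mul_sum, sum_uu]
    ring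
  have h4 : ∑ S ∈ W.powerset, |uu W α S + uu W β S| ^ 2 = 2 + 2 * π := by
    have : ∀ S ∈ W.powerset, |uu W α S + uu W β S| ^ 2 =
        uu W α S ^ 2 + uu W β S ^ 2 + 2 * (uu W α S * uu W β S) := by
      intro S _; rw [sq_abs]; ring
    rw [Finset.sum_congr rfl this, Finset.sum_add_distrib, Finset.sum_add_distrib, sum_uu_sq,
      sum_uu_sq, ← Finset.mul_sum, sum_uu]
    ring
  have hπ1 : π ≤ 1 := by
    have : 0 ≤ 2 - 2 * π := by rw [← h3]; exact Finset.sum_nonneg fun S _ => by positivity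
    linarith
  rw [h3, h4] at h2
  have h5 : (EE W α F - EE W β F) ^ 2 ≤ (C * ∑ S ∈ W.powerset, |uu W α S - uu W β S| *
      |uu W α S + uu W β S|) ^ 2 := by
    rw [← sq_abs]
    exact pow_le_pow_left₀ (abs_nonneg _) h1 2
  rw [mul_pow] at h5
  have h6 : (2 - 2 * π) * (2 + 2 * π) ≤ 8 * (1 - π) := by nlinarith
  have h7 := mul_le_mul_of_nonneg_left (h2.trans h6) (sq_nonneg C)
  linarith

lemma prod_cos_le (W : Finset ℤ) (δ : ℤ → ℝ) :
    |∏ p ∈ W, Real.cos (δ p)| ≤ 1 ∧ 1 - ∏ p ∈ W, Real.cos (δ p) ≤ ∑ p ∈ W, (δ p) ^ 2 / 2 := by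
  induction W using Finset.induction_on with
  | empty => simp
  | insert a W ha ih =>
    rw [Finset.prod_insert ha, Finset.sum_insert ha]
    obtain ⟨ih1, ih2⟩ := ih
    have h1 := Real.abs_cos_le_one (δ a)
    have h2 := Real.one_sub_sq_div_two_le_cos (x := δ a)
    constructor
    · rw [abs_mul]
      calc _ ≤ 1 * 1 := mul_le_mul h1 ih1 (abs_nonneg _) zero_le_one
        _ = 1 := one_mul 1
    · have h3 := (abs_le.mp h1).2
      have h4 := (abs_le.mp ih1).2
      nlinarith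

/-- window -/
noncomputable def Wn (n : ℕ) : Finset ℤ := Finset.Icc (-((n : ℤ) + 1)) (n + 1)

/-- angles -/
noncomputable def al (n : ℕ) (p : ℤ) : ℝ :=
  Real.pi / 2 * max 0 (min 1 (((p : ℝ) + (n + 1)) / (2 * (n + 1))))

lemma al_low {n : ℕ} {p : ℤ} (h : p < -((n : ℤ) + 1)) : al n p = 0 := by
  unfold al
  have h1 : (p : ℝ) < -((n : ℝ) + 1) := by exact_mod_cast h
  have h2 : ((p : ℝ) + (n + 1)) / (2 * (n + 1)) ≤ 0 := by
    apply div_nonpos_of_nonpos_of_nonneg
    · linarith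
    · positivity
  rw [min_eq_right (by linarith), max_eq_left h2, mul_zero]

lemma al_high {n : ℕ} {p : ℤ} (h : (n : ℤ) + 1 < p) : al n p = Real.pi / 2 := by
  unfold al
  have h1 : (n : ℝ) + 1 < (p : ℝ) := by exact_mod_cast h
  have h2 : 1 ≤ ((p : ℝ) + (n + 1)) / (2 * (n + 1)) := by
    rw [le_div_iff₀ (by positivity)]
    linarith
  rw [min_eq_left h2, max_eq_right zero_le_one, mul_one]

lemma al_std {n : ℕ} {p : ℤ} (h : p ∉ Wn n) : al n p = 0 ∨ al n p = Real.pi / 2 := by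
  rw [Wn, Finset.mem_Icc, not_and_or, not_le, not_le] at h
  rcases h with h | h
  · left; exact al_low h
  · right; exact al_high h

lemma al_lip (n : ℕ) (p q : ℤ) {R : ℕ} (h : |p - q| ≤ R) :
    |al n p - al n q| ≤ Real.pi * R / (4 * (n + 1)) := by
  unfold al
  have hpi := Real.pi_pos
  have hn : (0 : ℝ) < n + 1 := by positivity
  rw [← mul_sub, abs_mul, abs_of_pos (by positivity)]
  set a : ℝ := ((p : ℝ) + (n + 1)) / (2 * (n + 1)) with ha
  set b : ℝ := ((q : ℝ) + (n + 1)) / (2 * (n + 1)) with hb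
  have h1 : |max 0 (min 1 a) - max 0 (min 1 b)| ≤ |a - b| := by
    rw [max_comm 0, max_comm 0]
    refine (abs_max_sub_max_le_abs _ _ _).trans ?_
    have := abs_min_sub_min_le_max (1 : ℝ) a 1 b
    rw [sub_self, abs_zero, max_eq_right (abs_nonneg _)] at this
    exact this
  have h2 : |a - b| ≤ R / (2 * (n + 1)) := by
    have : a - b = ((p : ℝ) - q) / (2 * (n + 1)) := by rw [ha, hb]; field_simp; ring
    rw [this, abs_div, abs_of_pos (by positivity : (0 : ℝ) < 2 * (n + 1))]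
    apply div_le_div_of_nonneg_right _ (by positivity)
    exact_mod_cast h
  calc Real.pi / 2 * |max 0 (min 1 a) - max 0 (min 1 b)| ≤ Real.pi / 2 * (R / (2 * (n + 1))) :=
        mul_le_mul_of_nonneg_left (h1.trans h2) (by positivity)
    _ = Real.pi * R / (4 * (n + 1)) := by field_simp; ring

lemma EE_inv {g : Perm ℤ} {R : ℕ} (hg : ∀ x, |g x - x| ≤ R) (n : ℕ) (F : bd (Set ℤ)) {C : ℝ}
    (hC : ∀ x, |F.1 x| ≤ C) :
    (EE (Wn n) (al n) (cmp (act g) F) - EE (Wn n) (al n) F) ^ 2 ≤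
      (C ^ 2 * (2 * R + 3) * (Real.pi * R) ^ 2) / (n + 1) := by
  set W' : Finset ℤ := Finset.Icc (-((n : ℤ) + 1 + R)) (n + 1 + R) with hW'
  have hgi : ∀ x, |g⁻¹ x - x| ≤ R := by
    intro x
    have := hg (g⁻¹ x)
    rwa [papply_inv, abs_sub_comm] at this
  have hn : (0 : ℝ) < n + 1 := by positivity
  have h1 : EE (Wn n) (al n) F = EE W' (al n) F := by
    symm
    apply EE_subset (fun p hp => al_std hp)
    intro x hx
    rw [Wn, Finset.mem_Icc] at hx
    rw [hW', Finset.mem_Icc]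
    omega
  have h2 : EE (Wn n) (al n) (cmp (act g) F) = EE W' (fun p => al n (g⁻¹ p)) F := by
    rw [EE_act]
    symm
    apply EE_subset
    · intro p hp
      apply al_std
      intro h
      apply hp
      rw [Finset.mem_map_equiv]
      exact h
    · intro x hx
      rw [Finset.mem_map_equiv, Wn, Finset.mem_Icc] at hx
      rw [hW', Finset.mem_Icc]
      have h3 := hgi x
      rw [abs_le] at h3
      have h4 : g.symm x = g⁻¹ x := rfl
      rw [h4] at hx
      omega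
  rw [h1, h2]
  have h3 : ∀ p, p ∉ W' → al n (g⁻¹ p) = al n p := by
    intro p hp
    rw [hW', Finset.mem_Icc, not_and_or, not_le, not_le] at hp
    have h3 := hgi p
    rw [abs_le] at h3
    rcases hp with hp | hp
    · rw [al_low (by omega), al_low (by omega)]
    · rw [al_high (by omega), al_high (by omega)]
  refine (EE_compare h3 F hC).trans ?_
  have h4 := (prod_cos_le W' (fun p => al n (g⁻¹ p) - al n p)).2
  have h5 : ∑ p ∈ W', (al n (g⁻¹ p) - al n p) ^ 2 / 2 ≤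
      ∑ _p ∈ W', (Real.pi * R / (4 * (n + 1))) ^ 2 / 2 := by
    apply Finset.sum_le_sum
    intro p _
    apply div_le_div_of_nonneg_right _ (by norm_num)
    rw [← sq_abs]
    exact pow_le_pow_left₀ (abs_nonneg _) (al_lip n _ _ (hgi p)) 2
  rw [Finset.sum_const, nsmul_eq_mul] at h5
  have h6 : (W'.card : ℝ) ≤ (2 * R + 3) * (n + 1) := by
    rw [hW', Int.card_Icc]
    have : ((n : ℤ) + 1 + R + 1 - -((n : ℤ) + 1 + R)).toNat = 2 * n + 3 + 2 * R := by omega
    rw [this]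
    push_cast
    have : (0 : ℝ) ≤ n * R := by positivity
    have : (0 : ℝ) ≤ n := by positivity
    nlinarith
  have hpi := Real.pi_pos
  have h7 : (W'.card : ℝ) * ((Real.pi * R / (4 * (n + 1))) ^ 2 / 2) ≤
      (2 * R + 3) * (n + 1) * ((Real.pi * R / (4 * (n + 1))) ^ 2 / 2) :=
    mul_le_mul_of_nonneg_right h6 (by positivity)
  have h8 : 1 - ∏ p ∈ W', Real.cos (al n (g⁻¹ p) - al n p) ≤
      (2 * R + 3) * (n + 1) * ((Real.pi * R / (4 * (n + 1))) ^ 2 / 2) := (h4.trans h5).trans h7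
  have h9 := mul_le_mul_of_nonneg_left h8 (by positivity : (0 : ℝ) ≤ 8 * C ^ 2)
  refine h9.trans ?_
  have e : 8 * C ^ 2 * ((2 * R + 3) * (n + 1) * ((Real.pi * R / (4 * (n + 1))) ^ 2 / 2))
      = (C ^ 2 * (2 * R + 3) * (Real.pi * R) ^ 2) / (n + 1) / 4 := by
    field_simp
    ring
  rw [e]
  have : 0 ≤ (C ^ 2 * (2 * R + 3) * (Real.pi * R) ^ 2) / (n + 1) := by positivity
  linarith

/-- the mean on sets -/
noncomputable def EX : bd (Set ℤ) →ₗ[ℝ] ℝ :=
  ulimL (Filter.hyperfilter ℕ) (fun n => EE (Wn n) (al n)) (fun _ F _ h => EE_abs_le _ _ F h)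

lemma EX_nonneg {F : bd (Set ℤ)} (h : ∀ x, 0 ≤ F.1 x) : 0 ≤ EX F :=
  ulimL_nonneg _ _ _ _ fun _ => EE_nonneg _ _ F h

lemma EX_one : EX 1 = 1 := ulimL_eq_const _ _ _ _ fun _ => EE_one _ _

lemma EX_inv {g : Perm ℤ} {R : ℕ} (hg : ∀ x, |g x - x| ≤ R) (F : bd (Set ℤ)) :
    EX (cmp (act g) F) = EX F := by
  obtain ⟨C, hC⟩ := F.2
  apply ulimL_eq_of_sub
  apply Tendsto.mono_left _ hyper_le
  have h1 : Tendsto (fun n : ℕ => Real.sqrt ((C ^ 2 * (2 * R + 3) * (Real.pi * R) ^ 2) /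
      ((n : ℝ) + 1))) atTop (𝓝 0) := by
    have := (tendsto_const_div (C ^ 2 * (2 * R + 3) * (Real.pi * R) ^ 2)).sqrt
    rwa [Real.sqrt_zero] at this
  apply squeeze_zero_norm' _ h1
  filter_upwards with n
  rw [Real.norm_eq_abs]
  exact Real.abs_le_sqrt (EE_inv hg n F hC)

/-- standard configurations -/
def Std (T : Set ℤ) : Prop := ∃ m : ℕ, ∀ p : ℤ, (m : ℤ) < |p| → (p ∈ T ↔ 0 < p)

lemma EX_congr {F H : bd (Set ℤ)} (h : ∀ T, Std T → F.1 T = H.1 T) : EX F = EX H := by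
  apply ulimL_eq_of_sub
  have : ∀ n, EE (Wn n) (al n) F - EE (Wn n) (al n) H = 0 := by
    intro n
    rw [sub_eq_zero, EE_apply, EE_apply]
    apply Finset.sum_congr rfl
    intro S hS
    rw [h]
    refine ⟨n + 1, fun p hp => ?_⟩
    rw [Finset.mem_powerset] at hS
    push_cast at hp
    have hpW : p ∉ Wn n := by
      rw [Wn, Finset.mem_Icc]
      intro h'
      rw [← abs_le] at h'
      omega
    rw [Set.mem_union, mem_AA, Finset.mem_coe]
    constructor
    · rintro (h1 | ⟨_, h2⟩)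
      · exact absurd (hS h1) hpW
      · by_contra hcon
        have h3 : p < -((n : ℤ) + 1) := by
          rw [abs_of_nonpos (by omega)] at hp
          omega
        rw [al_low h3] at h2
        have := Real.pi_pos
        linarith
    · intro h1
      right
      refine ⟨hpW, al_high ?_⟩
      rwa [abs_of_pos h1] at hp
  simp only [this]
  exact tendsto_const_nhds

end Pool.Agent.Helper94.Liou
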