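import Pool.Agent.Helper94.Liou.Local

/-!
# Simplicity
-/

set_option autoImplicit false

namespace Pool.Agent.Helper94.Liou

open Equiv
open scoped commutatorElement

lemma conj_eq_of_agree {α : Type*} {u v a : Perm α} (h : ∀ x, a x ≠ x → u x = v x) :
    u * a * u⁻¹ = v * a * v⁻¹ := by
  ext y
  simp only [Perm.mul_apply]
  by_cases h1 : a (v⁻¹ y) = v⁻¹ y
  · rw [h1, papply_inv]
    by_cases h2 : a (u⁻¹ y) = u⁻¹ y
    · rw [h2, papply_inv]
    · exfalso
      have h3 := h _ h2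
      rw [papply_inv] at h3
      -- y = v (u⁻¹ y)
      have h4 : v⁻¹ y = u⁻¹ y := by rw [Perm.inv_eq_iff_eq, ← h3]
      rw [h4] at h1
      exact h2 h1
  · have h3 := h _ h1
    rw [papply_inv] at h3
    have h4 : u⁻¹ y = v⁻¹ y := by rw [Perm.inv_eq_iff_eq, h3]
    rw [h4]
    apply h
    intro h5
    exact h1 (a.injective h5)

/-- 3-cycle -/
def c3 {L : ℕ} (a b c : Fin L) : Perm (Fin L) := swap a b * swap a c

lemma c3_mem {L : ℕ} {a b c : Fin L} (hab : a ≠ b) (hac : a ≠ c) :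
    c3 a b c ∈ alternatingGroup (Fin L) := by
  rw [Perm.mem_alternatingGroup, c3, map_mul, Perm.sign_swap hab, Perm.sign_swap hac]
  simp

lemma c3_conj {L : ℕ} (a b c : Fin L) (ρ : Perm (Fin L)) :
    ρ * c3 a b c * ρ⁻¹ = c3 (ρ a) (ρ b) (ρ c) := by
  unfold c3
  rw [swap_apply_apply, swap_apply_apply]
  group

lemma c3_supp {L : ℕ} {a b c i : Fin L} (h : c3 a b c i ≠ i) : i = a ∨ i = b ∨ i = c := by
  by_contra hcon
  push Not at hcon
  apply h
  unfold c3
  rw [Perm.mul_apply, swap_apply_of_ne_of_ne hcon.1 hcon.2.2,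
    swap_apply_of_ne_of_ne hcon.1 hcon.2.1]

lemma c3_move {L : ℕ} {a b c : Fin L} (hac : a ≠ c) (hbc : b ≠ c) :
    c3 a b c a ≠ a := by
  unfold c3
  rw [Perm.mul_apply, swap_apply_left, swap_apply_of_ne_of_ne hac.symm hbc.symm]
  exact hac.symm

/-- choice of a 3-cycle not commuting with `ρ` -/
lemma exists_c3 {L : ℕ} (x : Fin 5 → Fin L) (hx : Function.Injective x) (ρ : Perm (Fin L))
    (h : ρ (x 0) ≠ x 0) : ∃ α ∈ alternatingGroup (Fin L), ρ * α * ρ⁻¹ ≠ α ∧
      ∀ i, α i ≠ i → ∃ k, i = x k := by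
  have hne : ∀ i j : Fin 5, i ≠ j → x i ≠ x j := fun i j hij h' => hij (hx h')
  by_cases h1 : ρ * c3 (x 0) (x 1) (x 2) * ρ⁻¹ = c3 (x 0) (x 1) (x 2)
  · refine ⟨c3 (x 0) (x 3) (x 4), c3_mem (hne _ _ (by decide)) (hne _ _ (by decide)), ?_, ?_⟩
    · intro h2
      rw [c3_conj] at h1 h2
      have h3 : c3 (x 0) (x 1) (x 2) (ρ (x 0)) ≠ ρ (x 0) := by
        rw [← h1]
        exact c3_move (ρ.injective.ne (hne _ _ (by decide))) (ρ.injective.ne (hne _ _ (by decide)))
      have h4 : c3 (x 0) (x 3) (x 4) (ρ (x 0)) ≠ ρ (x 0) := by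
        rw [← h2]
        exact c3_move (ρ.injective.ne (hne _ _ (by decide))) (ρ.injective.ne (hne _ _ (by decide)))
      rcases c3_supp h3 with h5 | h5 | h5
      · exact h h5
      · rcases c3_supp h4 with h6 | h6 | h6
        · exact h h6
        · rw [h5] at h6; exact hne _ _ (by decide) h6
        · rw [h5] at h6; exact hne _ _ (by decide) h6
      · rcases c3_supp h4 with h6 | h6 | h6
        · exact h h6
        · rw [h5] at h6; exact hne _ _ (by decide) h6
        · rw [h5] at h6; exact hne _ _ (by decide) h6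
    · intro i hi
      rcases c3_supp hi with h5 | h5 | h5
      · exact ⟨_, h5⟩
      · exact ⟨_, h5⟩
      · exact ⟨_, h5⟩
  · refine ⟨c3 (x 0) (x 1) (x 2), c3_mem (hne _ _ (by decide)) (hne _ _ (by decide)), h1, ?_⟩
    intro i hi
    rcases c3_supp hi with h5 | h5 | h5
    · exact ⟨_, h5⟩
    · exact ⟨_, h5⟩
    · exact ⟨_, h5⟩

/-- a nontrivial normal subgroup contains a good set -/
lemma exists_good {N : Subgroup (Perm ℤ)} (hN : NG N) {g : Perm ℤ} (hg : g ∈ N) {p0 : ℤ}
    (hp : g p0 ≠ p0) : ∃ P, QQ N P ∧ LS P ∧ P.Nonempty := by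
  obtain ⟨R, hR⟩ := G_loc (hN.le hg)
  set L : ℕ := 2 * R + 5 with hL
  obtain ⟨n1, hn1⟩ := w_sep L
  set n : ℕ := n1 + 3 * R + 5 with hn
  set q0 : ℤ := p0 - R with hq0
  set Q : Set ℤ := {x | Agr n x q0} with hQ
  have hsep : Sep L Q := by
    intro x hx y hy hxy
    exact hn1 x y hxy ((hx.trans hy.symm).mono (by omega))
  have hQS : LS Q := ⟨n, fun x y hxy hx => hxy.symm.trans hx⟩
  have hq0Q : q0 ∈ Q := Agr.refl _ _
  have hQc : ∀ x ∈ Q, (5 : ℤ) ∣ x - q0 := by
    intro x hx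
    have := hx 0 (by simp)
    rw [add_zero, add_zero] at this
    exact w_cls5 this
  -- connection of `Q`-blocks and residue blocks
  have hconn : ∀ j : ℕ, j + 2 < L → LC L Q hsep Set.univ (s3 L j) =
      LL (q0 + j) {x | x + (-(j : ℤ)) ∈ Q} (s3 5 0) := by
    intro j hj
    have hS : S3 {x | x + (-(j : ℤ)) ∈ Q} := by
      apply S3_of_Rc (c := q0 + j)
      intro x hx
      have := hQc _ hx
      rw [mem_Rc]
      have e : x - (q0 + j) = x + (-(j : ℤ)) - q0 := by ring
      rw [e]; exact this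
    rw [LC_s3 hsep hj hS, LL_s3 (by norm_num) hS]
    · intro x
      simp only [Nat.cast_zero, sub_zero]
      constructor
      · intro hx
        refine ⟨?_, hx⟩
        have := hQc _ hx
        rw [mem_Rc]
        have e : x - (q0 + j) = x + (-(j : ℤ)) - q0 := by ring
        rw [e]; exact this
      · exact fun hx => hx.2
    · intro x
      simp only [Set.mem_univ, and_true, Set.mem_ofPred_eq, sub_eq_add_neg]
  have hAltG : ∀ π ∈ alternatingGroup (Fin L), LC L Q hsep Set.univ π ∈ G := by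
    have h : alternatingGroup (Fin L) ≤ G.comap (LC L Q hsep Set.univ) := by
      apply gen_alt' (by omega)
      intro j hj
      rw [Subgroup.mem_comap, hconn j hj]
      exact QQ_local (LS_shift hQS _) _ _ (s3_mem (by norm_num))
    exact fun π hπ => h hπ
  -- the permutation `ρ`
  have hxlt : ∀ k : Fin 5, R + (k : ℕ) < L := fun k => by omega
  set x : Fin 5 → Fin L := fun k => ⟨R + k, hxlt k⟩ with hxdef
  have hx : Function.Injective x := by
    intro a b hab
    have := congrArg Fin.val hab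
    simp only [hxdef] at this
    exact Fin.ext (by omega)
  have hyb : ∀ k : Fin 5, 0 ≤ g (p0 + (k : ℕ)) - q0 ∧ g (p0 + (k : ℕ)) - q0 < L := by
    intro k
    have := hR.1 (p0 + (k : ℕ))
    rw [abs_le] at this
    have hk : (k : ℕ) < 5 := k.2
    push_cast [hL]
    omega
  set y : Fin 5 → Fin L := fun k => ⟨(g (p0 + (k : ℕ)) - q0).toNat, by
    have := hyb k
    omega⟩ with hydef
  have hyval : ∀ k, ((y k : ℕ) : ℤ) = g (p0 + (k : ℕ)) - q0 := fun k =>
    Int.toNat_of_nonneg (hyb k).1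
  have hy : Function.Injective y := by
    intro a b hab
    have h1 := hyval a
    rw [hab, hyval b] at h1
    have h2 : g (p0 + (b : ℕ)) = g (p0 + (a : ℕ)) := by omega
    have h3 := g.injective h2
    exact Fin.ext (by omega)
  obtain ⟨ρ, hρ⟩ := Perm.exists_extending_pair x y hx hy
  have hρ0 : ρ (x 0) ≠ x 0 := by
    rw [hρ]
    intro h
    apply hp
    have h1 := hyval 0
    rw [h] at h1
    simp only [hxdef] at h1
    simp at h1
    omega
  obtain ⟨α, hα, hαne, hαs⟩ := exists_c3 x hx ρ hρ0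
  set a := LC L Q hsep Set.univ α with ha
  have haG : a ∈ G := hAltG α hα
  have hagree : ∀ z, a z ≠ z → g z = LC L Q hsep Set.univ ρ z := by
    intro z hz
    have : ∃ p ∈ Q, ∃ i : Fin L, p + ((i : ℕ) : ℤ) = z ∧ α i ≠ i := by
      by_contra hcon
      push Not at hcon
      apply hz
      exact LC_apply_not hsep α (fun p hp _ i hi => hcon p hp i hi)
    obtain ⟨q, hq, i, rfl, hi⟩ := this
    obtain ⟨k, rfl⟩ := hαs i hi
    rw [LC_apply hsep ρ hq (Set.mem_univ _), hρ, hyval]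
    have hk : (k : ℕ) < 5 := k.2
    have hag : Agr R (q + (((x k : Fin L) : ℕ) : ℤ)) (p0 + (k : ℕ)) := by
      have e1 : p0 + ((k : ℕ) : ℤ) = q0 + (((x k : Fin L) : ℕ) : ℤ) := by
        simp only [hxdef]; push_cast; omega
      rw [e1]
      apply Agr.shift (m := R + 4)
      · simp only [hxdef]
        push_cast
        rw [abs_of_nonneg (by positivity)]
        omega
      · exact Agr.mono (by omega) hq
    have h2 := hR.2 _ _ hag
    simp only [hxdef] at h2 ⊢
    push_cast at h2 ⊢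
    omega
  have hconj := conj_eq_of_agree hagree
  -- the element `κ`
  set κ := ρ * α * ρ⁻¹ * α⁻¹ with hκ
  have hκ1 : κ ≠ 1 := by
    intro h
    rw [hκ, mul_inv_eq_one] at h
    exact hαne h
  have hκm : κ ∈ alternatingGroup (Fin L) := by
    rw [Perm.mem_alternatingGroup] at hα ⊢
    rw [hκ]
    simp [hα]
  have hκN : LC L Q hsep Set.univ κ ∈ N := by
    have e : LC L Q hsep Set.univ κ = g * (a * g⁻¹ * a⁻¹) := by
      rw [hκ, map_mul, map_mul, map_mul, map_inv, map_inv, ← ha, ← hconj]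
      group
    rw [e]
    exact N.mul_mem hg (hN.norm _ (N.inv_mem hg) _ haG)
  have hall := LC_all hsep (by omega) hN.norm hAltG hκm hκ1 hκN
  refine ⟨Q, ?_, hQS, ⟨q0, hq0Q⟩⟩
  have h0 : LL q0 Q (s3 5 0) ∈ N := by
    have h1 := hall (s3 L 0) (s3_mem (by omega))
    rw [hconn 0 (by omega)] at h1
    simpa using h1
  apply QQ_of hN
  intro c
  refine ⟨s3 5 0, s3_mem (by norm_num), s3_ne_one (by norm_num), ?_⟩
  by_cases hc : (5 : ℤ) ∣ q0 - c
  · rw [LL_eq (c' := q0) (P' := Q) (j' := 0) (by norm_num) (by norm_num)]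
    · exact h0
    · intro z
      simp only [Nat.cast_zero, sub_zero, mem_Rc]
      constructor
      · rintro ⟨h1, h2⟩; exact ⟨by omega, h2⟩
      · rintro ⟨h1, h2⟩; exact ⟨by omega, h2⟩
  · have : LL c Q (s3 5 0) = 1 := LC_empty _ _ (by
      intro z hz hz'
      have h1 := hQc z hz'
      rw [mem_Rc] at hz
      apply hc
      omega)
    rw [this]
    exact N.one_mem

/-- simplicity -/
theorem G_simple : IsSimpleGroup G := by
  have hnt : Nontrivial G := by
    refine ⟨⟨⟨γ (w 0), γ_mem _⟩, 1, ?_⟩⟩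
    intro h
    have h1 := congrArg (fun x : G => x.1 0) h
    simp only [Subgroup.coe_one, Perm.one_apply] at h1
    rw [γ_apply0 rfl] at h1
    norm_num at h1
  refine { hnt with eq_bot_or_eq_top_of_normal := ?_ }
  intro H hH
  by_cases hbot : H = ⊥
  · left; exact hbot
  · right
    obtain ⟨⟨g, hgH⟩, hg1'⟩ := Subgroup.ne_bot_iff_exists_ne_one.mp hbot
    have hg1 : g ≠ 1 := fun h => hg1' (Subtype.ext h)
    set N : Subgroup (Perm ℤ) := H.map G.subtype with hNdef
    have hN : NG N := by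
      constructor
      · rintro _ ⟨x, _, rfl⟩
        exact x.2
      · rintro _ ⟨x, hx, rfl⟩ y hy
        exact ⟨⟨y, hy⟩ * x * ⟨y, hy⟩⁻¹, hH.conj_mem x hx ⟨y, hy⟩, rfl⟩
    have hgN : g.1 ∈ N := ⟨g, hgH, rfl⟩
    have hp : ∃ p0, g.1 p0 ≠ p0 := by
      by_contra hcon
      push Not at hcon
      apply hg1
      apply Subtype.ext
      ext x
      rw [hcon x]
      rfl
    obtain ⟨p0, hp0⟩ := hp
    obtain ⟨P, hP, hPl, hPn⟩ := exists_good hN hgN hp0
    have hle := G_le_of_QQ hN (QQ_fill hN hP hPl hPn)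
    rw [eq_top_iff]
    intro x _
    obtain ⟨y, hy, hyx⟩ := hle x.2
    have : y = x := Subtype.ext hyx
    rw [← this]
    exact hy

end Pool.Agent.Helper94.Liou
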