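import Pool.Agent.Helper94.Liou.Harm
import Pool.Agent.Helper94.Liou.Simple
import Pool.Agent.Helper94.Liou.Amen

/-!
# A finitely generated simple amenable non-Liouville group (MP_ef2645_al)

Overview of the proof.

* `Seq`: a Toeplitz sequence `w : ℤ → Alph`, `w p = (p mod 5, lowest nonzero digits of p in bases
  3, 4, 5, 7)`; two positions agreeing on a window of length `n` are congruent modulo some
  `M ≥ n^4 / 420` (`w_coll`); all patterns recur with bounded gaps (`w_rec'`).
* `Grp`: `γ a` is the product of the 3-cycles `(p, p+1, p+2)` over all `p` with `w p = a`;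
  `G` is the group generated by the `γ a`, acting on `ℤ`; all elements are local (`G_loc`).
* `Mean`, `Pair`: invariant means `E1` on `ℤ` and `E2` on `ℤ × ℤ` with `E2 (f ⊗ g) = E1 f * E1 g`.
* `Walk`, `Path`, `Energy`, `Energy2`: the lazy pair walk `P2`; the observable
  `V k (p, q) = (s_k p - p) (s_k q - q)` has finite `H_{-1}` energy (`V_energy`), by a coupling
  (canonical path) argument which uses the collision bound.
* `Harm`: `Φ g = E1 (ζ · (g⁻¹ p - p))` is harmonic, and bounded in `L²` along the random walk
  (`Φ_var`, `Φ_var_gs`); Cesàro limits of truncations give a bounded non-constant harmonic function.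
* `Blk`, `Local`, `Simple`: `G` is simple (`G_simple`).
* `MeanX`, `Stab`, `Amen`: `G` is amenable (`G_amenable`), following Juschenko and Monod.
* `Misc`: `G` is infinite and finitely generated; the measure.
-/

set_option autoImplicit false

namespace Pool.Agent.Helper94.Liou

open Equiv Finset

lemma G_fg : Group.FG G := by
  rw [Group.fg_iff_subgroup_fg, Subgroup.fg_iff]
  exact ⟨Set.range γ, rfl, Set.finite_range γ⟩

lemma G_infinite : Infinite G := by
  by_contra hcon
  rw [not_infinite_iff_finite] at hcon
  have h1 : (Set.range (fun g : G => g.1 0)).Finite := Set.finite_range _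
  have h2 : ∀ n : ℕ, ∃ g : G, g.1 0 = n := by
    intro n
    induction n with
    | zero => exact ⟨1, rfl⟩
    | succ n ih =>
      obtain ⟨g, hg⟩ := ih
      refine ⟨⟨γ (w n), γ_mem _⟩ * g, ?_⟩
      change γ (w n) (g.1 0) = _
      rw [hg, γ_apply0 rfl]
      push_cast
      rfl
  have h3 : (Set.range (fun n : ℕ => (n : ℤ))) ⊆ Set.range (fun g : G => g.1 0) := by
    rintro _ ⟨n, rfl⟩
    obtain ⟨g, hg⟩ := h2 n
    exact ⟨g, hg⟩
  have h4 := h1.subset h3
  exact Set.infinite_range_of_injective (fun a b h => by exact_mod_cast h) h4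

/-- the measure -/
noncomputable def μG : G →₀ ℝ :=
  Finsupp.single 1 (1 / 2) + ∑ k : K, Finsupp.single (sG k) (1 / (2 * cK))

open Classical in
lemma μG_apply (g : G) : μG g = (if (1 : G) = g then 1 / 2 else 0) +
    ∑ k : K, (if sG k = g then 1 / (2 * cK) else 0) := by
  unfold μG
  rw [Finsupp.add_apply, Finsupp.finsetSum_apply, Finsupp.single_apply]
  simp only [Finsupp.single_apply]

lemma μG_nonneg (g : G) : 0 ≤ μG g := by
  classical
  rw [μG_apply]
  have := cK_pos
  apply add_nonneg
  · split_ifs <;> norm_num
  · apply Finset.sum_nonneg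
    intro k _
    split_ifs
    · positivity
    · exact le_rfl

lemma μG_symm (g : G) : μG g⁻¹ = μG g := by
  classical
  rw [μG_apply, μG_apply]
  congr 1
  · apply if_congr _ rfl rfl
    rw [eq_comm, inv_eq_one, eq_comm]
  · rw [← Equiv.sum_comp kinv (fun k => if sG k = g then 1 / (2 * cK) else 0)]
    apply Finset.sum_congr rfl
    intro k _
    apply if_congr _ rfl rfl
    rw [sG_kinv, inv_eq_iff_eq_inv]

lemma μG_sum (f : G → ℝ) (g : G) : Finsupp.sum μG (fun s w => w * f (g * s)) = R f g := by
  classical
  unfold μG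
  rw [Finsupp.sum_add_index' (by simp) (by intros; ring)]
  rw [← Finsupp.sum_finsetSum_index (by simp) (by intros; ring)]
  rw [Finsupp.sum_single_index (by simp)]
  rw [R_apply, mul_one, Finset.mul_sum]
  congr 1
  apply Finset.sum_congr rfl
  intro k _
  rw [Finsupp.sum_single_index (by simp)]

lemma μG_total : Finsupp.sum μG (fun _ w => w) = 1 := by
  have h1 := μG_sum (fun _ => 1) 1
  rw [R_const] at h1
  simpa using h1

lemma μG_supp (k : K) : sG k ∈ μG.support := by
  classical
  rw [Finsupp.mem_support_iff, μG_apply]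
  have := cK_pos
  have h1 : (0 : ℝ) ≤ (if (1 : G) = sG k then 1 / 2 else 0) := by split_ifs <;> norm_num
  have h2 : 1 / (2 * cK) ≤ ∑ k' : K, (if sG k' = sG k then 1 / (2 * cK) else 0) := by
    have := Finset.single_le_sum (f := fun k' : K => if sG k' = sG k then 1 / (2 * cK) else 0)
      (fun k' _ => by split_ifs <;> positivity) (Finset.mem_univ k)
    simpa using this
  have h3 : 0 < 1 / (2 * cK) := by positivity
  linarith

lemma μG_gen : Subgroup.closure (↑μG.support : Set G) = ⊤ := by
  rw [eq_top_iff]
  have h1 : Subgroup.closure (((↑) : G → Perm ℤ) ⁻¹' (Set.range γ)) = ⊤ :=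
    Subgroup.closure_closure_coe_preimage
  rw [← h1, Subgroup.closure_le]
  rintro x ⟨a, ha⟩
  apply Subgroup.subset_closure
  have : x = sG (kp a) := by
    apply Subtype.ext
    rw [← ha]
    exact (sg_kp a).symm
  rw [this]
  exact μG_supp _

end Pool.Agent.Helper94.Liou
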