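import Pool.Agent.Helper94.Liou.Grp
import Pool.Agent.Helper94.Liou.Mean

/-!
# Invariant means on `ℤ` and `ℤ × ℤ`
-/

set_option autoImplicit false

namespace Pool.Agent.Helper94.Liou

open Filter Topology Finset

/-- the intervals -/
noncomputable def Iv (N : ℕ) : Finset ℤ := Finset.Ico (0 : ℤ) (N + 1)

lemma Iv_card (N : ℕ) : (Iv N).card = N + 1 := by
  simp only [Iv, Int.card_Ico]; omega

lemma Iv_nonempty (N : ℕ) : (Iv N).Nonempty := by
  rw [← Finset.card_pos, Iv_card]; omega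

/-- mean on `ℤ` -/
noncomputable def E1 : bd ℤ →ₗ[ℝ] ℝ :=
  ulimL (Filter.hyperfilter ℕ) (fun N => avgL (Iv N)) (fun N F _ h => avgL_abs_le (Iv_nonempty N) F h)

/-- mean on `ℤ × ℤ` -/
noncomputable def E2 : bd (ℤ × ℤ) →ₗ[ℝ] ℝ :=
  ulimL (Filter.hyperfilter ℕ) (fun N => avgL (Iv N ×ˢ Iv N))
    (fun N F _ h => avgL_abs_le ((Iv_nonempty N).product (Iv_nonempty N)) F h)

lemma hyper_le : (Filter.hyperfilter ℕ : Filter ℕ) ≤ atTop := Nat.hyperfilter_le_atTop

lemma E1_nonneg {F : bd ℤ} (h : ∀ x, 0 ≤ F.1 x) : 0 ≤ E1 F :=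
  ulimL_nonneg _ _ _ _ fun _ => avgL_nonneg _ F h

lemma E2_nonneg {F : bd (ℤ × ℤ)} (h : ∀ x, 0 ≤ F.1 x) : 0 ≤ E2 F :=
  ulimL_nonneg _ _ _ _ fun _ => avgL_nonneg _ F h

lemma E1_one : E1 1 = 1 := ulimL_eq_const _ _ _ _ fun N => avgL_one (Iv_nonempty N)

lemma E2_one : E2 1 = 1 :=
  ulimL_eq_const _ _ _ _ fun N => avgL_one ((Iv_nonempty N).product (Iv_nonempty N))

lemma E1_mono {F H : bd ℤ} (h : ∀ x, F.1 x ≤ H.1 x) : E1 F ≤ E1 H := by
  have : 0 ≤ E1 (H - F) := E1_nonneg fun x => sub_nonneg.mpr (h x)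
  rw [map_sub] at this
  linarith

lemma E2_mono {F H : bd (ℤ × ℤ)} (h : ∀ x, F.1 x ≤ H.1 x) : E2 F ≤ E2 H := by
  have : 0 ≤ E2 (H - F) := E2_nonneg fun x => sub_nonneg.mpr (h x)
  rw [map_sub] at this
  linarith

lemma E2_abs_le {F : bd (ℤ × ℤ)} {C : ℝ} (h : ∀ x, |F.1 x| ≤ C) : |E2 F| ≤ C :=
  ulimL_abs_le _ _ _ _ h

/-- tensor product -/
noncomputable def tens (f g : bd ℤ) : bd (ℤ × ℤ) := cmp Prod.fst f * cmp Prod.snd g

@[simp] lemma tens_apply (f g : bd ℤ) (x : ℤ × ℤ) : (tens f g).1 x = f.1 x.1 * g.1 x.2 := rfl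

lemma E2_tens (f g : bd ℤ) : E2 (tens f g) = E1 f * E1 g := by
  have h1 := tendsto_ulimL (Filter.hyperfilter ℕ) (fun N => avgL (Iv N))
    (fun N F _ h => avgL_abs_le (Iv_nonempty N) F h) f
  have h2 := tendsto_ulimL (Filter.hyperfilter ℕ) (fun N => avgL (Iv N))
    (fun N F _ h => avgL_abs_le (Iv_nonempty N) F h) g
  have h3 := h1.mul h2
  apply ulim_eq
  convert h3 using 2 with N
  · rw [avgL_apply, avgL_apply, avgL_apply, Finset.card_product, Finset.sum_product]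
    simp only [tens_apply]
    rw [← Finset.sum_mul_sum]
    push_cast
    rw [mul_inv]
    ring
  · rfl

lemma card_out {s : Equiv.Perm ℤ} {R : ℕ} (hs : ∀ x, |s x - x| ≤ R) (N : ℕ) :
    ((Iv N).filter (fun x => s x ∉ Iv N)).card ≤ 2 * R := by
  have hsub : (Iv N).filter (fun x => s x ∉ Iv N) ⊆
      Finset.Ico (0 : ℤ) R ∪ Finset.Ico ((N : ℤ) + 1 - R) (N + 1) := by
    intro x hx
    simp only [Iv, Finset.mem_filter, Finset.mem_Ico, Finset.mem_union] at hx ⊢
    have := hs x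
    rw [abs_le] at this
    omega
  refine (Finset.card_le_card hsub).trans ((Finset.card_union_le _ _).trans ?_)
  simp only [Int.card_Ico]
  omega

lemma tendsto_const_div (c : ℝ) :
    Tendsto (fun N : ℕ => c / ((N : ℝ) + 1)) atTop (𝓝 0) := by
  have h := tendsto_one_div_add_atTop_nhds_zero_nat (𝕜 := ℝ)
  have := h.const_mul c
  simpa [div_eq_mul_inv] using this

lemma E1_inv {s : Equiv.Perm ℤ} {R : ℕ} (hs : ∀ x, |s x - x| ≤ R) (F : bd ℤ) :
    E1 (cmp s F) = E1 F := by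
  obtain ⟨C, hC⟩ := F.2
  have hC0 : 0 ≤ C := (abs_nonneg _).trans (hC 0)
  apply ulimL_eq_of_sub
  apply Tendsto.mono_left _ hyper_le
  apply squeeze_zero_norm' _ (tendsto_const_div (4 * C * R))
  filter_upwards with N
  rw [Real.norm_eq_abs]
  refine (avgL_cmp_sub s F hC).trans ?_
  have h1 : (((Iv N).filter (fun x => s x ∉ Iv N)).card : ℝ) ≤ 2 * R := by
    exact_mod_cast card_out hs N
  rw [Iv_card]
  push_cast
  rw [inv_mul_eq_div]
  apply div_le_div_of_nonneg_right _ (by positivity)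
  nlinarith [mul_le_mul_of_nonneg_left h1 hC0]

lemma E2_inv {s s' : Equiv.Perm ℤ} {R : ℕ} (hs : ∀ x, |s x - x| ≤ R)
    (hs' : ∀ x, |s' x - x| ≤ R) (F : bd (ℤ × ℤ)) :
    E2 (cmp (Equiv.prodCongr s s') F) = E2 F := by
  obtain ⟨C, hC⟩ := F.2
  have hC0 : 0 ≤ C := (abs_nonneg _).trans (hC 0)
  apply ulimL_eq_of_sub
  apply Tendsto.mono_left _ hyper_le
  apply squeeze_zero_norm' _ (tendsto_const_div (8 * C * R))
  filter_upwards with N
  rw [Real.norm_eq_abs]
  refine (avgL_cmp_sub (Equiv.prodCongr s s') F hC).trans ?_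
  have hsub : (Iv N ×ˢ Iv N).filter (fun x => (Equiv.prodCongr s s') x ∉ Iv N ×ˢ Iv N) ⊆
      ((Iv N).filter (fun x => s x ∉ Iv N)) ×ˢ Iv N ∪
      Iv N ×ˢ ((Iv N).filter (fun x => s' x ∉ Iv N)) := by
    rintro ⟨p, q⟩ hx
    simp only [Finset.mem_filter, Finset.mem_product, Finset.mem_union, Equiv.prodCongr_apply,
      Prod.map_apply, not_and] at hx ⊢
    by_cases h : s p ∈ Iv N
    · right; exact ⟨hx.1.1, hx.1.2, hx.2 h⟩
    · left; exact ⟨⟨hx.1.1, h⟩, hx.1.2⟩
  have hcard : ((Iv N ×ˢ Iv N).filter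
      (fun x => (Equiv.prodCongr s s') x ∉ Iv N ×ˢ Iv N)).card ≤ 4 * R * (N + 1) := by
    refine (Finset.card_le_card hsub).trans ((Finset.card_union_le _ _).trans ?_)
    rw [Finset.card_product, Finset.card_product, Iv_card]
    have h1 := card_out hs N
    have h2 := card_out hs' N
    nlinarith
  have hcard' : (((Iv N ×ˢ Iv N).filter
      (fun x => (Equiv.prodCongr s s') x ∉ Iv N ×ˢ Iv N)).card : ℝ) ≤ 4 * R * (N + 1) := by
    exact_mod_cast hcard
  rw [Finset.card_product, Iv_card]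
  push_cast
  have hN : (0 : ℝ) < (N : ℝ) + 1 := by positivity
  rw [inv_mul_eq_div, div_le_div_iff₀ (by positivity) hN]
  have := mul_le_mul_of_nonneg_left hcard' (by positivity : (0 : ℝ) ≤ 2 * C)
  nlinarith

/-- Cauchy-Schwarz -/
lemma E2_cs (F H : bd (ℤ × ℤ)) : E2 (F * H) ^ 2 ≤ E2 (F * F) * E2 (H * H) := by
  have key : ∀ t : ℝ, 0 ≤ E2 (H * H) * (t * t) + (2 * E2 (F * H)) * t + E2 (F * F) := by
    intro t
    have h : 0 ≤ E2 ((F + t • H) * (F + t • H)) :=
      E2_nonneg fun x => mul_self_nonneg _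
    have e : (F + t • H) * (F + t • H) = F * F + (2 * t) • (F * H) + (t * t) • (H * H) := by
      apply Subtype.ext
      funext x
      show (F.1 x + t * H.1 x) * (F.1 x + t * H.1 x)
        = F.1 x * F.1 x + (2 * t) * (F.1 x * H.1 x) + (t * t) * (H.1 x * H.1 x)
      ring
    rw [e, map_add, map_add, map_smul, map_smul, smul_eq_mul, smul_eq_mul] at h
    linarith
  have := discrim_le_zero key
  rw [discrim] at this
  nlinarith

open Classical in
/-- indicator -/
noncomputable def ind {X : Type*} (P : X → Prop) : bd X :=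
  ⟨fun x => if P x then 1 else 0, 1, fun x => by dsimp only; split_ifs <;> simp⟩

open Classical in
@[simp] lemma ind_apply {X : Type*} (P : X → Prop) (x : X) :
    (ind P).1 x = if P x then 1 else 0 := rfl

lemma ind_true {X : Type*} {P : X → Prop} {x : X} (h : P x) : (ind P).1 x = 1 := by simp [h]
lemma ind_false {X : Type*} {P : X → Prop} {x : X} (h : ¬ P x) : (ind P).1 x = 0 := by simp [h]

lemma ind_nonneg {X : Type*} (P : X → Prop) (x : X) : 0 ≤ (ind P).1 x := by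
  rw [ind_apply]; split_ifs <;> norm_num

lemma ind_le_one {X : Type*} (P : X → Prop) (x : X) : (ind P).1 x ≤ 1 := by
  rw [ind_apply]; split_ifs <;> norm_num

lemma sum_bd_apply {X κ : Type*} (s : Finset κ) (f : κ → bd X) (x : X) :
    (∑ k ∈ s, f k).1 x = ∑ k ∈ s, (f k).1 x := by
  classical
  induction s using Finset.induction_on with
  | empty => simp
  | insert a s ha ih => rw [Finset.sum_insert ha, Finset.sum_insert ha, ← ih]; rfl

lemma abs_addRight (d x : ℤ) : |(Equiv.addRight d) x - x| ≤ d.natAbs := by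
  simp

lemma E1_shift (d : ℤ) (F : bd ℤ) : E1 (cmp (Equiv.addRight d) F) = E1 F :=
  E1_inv (abs_addRight d) F

lemma E2_shift (d e : ℤ) (F : bd (ℤ × ℤ)) :
    E2 (cmp (Equiv.prodCongr (Equiv.addRight d) (Equiv.addRight e)) F) = E2 F :=
  E2_inv (R := d.natAbs + e.natAbs)
    (fun x => (abs_addRight d x).trans (by exact_mod_cast Nat.le_add_right _ _))
    (fun x => (abs_addRight e x).trans (by exact_mod_cast Nat.le_add_left _ _)) F

lemma sum_dvd {M : ℕ} (hM : 0 < M) (x : ℤ) :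
    ∑ i ∈ Finset.range M, (if (M : ℤ) ∣ x - i then (1 : ℝ) else 0) = 1 := by
  have hM' : (0 : ℤ) < M := by exact_mod_cast hM
  have h0 := Int.emod_nonneg x hM'.ne'
  have h1 := Int.emod_lt_of_pos x hM'
  have hd : (M : ℤ) ∣ x - x % M := Int.dvd_self_sub_emod
  rw [Finset.sum_eq_single (x % M).toNat]
  · rw [if_pos]
    rwa [Int.toNat_of_nonneg h0]
  · intro i hi hne
    rw [if_neg]
    intro hd'
    apply hne
    rw [Finset.mem_range] at hi
    have h2 := dvd_sub hd hd'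
    have e : x - x % M - (x - i) = i - x % M := by ring
    rw [e] at h2
    have h3 := Int.eq_zero_of_abs_lt_dvd h2 (by rw [abs_lt]; constructor <;> omega)
    omega
  · intro h
    exfalso
    apply h
    rw [Finset.mem_range]
    omega

lemma E2_dvd {M : ℕ} (hM : 0 < M) :
    E2 (ind (fun x : ℤ × ℤ => (M : ℤ) ∣ x.1 - x.2)) = 1 / M := by
  classical
  have h1 : ∑ i ∈ Finset.range M, cmp (Equiv.prodCongr (Equiv.addRight (0 : ℤ))
      (Equiv.addRight (i : ℤ))) (ind (fun x : ℤ × ℤ => (M : ℤ) ∣ x.1 - x.2)) = 1 := by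
    apply Subtype.ext
    funext x
    rw [sum_bd_apply]
    simp only [cmp_apply, ind_apply, Equiv.prodCongr_apply, Prod.map_fst, Prod.map_snd,
      Equiv.coe_addRight, add_zero]
    have : ∀ i : ℕ, x.1 - (x.2 + i) = (x.1 - x.2) - i := fun i => by ring
    simp only [this]
    rw [sum_dvd hM]
    rfl
  have h2 := congrArg E2 h1
  rw [map_sum, E2_one] at h2
  simp only [E2_shift] at h2
  rw [Finset.sum_const, Finset.card_range, nsmul_eq_mul] at h2
  have : (0 : ℝ) < M := by exact_mod_cast hM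
  field_simp
  linarith

lemma E1_dvd {M : ℕ} (hM : 0 < M) (r : ℤ) :
    E1 (ind (fun x : ℤ => (M : ℤ) ∣ x - r)) = 1 / M := by
  classical
  have h1 : ∑ i ∈ Finset.range M, cmp (Equiv.addRight (-(i : ℤ)))
      (ind (fun x : ℤ => (M : ℤ) ∣ x - r)) = 1 := by
    apply Subtype.ext
    funext x
    rw [sum_bd_apply]
    simp only [cmp_apply, ind_apply, Equiv.coe_addRight]
    have : ∀ i : ℕ, x + -(i : ℤ) - r = (x - r) - i := fun i => by ring
    simp only [this]
    rw [sum_dvd hM]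
    rfl
  have h2 := congrArg E1 h1
  rw [map_sum, E1_one] at h2
  simp only [E1_shift] at h2
  rw [Finset.sum_const, Finset.card_range, nsmul_eq_mul] at h2
  have : (0 : ℝ) < M := by exact_mod_cast hM
  field_simp
  linarith

end Pool.Agent.Helper94.Liou
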