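import Pool.Agent.Helper94.Liou.Walk

/-!
# Path estimates: the energy bound
-/

set_option autoImplicit false

namespace Pool.Agent.Helper94.Liou

open Filter Topology Finset Equiv

lemma w_cls' {p q : ℤ} (h : w p = w q) : (5 : ℤ) ∣ p - q := by
  have h1 := w_cls h
  have h2 := (ZMod.intCast_eq_intCast_iff_dvd_sub q p 5).mp h1.symm
  exact_mod_cast h2

/-- absolute value -/
def absb {X : Type*} (F : bd X) : bd X :=
  ⟨fun x => |F.1 x|, by
    obtain ⟨C, hC⟩ := F.2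
    exact ⟨C, fun x => by rw [abs_abs]; exact hC x⟩⟩

@[simp] lemma absb_apply {X : Type*} (F : bd X) (x : X) : (absb F).1 x = |F.1 x| := rfl

lemma abs_E2_le (F : bd (ℤ × ℤ)) : |E2 F| ≤ E2 (absb F) := by
  rw [abs_le]
  constructor
  · rw [← map_neg]
    exact E2_mono fun x => neg_abs_le _
  · exact E2_mono fun x => le_abs_self _

/-- the local energy -/
noncomputable def eb (F : bd (ℤ × ℤ)) : bd (ℤ × ℤ) := ∑ k : K, absb (T k F - F)

lemma eb_apply (F : bd (ℤ × ℤ)) (x : ℤ × ℤ) :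
    (eb F).1 x = ∑ k : K, |F.1 (sg k x.1, sg k x.2) - F.1 x| := by
  rw [eb, sum_bd_apply]; rfl

lemma eb_nonneg (F : bd (ℤ × ℤ)) (x : ℤ × ℤ) : 0 ≤ (eb F).1 x := by
  rw [eb_apply]
  exact Finset.sum_nonneg fun _ _ => abs_nonneg _

lemma step (F : bd (ℤ × ℤ)) (k : K) {p q p' q' : ℤ} (hp : sg k p = p') (hq : sg k q = q') :
    |F.1 (p', q') - F.1 (p, q)| ≤ (eb F).1 (p, q) := by
  rw [eb_apply, ← hp, ← hq]
  exact Finset.single_le_sum (f := fun k : K => |F.1 (sg k p, sg k q) - F.1 (p, q)|)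
    (fun _ _ => abs_nonneg _) (Finset.mem_univ k)

/-- the index of the positive generator -/
def kp (a : Alph) : K := ((a, true) : Alph × Bool)
/-- the index of the inverse generator -/
def kn (a : Alph) : K := ((a, false) : Alph × Bool)

lemma sg_kp (a : Alph) : sg (kp a) = γ a := by simp [sg, kp]
lemma sg_kn (a : Alph) : sg (kn a) = (γ a)⁻¹ := by simp [sg, kn]

/-- aligned move -/
lemma move_a (F : bd (ℤ × ℤ)) {p q : ℤ} (h : w p = w q) :
    |F.1 (p + 1, q + 1) - F.1 (p, q)| ≤ (eb F).1 (p, q) := by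
  apply step F (kp (w p))
  · rw [sg_kp]; exact γ_apply0 rfl
  · rw [sg_kp]; exact γ_apply0 h.symm

lemma move_b1 (F : bd (ℤ × ℤ)) {p q : ℤ} (h : (5 : ℤ) ∣ p - q) :
    |F.1 (p, q + 2) - F.1 (p, q + 1)| ≤ (eb F).1 (p, q + 1) := by
  apply step F (kp (w (q + 1)))
  · rw [sg_kp]
    apply γ_apply_not <;> intro h' <;> have := w_cls' h' <;> omega
  · rw [sg_kp, γ_apply0 rfl]; ring

lemma move_b2 (F : bd (ℤ × ℤ)) {p q : ℤ} (h : (5 : ℤ) ∣ p - q) :
    |F.1 (p + 1, q + 2) - F.1 (p, q + 2)| ≤ (eb F).1 (p, q + 2) := by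
  apply step F (kp (w (p - 1)))
  · rw [sg_kp, γ_apply1 rfl]
  · rw [sg_kp]
    apply γ_apply_not <;> intro h' <;> have := w_cls' h' <;> omega

lemma move_c (F : bd (ℤ × ℤ)) {p q : ℤ} (h : (5 : ℤ) ∣ p - q) (hw : w p ≠ w q) :
    |F.1 (p, q + 1) - F.1 (p, q)| ≤ (eb F).1 (p, q) := by
  apply step F (kp (w q))
  · rw [sg_kp]
    apply γ_apply_not
    · exact hw
    · intro h'; have := w_cls' h'; omega
    · intro h'; have := w_cls' h'; omega
  · rw [sg_kp, γ_apply0 rfl]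

lemma box_bound (F : bd (ℤ × ℤ)) {p q : ℤ} (h : w p = w q) (b : Bool) :
    |∑ i : Fin 3, ∑ j : Fin 3, ((if b then ![1, 1, -2] else ![2, -1, -1]) i : ℝ) *
      ((if b then ![1, 1, -2] else ![2, -1, -1]) j : ℝ) * F.1 (p + (i : ℤ), q + (j : ℤ))| ≤
    36 * (|F.1 (p, q) - F.1 (p, q + 1)| + ∑ i : Fin 3, ∑ j : Fin 3, (eb F).1 (p + (i : ℤ), q + (j : ℤ))) := by
  have hd : (5 : ℤ) ∣ p - q := w_cls' h
  have g0 : ∀ x, w x = w p → γ (w p) x = x + 1 := fun x hx => γ_apply0 hx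
  have g1 : ∀ x, w x = w p → γ (w p) (x + 1) = x + 2 := by
    intro x hx
    rw [γ_apply1 (by simpa using hx)]; ring
  have g2 : ∀ x, w x = w p → γ (w p) (x + 2) = x := by
    intro x hx
    rw [γ_apply2 (by simpa using hx)]; ring
  have hp : w p = w p := rfl
  have hq : w q = w p := h.symm
  have m0112 := step F (kp (w p)) (p := p) (q := q + 1) (p' := p + 1) (q' := q + 2)
    (by rw [sg_kp]; exact g0 p hp) (by rw [sg_kp]; exact g1 q hq)
  have m1220 := step F (kp (w p)) (p := p + 1) (q := q + 2) (p' := p + 2) (q' := q)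
    (by rw [sg_kp]; exact g1 p hp) (by rw [sg_kp]; exact g2 q hq)
  have m0210 := step F (kp (w p)) (p := p) (q := q + 2) (p' := p + 1) (q' := q)
    (by rw [sg_kp]; exact g0 p hp) (by rw [sg_kp]; exact g2 q hq)
  have m1021 := step F (kp (w p)) (p := p + 1) (q := q) (p' := p + 2) (q' := q + 1)
    (by rw [sg_kp]; exact g1 p hp) (by rw [sg_kp]; exact g0 q hq)
  have m0011 := step F (kp (w p)) (p := p) (q := q) (p' := p + 1) (q' := q + 1)
    (by rw [sg_kp]; exact g0 p hp) (by rw [sg_kp]; exact g0 q hq)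
  have m1122 := step F (kp (w p)) (p := p + 1) (q := q + 1) (p' := p + 2) (q' := q + 2)
    (by rw [sg_kp]; exact g1 p hp) (by rw [sg_kp]; exact g1 q hq)
  have m0102 := move_b1 F hd
  have e00 := eb_nonneg F (p, q)
  have e01 := eb_nonneg F (p, q + 1)
  have e02 := eb_nonneg F (p, q + 2)
  have e10 := eb_nonneg F (p + 1, q)
  have e11 := eb_nonneg F (p + 1, q + 1)
  have e12 := eb_nonneg F (p + 1, q + 2)
  have e20 := eb_nonneg F (p + 2, q)
  have e21 := eb_nonneg F (p + 2, q + 1)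
  have e22 := eb_nonneg F (p + 2, q + 2)
  have hD := abs_nonneg (F.1 (p, q) - F.1 (p, q + 1))
  have hD1 := neg_abs_le (F.1 (p, q) - F.1 (p, q + 1))
  have hD2 := le_abs_self (F.1 (p, q) - F.1 (p, q + 1))
  rw [abs_le] at m0112 m1220 m0210 m1021 m0011 m1122 m0102
  rw [abs_le]
  cases b <;> simp [Fin.sum_univ_three] <;> constructor <;> linarith [m0112.1, m0112.2, m1220.1,
    m1220.2, m0210.1, m0210.2, m1021.1, m1021.2, m0011.1, m0011.2, m1122.1, m1122.2, m0102.1,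
    m0102.2]

/-- the one-sided difference -/
noncomputable def Db (F : bd (ℤ × ℤ)) : bd (ℤ × ℤ) :=
  absb (F - cmp (fun x : ℤ × ℤ => (x.1, x.2 + 1)) F)

lemma Db_apply (F : bd (ℤ × ℤ)) (p q : ℤ) :
    (Db F).1 (p, q) = |F.1 (p, q) - F.1 (p, q + 1)| := rfl

/-- the local error in the telescoping -/
noncomputable def Eh (F : bd (ℤ × ℤ)) : bd (ℤ × ℤ) :=
  eb F + cmp (fun x : ℤ × ℤ => (x.1, x.2 + 1)) (eb F) + cmp (fun x : ℤ × ℤ => (x.1, x.2 + 2)) (eb F)

lemma Eh_apply (F : bd (ℤ × ℤ)) (p q : ℤ) :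
    (Eh F).1 (p, q) = (eb F).1 (p, q) + (eb F).1 (p, q + 1) + (eb F).1 (p, q + 2) := rfl

lemma Eh_nonneg (F : bd (ℤ × ℤ)) (x : ℤ × ℤ) : 0 ≤ (Eh F).1 x := by
  obtain ⟨p, q⟩ := x
  rw [Eh_apply]
  have := eb_nonneg F (p, q)
  have := eb_nonneg F (p, q + 1)
  have := eb_nonneg F (p, q + 2)
  linarith

lemma D_step (F : bd (ℤ × ℤ)) {p q : ℤ} (h : (5 : ℤ) ∣ p - q) :
    (Db F).1 (p, q) ≤ (Eh F).1 (p, q) ∨
      (w p = w q ∧ (Db F).1 (p, q) ≤ (Eh F).1 (p, q) + (Db F).1 (p + 1, q + 1)) := by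
  rw [Db_apply, Db_apply, Eh_apply]
  have e00 := eb_nonneg F (p, q)
  have e01 := eb_nonneg F (p, q + 1)
  have e02 := eb_nonneg F (p, q + 2)
  by_cases hw : w p = w q
  · right
    refine ⟨hw, ?_⟩
    have ma := move_a F hw
    have mb1 := move_b1 F h
    have mb2 := move_b2 F h
    have e : q + 1 + 1 = q + 2 := by ring
    rw [e]
    have hD := abs_nonneg (F.1 (p + 1, q + 1) - F.1 (p + 1, q + 2))
    have hD1 := neg_abs_le (F.1 (p + 1, q + 1) - F.1 (p + 1, q + 2))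
    have hD2 := le_abs_self (F.1 (p + 1, q + 1) - F.1 (p + 1, q + 2))
    rw [abs_le] at ma mb1 mb2
    rw [abs_le]
    constructor <;> linarith [ma.1, ma.2, mb1.1, mb1.2, mb2.1, mb2.2]
  · left
    have := move_c F h hw
    rw [abs_sub_comm]
    linarith

/-- agreement on the window `[0, n)` -/
def AgrR (n : ℕ) (p q : ℤ) : Prop := ∀ t : ℤ, 0 ≤ t → t < n → w (p + t) = w (q + t)

/-- indicator of agreement -/
noncomputable def ag (n : ℕ) : bd (ℤ × ℤ) := ind (fun x => AgrR n x.1 x.2)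

lemma ag_nonneg (n : ℕ) (x : ℤ × ℤ) : 0 ≤ (ag n).1 x := ind_nonneg _ _

lemma D_iter (F : bd (ℤ × ℤ)) {p q : ℤ} (h : (5 : ℤ) ∣ p - q) (L : ℕ) :
    (Db F).1 (p, q) ≤ ∑ n ∈ Finset.range L, (ag n).1 (p, q) * (Eh F).1 (p + n, q + n) +
      (ag L).1 (p, q) * (Db F).1 (p + L, q + L) := by
  induction L with
  | zero =>
    have : (ag 0).1 (p, q) = 1 := ind_true (by intro t h1 h2; push_cast at h2; omega)
    rw [this]; simp
  | succ L ih =>
    refine ih.trans ?_
    rw [Finset.sum_range_succ, add_assoc]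
    apply add_le_add le_rfl
    have hd : (5 : ℤ) ∣ (p + L) - (q + L) := by
      have : (p + L) - (q + L) = p - q := by ring
      rwa [this]
    by_cases hag : AgrR L p q
    · have h1 : (ag L).1 (p, q) = 1 := ind_true hag
      rw [h1, one_mul, one_mul]
      rcases D_step F hd with h2 | ⟨hw, h2⟩
      · have h3 := ag_nonneg (L + 1) (p, q)
        have h4 : 0 ≤ (Db F).1 (p + (L + 1 : ℕ), q + (L + 1 : ℕ)) := abs_nonneg _
        nlinarith [mul_nonneg h3 h4]
      · have hag' : AgrR (L + 1) p q := by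
          intro t h3 h4
          by_cases h5 : t < L
          · exact hag t h3 h5
          · have : t = L := by push_cast at h4; omega
            rw [this]; exact hw
        have h3 : (ag (L + 1)).1 (p, q) = 1 := ind_true hag'
        rw [h3, one_mul]
        push_cast
        rw [← add_assoc, ← add_assoc]
        exact h2
    · have h1 : (ag L).1 (p, q) = 0 := ind_false hag
      rw [h1, zero_mul, zero_mul, zero_add]
      exact mul_nonneg (ag_nonneg _ _) (abs_nonneg _)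

end Pool.Agent.Helper94.Liou
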