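import Mathlib

/-!
# A minimal Toeplitz sequence with small collision probability

`lnd β p` is the lowest nonzero digit of `p` in base `β` (and `1` for `p = 0`).
`w p = (p mod 5, lnd 3 p, lnd 4 p, lnd 5 p, lnd 7 p)`.
-/

set_option autoImplicit false

namespace Pool.Agent.Helper94.Liou

/-- The lowest nonzero base-`β` digit of `p` (with value `1` at `p = 0`). -/
def lnd (β : ℕ) (p : ℤ) : ℤ :=
  if h : p = 0 ∨ β < 2 then 1
  else if (β : ℤ) ∣ p then lnd β (p / β) else p % β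
termination_by p.natAbs
decreasing_by
  push Not at h
  obtain ⟨hp, hβ⟩ := h
  have _h2 : (2 : ℤ) ≤ β := by exact_mod_cast hβ
  rename_i hd
  obtain ⟨c, rfl⟩ := hd
  have hβ0 : (β : ℤ) ≠ 0 := by positivity
  rw [Int.mul_ediv_cancel_left _ hβ0, Int.natAbs_mul]
  have hc : c ≠ 0 := by rintro rfl; simp at hp
  have hc' : 0 < c.natAbs := Int.natAbs_pos.mpr hc
  simp only [Int.natAbs_natCast]
  nlinarith

lemma lnd_of_not_dvd {β : ℕ} (hβ : 2 ≤ β) {p : ℤ} (h : ¬ (β : ℤ) ∣ p) : lnd β p = p % β := by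
  have hp : p ≠ 0 := by rintro rfl; simp at h
  rw [lnd]
  simp [hp, h, not_lt.mpr hβ]

lemma lnd_zero (β : ℕ) : lnd β 0 = 1 := by
  rw [lnd]; simp

lemma lnd_mul {β : ℕ} (hβ : 2 ≤ β) (p : ℤ) : lnd β (β * p) = lnd β p := by
  by_cases hp : p = 0
  · subst hp; simp
  · have hβ0 : (β : ℤ) ≠ 0 := by positivity
    conv_lhs => rw [lnd]
    simp [hp, not_lt.mpr hβ, Int.mul_ediv_cancel_left _ hβ0]
    intro h
    omega

lemma lnd_pow_mul {β : ℕ} (hβ : 2 ≤ β) (J : ℕ) (p : ℤ) : lnd β ((β : ℤ) ^ J * p) = lnd β p := by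
  induction J with
  | zero => simp
  | succ J ih => rw [pow_succ', mul_assoc, lnd_mul hβ, ih]

/-- recurrence: adding a multiple of `β ^ J` does not change the lowest nonzero digit of `t`,
for `0 < |t| < β ^ J`. -/
lemma lnd_add {β : ℕ} (hβ : 2 ≤ β) (J : ℕ) : ∀ (y t : ℤ), (β : ℤ) ^ J ∣ y → t ≠ 0 →
    |t| < (β : ℤ) ^ J → lnd β (y + t) = lnd β t := by
  induction J with
  | zero =>
    intro y t _ ht h
    simp at h
    exact absurd h ht
  | succ J ih =>
    intro y t hy ht h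
    have hβ0 : (0 : ℤ) < β := by positivity
    have hβy : (β : ℤ) ∣ y := (dvd_pow_self _ (Nat.succ_ne_zero J)).trans hy
    by_cases hd : (β : ℤ) ∣ t
    · obtain ⟨t', rfl⟩ := hd
      obtain ⟨y', rfl⟩ := hβy
      rw [← mul_add, lnd_mul hβ, lnd_mul hβ]
      apply ih
      · rw [pow_succ'] at hy
        exact (mul_dvd_mul_iff_left hβ0.ne').mp hy
      · rintro rfl; simp at ht
      · rw [abs_mul, abs_of_pos hβ0, pow_succ'] at h
        exact lt_of_mul_lt_mul_left h hβ0.le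
    · have hd' : ¬ (β : ℤ) ∣ (y + t) := by
        intro h'
        exact hd ((dvd_add_right hβy).mp h')
      rw [lnd_of_not_dvd hβ hd, lnd_of_not_dvd hβ hd']
      obtain ⟨y', rfl⟩ := hβy
      rw [Int.mul_add_emod_self_left]

/-- collision: agreement of the lowest nonzero digits on a window of length `β ^ J` forces
congruence modulo `β ^ J`. -/
lemma lnd_collision {β : ℕ} (hβ : 3 ≤ β) (J : ℕ) : ∀ (p q : ℤ),
    (∀ t : ℤ, 0 ≤ t → t < (β : ℤ) ^ J → ((lnd β (p + t) : ℤ) : ZMod β) = (lnd β (q + t) : ℤ)) →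
    (β : ℤ) ^ J ∣ p - q := by
  have h2 : 2 ≤ β := by omega
  have hβ0 : (0 : ℤ) < β := by positivity
  have h3 : (3 : ℤ) ≤ β := by exact_mod_cast hβ
  induction J with
  | zero => intro p q _; simp
  | succ J ih =>
    intro p q h
    have hpow : (1 : ℤ) ≤ (β : ℤ) ^ J := one_le_pow₀ (by omega)
    have hpow' : (β : ℤ) ≤ (β : ℤ) ^ (J + 1) := by
      rw [pow_succ']; nlinarith
    -- first : β ∣ p - q
    have hdvd : (β : ℤ) ∣ p - q := by
      by_contra hnd
      have key : ∀ t : ℤ, 0 ≤ t → t < 3 → (β : ℤ) ∣ p + t ∨ (β : ℤ) ∣ q + t := by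
        intro t ht0 ht3
        by_contra hcon
        push Not at hcon
        obtain ⟨h1, h1'⟩ := hcon
        have := h t ht0 (by omega)
        rw [lnd_of_not_dvd h2 h1, lnd_of_not_dvd h2 h1'] at this
        rw [ZMod.intCast_eq_intCast_iff_dvd_sub] at this
        apply hnd
        have e1 : (β : ℤ) ∣ (p + t) - (p + t) % β := Int.dvd_self_sub_emod
        have e2 : (β : ℤ) ∣ (q + t) - (q + t) % β := Int.dvd_self_sub_emod
        have e3 := dvd_add (dvd_sub e1 e2) (dvd_neg.mpr this)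
        have e4 : (p + t - (p + t) % ↑β - (q + t - (q + t) % ↑β)) + -((q + t) % ↑β - (p + t) % ↑β)
          = p - q := by ring
        rwa [e4] at e3
      have u : ∀ (x s t : ℤ), 0 ≤ s → s < 3 → 0 ≤ t → t < 3 → (β : ℤ) ∣ x + s → (β : ℤ) ∣ x + t →
          s = t := by
        intro x s t hs hs' ht ht' h1 h2
        have := dvd_sub h1 h2
        have e : x + s - (x + t) = s - t := by ring
        rw [e] at this
        have hz := Int.eq_zero_of_abs_lt_dvd this (by rw [abs_lt]; constructor <;> omega)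
        omega
      rcases key 0 (by norm_num) (by norm_num) with k0 | k0 <;>
      rcases key 1 (by norm_num) (by norm_num) with k1 | k1 <;>
      rcases key 2 (by norm_num) (by norm_num) with k2 | k2
      · have := u p 0 1 (by norm_num) (by norm_num) (by norm_num) (by norm_num) k0 k1; omega
      · have := u p 0 1 (by norm_num) (by norm_num) (by norm_num) (by norm_num) k0 k1; omega
      · have := u p 0 2 (by norm_num) (by norm_num) (by norm_num) (by norm_num) k0 k2; omega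
      · have := u q 1 2 (by norm_num) (by norm_num) (by norm_num) (by norm_num) k1 k2; omega
      · have := u p 1 2 (by norm_num) (by norm_num) (by norm_num) (by norm_num) k1 k2; omega
      · have := u q 0 2 (by norm_num) (by norm_num) (by norm_num) (by norm_num) k0 k2; omega
      · have := u q 0 1 (by norm_num) (by norm_num) (by norm_num) (by norm_num) k0 k1; omega
      · have := u q 0 1 (by norm_num) (by norm_num) (by norm_num) (by norm_num) k0 k1; omega
    -- choose t₀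
    set t₀ : ℤ := (-p) % β with ht₀
    have ht₀0 : 0 ≤ t₀ := Int.emod_nonneg _ hβ0.ne'
    have ht₀1 : t₀ < β := Int.emod_lt_of_pos _ hβ0
    have hp : (β : ℤ) ∣ p + t₀ := by
      have : (β : ℤ) ∣ (-p) - (-p) % β := Int.dvd_self_sub_emod
      have h' := dvd_neg.mpr this
      have e : -(-p - (-p) % (β : ℤ)) = p + t₀ := by rw [ht₀]; ring
      rwa [e] at h'
    obtain ⟨p₁, hp₁⟩ := hp
    have hq : (β : ℤ) ∣ q + t₀ := by
      have : q + t₀ = (p + t₀) - (p - q) := by ring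
      rw [this, hp₁]
      exact dvd_sub (dvd_mul_right _ _) hdvd
    obtain ⟨q₁, hq₁⟩ := hq
    have hih : (β : ℤ) ^ J ∣ p₁ - q₁ := by
      apply ih
      intro s hs hs'
      have h1 := h (t₀ + β * s) (by positivity) (by rw [pow_succ']; nlinarith)
      have e1 : p + (t₀ + β * s) = β * (p₁ + s) := by rw [← add_assoc, hp₁]; ring
      have e2 : q + (t₀ + β * s) = β * (q₁ + s) := by rw [← add_assoc, hq₁]; ring
      rw [e1, e2, lnd_mul h2, lnd_mul h2] at h1
      exact h1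
    have e : p - q = β * (p₁ - q₁) := by linarith
    rw [e, pow_succ']
    exact mul_dvd_mul_left _ hih

/-- The alphabet. -/
def Alph : Type := ZMod 5 × ZMod 3 × ZMod 4 × ZMod 5 × ZMod 7

instance : Finite Alph := inferInstanceAs (Finite (ZMod 5 × ZMod 3 × ZMod 4 × ZMod 5 × ZMod 7))

noncomputable instance : Fintype Alph := Fintype.ofFinite Alph

noncomputable instance : DecidableEq Alph := Classical.decEq Alph

/-- The sequence. -/
def w (p : ℤ) : Alph :=
  (((p : ZMod 5), ((lnd 3 p : ℤ) : ZMod 3), ((lnd 4 p : ℤ) : ZMod 4),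
  ((lnd 5 p : ℤ) : ZMod 5), ((lnd 7 p : ℤ) : ZMod 7)) :
    ZMod 5 × ZMod 3 × ZMod 4 × ZMod 5 × ZMod 7)

lemma w_cls {p q : ℤ} (h : w p = w q) : (p : ZMod 5) = (q : ZMod 5) := congrArg Prod.fst h

/-- collisions -/
lemma w_coll (n : ℕ) (hn : 1 ≤ n) : ∃ M : ℕ, 0 < M ∧ n ^ 4 ≤ 420 * M ∧ ∀ p q : ℤ,
    (∀ t : ℤ, 0 ≤ t → t < n → w (p + t) = w (q + t)) → (M : ℤ) ∣ p - q := by
  have hn0 : n ≠ 0 := by omega
  refine ⟨3 ^ Nat.log 3 n * 4 ^ Nat.log 4 n * 5 ^ Nat.log 5 n * 7 ^ Nat.log 7 n, by positivity,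
    ?_, ?_⟩
  · have h3 : n ≤ 3 * 3 ^ Nat.log 3 n := by
      have := (Nat.lt_pow_succ_log_self (by norm_num : 1 < 3) n).le
      rw [pow_succ'] at this; exact this
    have h4 : n ≤ 4 * 4 ^ Nat.log 4 n := by
      have := (Nat.lt_pow_succ_log_self (by norm_num : 1 < 4) n).le
      rw [pow_succ'] at this; exact this
    have h5 : n ≤ 5 * 5 ^ Nat.log 5 n := by
      have := (Nat.lt_pow_succ_log_self (by norm_num : 1 < 5) n).le
      rw [pow_succ'] at this; exact this
    have h7 : n ≤ 7 * 7 ^ Nat.log 7 n := by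
      have := (Nat.lt_pow_succ_log_self (by norm_num : 1 < 7) n).le
      rw [pow_succ'] at this; exact this
    calc n ^ 4 = n * n * n * n := by ring
      _ ≤ (3 * 3 ^ Nat.log 3 n) * (4 * 4 ^ Nat.log 4 n) * (5 * 5 ^ Nat.log 5 n)
          * (7 * 7 ^ Nat.log 7 n) := by gcongr
      _ = 420 * (3 ^ Nat.log 3 n * 4 ^ Nat.log 4 n * 5 ^ Nat.log 5 n * 7 ^ Nat.log 7 n) := by ring
  · intro p q h
    have hle : ∀ β : ℕ, 1 < β → ∀ t : ℤ, t < (β : ℤ) ^ Nat.log β n → t < n := by
      intro β hβ t ht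
      have : β ^ Nat.log β n ≤ n := Nat.pow_log_le_self β hn0
      have h' : (β : ℤ) ^ Nat.log β n ≤ n := by exact_mod_cast this
      exact lt_of_lt_of_le ht h'
    have d3 : ((3 : ℕ) : ℤ) ^ Nat.log 3 n ∣ p - q := by
      apply lnd_collision (by norm_num)
      intro t ht ht'
      exact congrArg (fun x : Alph => x.2.1) (h t ht (hle 3 (by norm_num) t ht'))
    have d4 : ((4 : ℕ) : ℤ) ^ Nat.log 4 n ∣ p - q := by
      apply lnd_collision (by norm_num)
      intro t ht ht'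
      exact congrArg (fun x : Alph => x.2.2.1) (h t ht (hle 4 (by norm_num) t ht'))
    have d5 : ((5 : ℕ) : ℤ) ^ Nat.log 5 n ∣ p - q := by
      apply lnd_collision (by norm_num)
      intro t ht ht'
      exact congrArg (fun x : Alph => x.2.2.2.1) (h t ht (hle 5 (by norm_num) t ht'))
    have d7 : ((7 : ℕ) : ℤ) ^ Nat.log 7 n ∣ p - q := by
      apply lnd_collision (by norm_num)
      intro t ht ht'
      exact congrArg (fun x : Alph => x.2.2.2.2) (h t ht (hle 7 (by norm_num) t ht'))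
    push_cast at d3 d4 d5 d7 ⊢
    have c34 : IsCoprime ((3 : ℤ) ^ Nat.log 3 n) (4 ^ Nat.log 4 n) :=
      IsCoprime.pow (by norm_num)
    have c345 : IsCoprime ((3 : ℤ) ^ Nat.log 3 n * 4 ^ Nat.log 4 n) (5 ^ Nat.log 5 n) :=
      IsCoprime.mul_left (IsCoprime.pow (by norm_num)) (IsCoprime.pow (by norm_num))
    have c3457 : IsCoprime ((3 : ℤ) ^ Nat.log 3 n * 4 ^ Nat.log 4 n * 5 ^ Nat.log 5 n)
        (7 ^ Nat.log 7 n) :=
      IsCoprime.mul_left (IsCoprime.mul_left (IsCoprime.pow (by norm_num))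
        (IsCoprime.pow (by norm_num))) (IsCoprime.pow (by norm_num))
    exact c3457.mul_dvd (c345.mul_dvd (c34.mul_dvd d3 d4) d5) d7

/-- agreement of the windows of radius `n` around `p` and `q`. -/
def Agr (n : ℕ) (p q : ℤ) : Prop := ∀ t : ℤ, |t| ≤ n → w (p + t) = w (q + t)

lemma lnd_special {β c : ℕ} (hβ : 3 ≤ β) (hc : β * c = 420) (hc6 : ((c : ℕ) : ZMod β) ^ 6 = 1)
    (m : ℕ) (k : ℤ) :
    ((lnd β (420 ^ (6 * m) * (1 + 420 * k)) : ℤ) : ZMod β) = 1 := by
  have h2 : 2 ≤ β := by omega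
  have e : (420 : ℤ) ^ (6 * m) * (1 + 420 * k)
      = (β : ℤ) ^ (6 * m) * ((c : ℤ) ^ (6 * m) * (1 + 420 * k)) := by
    rw [← mul_assoc, ← mul_pow]
    congr 2
    exact_mod_cast hc.symm
  rw [e, lnd_pow_mul h2]
  set z : ℤ := (c : ℤ) ^ (6 * m) * (1 + 420 * k) with hz
  have hzβ : ((z : ℤ) : ZMod β) = 1 := by
    have h420 : ((420 : ℕ) : ZMod β) = 0 := by
      rw [← hc]; push_cast; simp
    have h420' : (420 : ZMod β) = 0 := by exact_mod_cast h420
    rw [hz]; push_cast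
    rw [pow_mul, hc6, h420']; simp
  have hnd : ¬ (β : ℤ) ∣ z := by
    intro h
    have h0 : ((z : ℤ) : ZMod β) = 0 := (ZMod.intCast_zmod_eq_zero_iff_dvd z β).mpr h
    rw [hzβ] at h0
    have h1 : ((1 : ℕ) : ZMod β) = 0 := by exact_mod_cast h0
    rw [ZMod.natCast_eq_zero_iff] at h1
    have := Nat.le_of_dvd (by norm_num) h1
    omega
  rw [lnd_of_not_dvd h2 hnd]
  rw [ZMod.intCast_mod]
  exact hzβ

lemma w_rec (n : ℕ) : ∃ B : ℕ, ∀ x : ℤ, ∃ y : ℤ, x ≤ y ∧ y ≤ x + B ∧
    ∀ t : ℤ, |t| ≤ n → w (y + t) = w t := by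
  set J : ℕ := 6 * (n + 1) with hJ
  refine ⟨420 ^ (J + 1), fun x => ?_⟩
  set K : ℤ := 420 ^ (J + 1) with hK
  have hK0 : 0 < K := by positivity
  -- choose k with y = 420 ^ J * (1 + 420 k) = 420 ^ J + K k in [x, x + K)
  set k : ℤ := -((420 ^ J - x) / K) with hk
  set y : ℤ := 420 ^ J * (1 + 420 * k) with hy
  have hy' : y = 420 ^ J + K * k := by rw [hy, hK, pow_succ]; ring
  have h1 : y - x = (420 ^ J - x) % K := by
    rw [hy', hk, Int.emod_def]; ring
  have h2 := Int.emod_nonneg (420 ^ J - x) hK0.ne'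
  have h3 := Int.emod_lt_of_pos (420 ^ J - x) hK0
  refine ⟨y, by omega, by push_cast; omega, ?_⟩
  intro t ht
  have hlt : ∀ β : ℕ, 2 ≤ β → |t| < (β : ℤ) ^ J := by
    intro β hβ
    have h4 : n < β ^ J := by
      calc n < β ^ n := Nat.lt_pow_self (by omega)
        _ ≤ β ^ J := Nat.pow_le_pow_right (by omega) (by omega)
    have h5 : (n : ℤ) < (β : ℤ) ^ J := by exact_mod_cast h4
    omega
  have hdvd : ∀ β c : ℕ, β * c = 420 → (β : ℤ) ^ J ∣ y := by
    intro β c hc
    rw [hy]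
    apply Dvd.dvd.mul_right
    apply pow_dvd_pow_of_dvd
    exact ⟨c, by exact_mod_cast hc.symm⟩
  have h5 : (5 : ℤ) ∣ y := by
    have := hdvd 5 84 (by norm_num)
    exact (dvd_pow_self (5 : ℤ) (by omega : J ≠ 0)).trans (by exact_mod_cast this)
  have hcls : ((y + t : ℤ) : ZMod 5) = (t : ZMod 5) := by
    push_cast
    have : ((y : ℤ) : ZMod 5) = 0 := (ZMod.intCast_zmod_eq_zero_iff_dvd y 5).mpr (by exact_mod_cast h5)
    rw [this, zero_add]
  by_cases ht0 : t = 0
  · subst ht0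
    rw [add_zero] at hcls ⊢
    have s3 := lnd_special (β := 3) (c := 140) (by norm_num) (by norm_num) (by decide) (n + 1) k
    have s4 := lnd_special (β := 4) (c := 105) (by norm_num) (by norm_num) (by decide) (n + 1) k
    have s5 := lnd_special (β := 5) (c := 84) (by norm_num) (by norm_num) (by decide) (n + 1) k
    have s7 := lnd_special (β := 7) (c := 60) (by norm_num) (by norm_num) (by decide) (n + 1) k
    rw [← hJ, ← hy] at s3 s4 s5 s7
    simp only [w, hcls, s3, s4, s5, s7, lnd_zero, Int.cast_one]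
  · have e3 := lnd_add (β := 3) (by norm_num) J y t (hdvd 3 140 (by norm_num)) ht0 (hlt 3 (by norm_num))
    have e4 := lnd_add (β := 4) (by norm_num) J y t (hdvd 4 105 (by norm_num)) ht0 (hlt 4 (by norm_num))
    have e5 := lnd_add (β := 5) (by norm_num) J y t (hdvd 5 84 (by norm_num)) ht0 (hlt 5 (by norm_num))
    have e7 := lnd_add (β := 7) (by norm_num) J y t (hdvd 7 60 (by norm_num)) ht0 (hlt 7 (by norm_num))
    simp only [w, hcls, e3, e4, e5, e7]

/-- every window recurs with bounded gaps -/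
lemma w_rec' (n : ℕ) (p : ℤ) : ∃ B : ℕ, ∀ x : ℤ, ∃ y : ℤ, x ≤ y ∧ y ≤ x + B ∧ Agr n y p := by
  obtain ⟨B, hB⟩ := w_rec (n + p.natAbs)
  refine ⟨B, fun x => ?_⟩
  obtain ⟨y, h1, h2, h3⟩ := hB (x - p)
  refine ⟨y + p, by omega, by omega, ?_⟩
  intro t ht
  have := h3 (p + t) (by
    have := abs_add_le p t
    push_cast
    omega)
  rw [add_assoc]
  exact this

/-- separation of occurrences -/
lemma w_sep (L : ℕ) : ∃ n : ℕ, ∀ p q : ℤ, p ≠ q → Agr n p q → (L : ℤ) ≤ |p - q| := by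
  refine ⟨5 ^ L, fun p q hpq h => ?_⟩
  have hd : ((5 : ℕ) : ℤ) ^ L ∣ p - q := by
    apply lnd_collision (by norm_num)
    intro t ht ht'
    have := h t (by push_cast; rw [abs_of_nonneg ht]; exact_mod_cast ht'.le)
    exact congrArg (fun x : Alph => x.2.2.2.1) this
  have h1 : (((5 : ℕ) : ℤ) ^ L) ≤ |p - q| := by
    apply Int.le_of_dvd (by rw [abs_pos]; omega)
    rwa [dvd_abs]
  have h2 : L < 5 ^ L := Nat.lt_pow_self (by norm_num)
  have h3 : (L : ℤ) < ((5 : ℕ) : ℤ) ^ L := by exact_mod_cast h2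
  omega

lemma w_dens (k : ℤ) : w (1 + 420 * k) = w 1 := by
  have h : ∀ β c : ℕ, 2 ≤ β → β * c = 420 → ((lnd β (1 + 420 * k) : ℤ) : ZMod β) = 1 := by
    intro β c hβ hc
    have e : (1 : ℤ) + 420 * k = 1 + (β : ℤ) * (c * k) := by
      have : (420 : ℤ) = β * c := by exact_mod_cast hc.symm
      rw [this]; ring
    have hnd : ¬ (β : ℤ) ∣ 1 + 420 * k := by
      rw [e]
      intro h
      rw [dvd_add_left (dvd_mul_right _ _)] at h
      have := Int.le_of_dvd one_pos h
      omega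
    rw [lnd_of_not_dvd hβ hnd, ZMod.intCast_mod, e]
    push_cast
    simp
  have h' : ∀ β c : ℕ, 2 ≤ β → β * c = 420 → ((lnd β 1 : ℤ) : ZMod β) = 1 := by
    intro β c hβ hc
    have hnd : ¬ (β : ℤ) ∣ 1 := by
      intro h
      have := Int.le_of_dvd one_pos h
      omega
    rw [lnd_of_not_dvd hβ hnd, ZMod.intCast_mod]
    simp
  have hcls : (((1 : ℤ) + 420 * k : ℤ) : ZMod 5) = ((1 : ℤ) : ZMod 5) := by
    push_cast
    have : (420 : ZMod 5) = 0 := by decide
    rw [this]; simp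
  have a3 := h 3 140 (by norm_num) (by norm_num)
  have a4 := h 4 105 (by norm_num) (by norm_num)
  have a5 := h 5 84 (by norm_num) (by norm_num)
  have a7 := h 7 60 (by norm_num) (by norm_num)
  have b3 := h' 3 140 (by norm_num) (by norm_num)
  have b4 := h' 4 105 (by norm_num) (by norm_num)
  have b5 := h' 5 84 (by norm_num) (by norm_num)
  have b7 := h' 7 60 (by norm_num) (by norm_num)
  simp only [w, hcls, a3, a4, a5, a7, b3, b4, b5, b7]

end Pool.Agent.Helper94.Liou
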