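import Pool.Agent.Helper94.Liou.MeanX

/-!
# Stabilisers of standard configurations are locally finite
-/

set_option autoImplicit false

namespace Pool.Agent.Helper94.Liou

open Equiv

lemma Loc.mono {R S : ℕ} (h : R ≤ S) {g : Perm ℤ} (hg : Loc R g) : Loc S g :=
  ⟨fun x => (hg.1 x).trans (by exact_mod_cast h), fun p q H => hg.2 p q (H.mono h)⟩

lemma common_loc (S : Finset G) : ∃ R : ℕ, ∀ s ∈ S, Loc R s.1 := by
  classical
  induction S using Finset.induction_on with
  | empty => exact ⟨0, by simp⟩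
  | insert a S ha ih =>
    obtain ⟨R, hR⟩ := ih
    obtain ⟨R', hR'⟩ := G_loc a.2
    refine ⟨R + R', fun s hs => ?_⟩
    rcases Finset.mem_insert.mp hs with rfl | hs
    · exact hR'.mono (by omega)
    · exact (hR s hs).mono (by omega)

lemma ret_pres {T : Set ℤ} {m R : ℕ} (hT : ∀ p : ℤ, (m : ℤ) < |p| → (p ∈ T ↔ 0 < p))
    {s : Perm ℤ} (hs : Loc R s) (hsT : act s T = T) {y : ℤ} (hy : Agr (m + 2 * R) y 0) (p : ℤ) :
    p - y ∈ T ↔ s p - y ∈ T := by
  have hd := hs.1 p
  by_cases h : |p - y| ≤ m + R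
  · have h1 : Agr R (y + (p - y)) (0 + (p - y)) := by
      apply Agr.shift (m := m + R)
      · push_cast; exact h
      · exact Agr.mono (by omega) hy
    have e1 : y + (p - y) = p := by ring
    rw [e1, zero_add] at h1
    have h2 := hs.2 _ _ h1
    have h3 : s p - y = s (p - y) := by omega
    rw [h3]
    conv_rhs => rw [← hsT]
    rw [mem_act, pinv_apply]
  · rw [not_le] at h
    rw [abs_le] at hd
    rcases le_total 0 (p - y) with h4 | h4
    · rw [abs_of_nonneg h4] at h
      rw [hT _ (by rw [abs_of_nonneg (by omega)]; omega), hT _ (by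
        rw [abs_of_nonneg (by omega)]; omega)]
      constructor <;> intro <;> omega
    · rw [abs_of_nonpos h4] at h
      rw [hT _ (by rw [abs_of_nonpos (by omega)]; omega), hT _ (by
        rw [abs_of_nonpos (by omega)]; omega)]
      constructor <;> intro <;> omega

lemma closure_pres {T : Set ℤ} {m R : ℕ} (hT : ∀ p : ℤ, (m : ℤ) < |p| → (p ∈ T ↔ 0 < p))
    {S : Set G} (hS : ∀ s ∈ S, Loc R s.1) (hS' : ∀ s ∈ S, act s.1 T = T) {y : ℤ}
    (hy : Agr (m + 2 * R) y 0) {k : G} (hk : k ∈ Subgroup.closure S) :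
    ∀ p : ℤ, p - y ∈ T ↔ k.1 p - y ∈ T := by
  induction hk using Subgroup.closure_induction with
  | mem x hx => exact ret_pres hT (hS x hx) (hS' x hx) hy
  | one => intro p; rfl
  | mul a b _ _ ha hb =>
    intro p
    rw [hb p, ha (b.1 p)]
    rfl
  | inv a _ ha =>
    intro p
    have h1 : a.1 ((a⁻¹).1 p) = p := papply_inv a.1 p
    have h2 := ha ((a⁻¹).1 p)
    rw [h1] at h2
    exact h2.symm

lemma orbit_bound {T : Set ℤ} (hT : Std T) (S : Finset G) (hS : ∀ s ∈ S, act s.1 T = T) :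
    ∃ C : ℕ, ∀ k ∈ Subgroup.closure (S : Set G), ∀ x, |k.1 x - x| ≤ C := by
  obtain ⟨m, hm⟩ := hT
  obtain ⟨R, hR⟩ := common_loc S
  obtain ⟨B, hB⟩ := w_rec' (m + 2 * R) 0
  refine ⟨2 * m + 1 + B, fun k hk x => ?_⟩
  obtain ⟨y, h1, h2, h3⟩ := hB (x - m - 1 - B)
  obtain ⟨y', h1', h2', h3'⟩ := hB (x + m + 1)
  have hp := closure_pres hm (S := (S : Set G)) hR hS h3 hk x
  have hp' := closure_pres hm (S := (S : Set G)) hR hS h3' hk x
  have hx : x - y ∈ T := by
    rw [hm _ (by rw [abs_of_nonneg (by omega)]; omega)]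
    omega
  have hx' : x - y' ∉ T := by
    rw [hm _ (by rw [abs_of_nonpos (by omega)]; omega)]
    omega
  have hk1 := hp.mp hx
  have hk2 : k.1 x - y' ∉ T := fun h => hx' (hp'.mpr h)
  have h4 : -(m : ℤ) ≤ k.1 x - y := by
    by_contra hcon
    rw [hm _ (by rw [abs_of_nonpos (by omega)]; omega)] at hk1
    omega
  have h5 : k.1 x - y' ≤ m := by
    by_contra hcon
    apply hk2
    rw [hm _ (by rw [abs_of_nonneg (by omega)]; omega)]
    omega
  rw [abs_le]
  push_cast
  constructor <;> omega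

lemma finite_homs {K : Type*} [Group K] (hK : Group.FG K) (s : ℕ) :
    Finite (K →* Perm (Fin s)) := by
  obtain ⟨S, hS⟩ := hK.out
  apply Finite.of_injective (fun (φ : K →* Perm (Fin s)) => fun x : S => φ x.1)
  intro φ ψ h
  apply MonoidHom.eq_of_eqOn_dense hS
  intro x hx
  exact congrFun h ⟨x, hx⟩

lemma finite_of_bdd {K : Subgroup G} (hK : K.FG) (C : ℕ) (h : ∀ k ∈ K, ∀ x, |k.1 x - x| ≤ C) :
    Finite K := by
  have hfin := finite_homs ((Group.fg_iff_subgroup_fg K).mpr hK) (2 * C + 1)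
  apply Finite.of_injective (fun (k : K) => fun φ : K →* Perm (Fin (2 * C + 1)) => φ k)
  intro k k' hkk'
  have hb : ∀ x : ℤ, ∀ z : MulAction.orbit K x, |z.1 - x| ≤ C := by
    rintro x ⟨z, l, rfl⟩
    exact h l.1 l.2 x
  let ι : ∀ x : ℤ, MulAction.orbit K x ↪ Fin (2 * C + 1) := fun x =>
    ⟨fun z => ⟨(z.1 - x + C).toNat, by
      have := hb x z
      rw [abs_le] at this
      omega⟩, by
      intro z z' hz
      have h1 := hb x z
      have h2 := hb x z'
      have h3 := congrArg Fin.val hz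
      simp only at h3
      rw [abs_le] at h1 h2
      apply Subtype.ext
      omega⟩
  apply Subtype.ext
  apply Subtype.ext
  ext x
  have h1 := congrFun hkk' ((Perm.viaEmbeddingHom (ι x)).comp
    (MulAction.toPermHom K (MulAction.orbit K x)))
  have h2 := Perm.viaEmbeddingHom_injective (ι x) h1
  have h3 := congrArg (fun σ : Perm (MulAction.orbit K x) =>
    (σ ⟨x, MulAction.mem_orbit_self x⟩).1) h2
  exact h3

/-- finitely generated subgroups of stabilisers of standard configurations are finite -/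
theorem stab_lf {T : Set ℤ} (hT : Std T) (S : Finset G) (hS : ∀ s ∈ S, act s.1 T = T) :
    Finite (Subgroup.closure (S : Set G)) := by
  obtain ⟨C, hC⟩ := orbit_bound hT S hS
  exact finite_of_bdd ⟨S, rfl⟩ C hC

end Pool.Agent.Helper94.Liou
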