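import Pool.Agent.Helper94.Liou.Pair

/-!
# The pair walk and its Dirichlet form
-/

set_option autoImplicit false

namespace Pool.Agent.Helper94.Liou

open Filter Topology Finset Equiv

/-- index set of generators and inverses -/
def K : Type := Alph × Bool

instance : Finite K := inferInstanceAs (Finite (Alph × Bool))

noncomputable instance : Fintype K := Fintype.ofFinite K

instance : Nonempty K := ⟨((w 0, true) : Alph × Bool)⟩

/-- generators and their inverses -/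
noncomputable def sg (k : K) : Perm ℤ := if k.2 then γ k.1 else (γ k.1)⁻¹

/-- inversion on the index set -/
def kinv : K ≃ K := Equiv.prodCongr (Equiv.refl _) Equiv.boolNot

lemma sg_kinv (k : K) : sg (kinv k) = (sg k)⁻¹ := by
  obtain ⟨a, b⟩ := k
  change (if (!b) = true then γ a else (γ a)⁻¹) = (if b = true then γ a else (γ a)⁻¹)⁻¹
  cases b <;> simp

lemma sg_mem (k : K) : sg k ∈ G := by
  unfold sg
  split_ifs
  · exact γ_mem _
  · exact G.inv_mem (γ_mem _)

lemma sg_disp (k : K) (x : ℤ) : |sg k x - x| ≤ 4 := by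
  obtain ⟨a, b⟩ := k
  cases b
  · exact (Loc.inv (Loc.γ a)).1 x
  · exact ((Loc.γ a).1 x).trans (by norm_num)

/-- the action of a generator on bounded functions on pairs -/
noncomputable def T (k : K) : bd (ℤ × ℤ) →ₐ[ℝ] bd (ℤ × ℤ) := cmp (Equiv.prodCongr (sg k) (sg k))

lemma T_apply (k : K) (F : bd (ℤ × ℤ)) (x : ℤ × ℤ) :
    (T k F).1 x = F.1 (sg k x.1, sg k x.2) := rfl

lemma E2_T (k : K) (F : bd (ℤ × ℤ)) : E2 (T k F) = E2 F :=
  E2_inv (R := 4) (sg_disp k) (sg_disp k) F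

lemma T_kinv (k : K) (F : bd (ℤ × ℤ)) : T (kinv k) (T k F) = F := by
  apply Subtype.ext
  funext x
  rw [T_apply, T_apply, sg_kinv]
  simp

/-- number of generators -/
noncomputable def cK : ℝ := Fintype.card K

lemma cK_pos : 0 < cK := by
  unfold cK
  have : 0 < Fintype.card K := Fintype.card_pos
  exact_mod_cast this

/-- the lazy walk operator on pairs -/
noncomputable def P2 : bd (ℤ × ℤ) →ₗ[ℝ] bd (ℤ × ℤ) :=
  (1 / 2 : ℝ) • LinearMap.id + (1 / (2 * cK)) • ∑ k : K, (T k).toLinearMap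

lemma P2_apply (F : bd (ℤ × ℤ)) :
    P2 F = (1 / 2 : ℝ) • F + (1 / (2 * cK)) • ∑ k : K, T k F := by
  simp [P2]

/-- the bilinear form -/
noncomputable def B (F H : bd (ℤ × ℤ)) : ℝ := E2 (F * H)

lemma B_comm (F H : bd (ℤ × ℤ)) : B F H = B H F := by rw [B, mul_comm, B]

lemma B_add (F H H' : bd (ℤ × ℤ)) : B F (H + H') = B F H + B F H' := by
  rw [B, mul_add, map_add]; rfl

lemma B_sub (F H H' : bd (ℤ × ℤ)) : B F (H - H') = B F H - B F H' := by
  rw [B, mul_sub, map_sub]; rfl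

lemma B_smul (r : ℝ) (F H : bd (ℤ × ℤ)) : B F (r • H) = r * B F H := by
  rw [B, Algebra.mul_smul_comm, map_smul]; rfl

lemma B_sum {κ : Type*} (s : Finset κ) (F : bd (ℤ × ℤ)) (H : κ → bd (ℤ × ℤ)) :
    B F (∑ k ∈ s, H k) = ∑ k ∈ s, B F (H k) := by
  rw [B, Finset.mul_sum, map_sum]; rfl

lemma B_self_nonneg (F : bd (ℤ × ℤ)) : 0 ≤ B F F := E2_nonneg fun _ => mul_self_nonneg _

lemma B_T (k : K) (F H : bd (ℤ × ℤ)) : B F (T k H) = B (T (kinv k) F) H := by
  rw [B, ← E2_T (kinv k), map_mul, T_kinv, B]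

lemma kinv_kinv (k : K) : kinv (kinv k) = k := by
  obtain ⟨a, b⟩ := k
  cases b <;> rfl

lemma B_P2 (F H : bd (ℤ × ℤ)) : B F (P2 H) = B (P2 F) H := by
  rw [B_comm (P2 F) H, P2_apply, P2_apply, B_add, B_add, B_smul, B_smul, B_smul, B_smul, B_sum,
    B_sum, B_comm F H]
  congr 2
  rw [← Equiv.sum_comp kinv (fun k => B H (T k F))]
  apply Finset.sum_congr rfl
  intro k _
  rw [B_T, B_comm]

lemma B_T_self_ge (k : K) (F : bd (ℤ × ℤ)) : -B F F ≤ B F (T k F) := by
  have h : 0 ≤ B (T k F + F) (T k F + F) := B_self_nonneg _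
  rw [B_add, B_comm _ (T k F), B_comm _ F, B_add, B_add] at h
  have h1 : B (T k F) (T k F) = B F F := by rw [B, ← map_mul, E2_T]; rfl
  rw [h1, B_comm (T k F) F] at h
  linarith

lemma B_P2_self_nonneg (F : bd (ℤ × ℤ)) : 0 ≤ B F (P2 F) := by
  rw [P2_apply, B_add, B_smul, B_smul, B_sum]
  have h : ∑ k : K, (-B F F) ≤ ∑ k : K, B F (T k F) :=
    Finset.sum_le_sum fun k _ => B_T_self_ge k F
  rw [Finset.sum_const, nsmul_eq_mul, Finset.card_univ] at h
  have hc := cK_pos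
  have h2 : (1 / (2 * cK)) * (cK * -B F F) ≤ (1 / (2 * cK)) * ∑ k : K, B F (T k F) :=
    mul_le_mul_of_nonneg_left h (by positivity)
  have h3 : (1 / (2 * cK)) * (cK * -B F F) = -(1 / 2) * B F F := by field_simp
  linarith

lemma B_pow (n : ℕ) (F H : bd (ℤ × ℤ)) : B F ((P2 ^ n) H) = B ((P2 ^ n) F) H := by
  induction n generalizing F H with
  | zero => simp
  | succ n ih =>
    rw [pow_succ, Module.End.mul_apply, Module.End.mul_apply, ih, B_P2]
    rw [← Module.End.mul_apply, ← Module.End.mul_apply, ← pow_succ', pow_succ]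

lemma B_pow_nonneg (n : ℕ) (F : bd (ℤ × ℤ)) : 0 ≤ B F ((P2 ^ n) F) := by
  rcases Nat.even_or_odd' n with ⟨m, rfl | rfl⟩
  · rw [two_mul, pow_add, Module.End.mul_apply, B_pow]
    exact B_self_nonneg _
  · have : 2 * m + 1 = m + (1 + m) := by ring
    rw [this, pow_add, pow_add, Module.End.mul_apply, Module.End.mul_apply, B_pow, pow_one]
    exact B_P2_self_nonneg _

/-- the Dirichlet form -/
noncomputable def Dir (F : bd (ℤ × ℤ)) : ℝ := B F F - B F (P2 F)

lemma Dir_eq (F : bd (ℤ × ℤ)) :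
    Dir F = (1 / (4 * cK)) * ∑ k : K, B (T k F - F) (T k F - F) := by
  have h : ∀ k : K, B (T k F - F) (T k F - F) = 2 * B F F - 2 * B F (T k F) := by
    intro k
    have h1 : B (T k F) (T k F) = B F F := by rw [B, ← map_mul, E2_T]; rfl
    rw [B_sub, B_comm _ (T k F), B_comm _ F, B_sub, B_sub, h1, B_comm (T k F) F]
    ring
  simp only [h]
  rw [Finset.sum_sub_distrib, Finset.sum_const, nsmul_eq_mul, Finset.card_univ, ← Finset.mul_sum]
  rw [Dir, P2_apply, B_add, B_smul, B_smul, B_sum]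
  have hc := cK_pos
  change _ = 1 / (4 * cK) * (cK * (2 * B F F) - 2 * ∑ i, B F ((T i) F))
  field_simp
  ring

/-- finite energy implies summability -/
lemma energy_sum {V : bd (ℤ × ℤ)} {κ : ℝ} (hκ : 0 ≤ κ)
    (h : ∀ F, B V F ^ 2 ≤ κ * Dir F) (t : ℕ) :
    ∑ i ∈ Finset.range t, B V ((P2 ^ i) V) ≤ κ := by
  set u : bd (ℤ × ℤ) := ∑ i ∈ Finset.range t, (P2 ^ i) V with hu
  have hx : B V u = ∑ i ∈ Finset.range t, B V ((P2 ^ i) V) := by rw [hu, B_sum]
  have htel : u - P2 u = V - (P2 ^ t) V := by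
    rw [hu, map_sum, ← Finset.sum_sub_distrib]
    have : ∀ i, (P2 ^ i) V - P2 ((P2 ^ i) V) = (P2 ^ i) V - (P2 ^ (i + 1)) V := by
      intro i; rw [pow_succ', Module.End.mul_apply]
    simp only [this]
    rw [Finset.sum_range_sub']
    simp
  have h1 : Dir u = B u V - B u ((P2 ^ t) V) := by
    rw [Dir, ← B_sub, htel, B_sub]
  have h2 : 0 ≤ B u ((P2 ^ t) V) := by
    rw [hu, B_comm, B_sum]
    apply Finset.sum_nonneg
    intro i _
    rw [← B_pow, ← Module.End.mul_apply, ← pow_add]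
    exact B_pow_nonneg _ _
  have h3 := h u
  rw [← hx]
  by_contra hcon
  push Not at hcon
  have hpos : 0 < B V u := lt_of_le_of_lt hκ hcon
  have h4 : Dir u ≤ B V u := by rw [h1, B_comm u V]; linarith
  have h5 : κ * Dir u ≤ κ * B V u := mul_le_mul_of_nonneg_left h4 hκ
  nlinarith

lemma B_mixed (n : ℕ) (Z V : bd (ℤ × ℤ)) :
    2 * B Z ((P2 ^ n) V) ≤ B Z ((P2 ^ n) Z) + B V ((P2 ^ n) V) := by
  have h := B_pow_nonneg n (Z - V)
  rw [map_sub, B_sub, B_comm (Z - V), B_comm (Z - V), B_sub, B_sub] at h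
  have h1 : B ((P2 ^ n) V) Z = B Z ((P2 ^ n) V) := B_comm _ _
  have h2 : B ((P2 ^ n) Z) V = B Z ((P2 ^ n) V) := by rw [← B_pow]
  have h3 : B ((P2 ^ n) Z) Z = B Z ((P2 ^ n) Z) := B_comm _ _
  have h4 : B ((P2 ^ n) V) V = B V ((P2 ^ n) V) := B_comm _ _
  rw [h1, h2, h3, h4] at h
  linarith

end Pool.Agent.Helper94.Liou
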